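import Mathlib

/-!
# The coefficient norm `Σ |aᵢ|` of integer polynomials
-/

set_option autoImplicit false

open Polynomial

namespace Pool.Agent.K1H95.HL

/-- sum of the absolute values of the coefficients -/
noncomputable def nrm (Z : ℤ[X]) : ℝ := ∑ i ∈ Z.support, |(Z.coeff i : ℝ)|

theorem nrm_eq (Z : ℤ[X]) (s : Finset ℕ) (hs : Z.support ⊆ s) :
    nrm Z = ∑ i ∈ s, |(Z.coeff i : ℝ)| := by
  refine Finset.sum_subset hs fun i _ hi => ?_
  rw [notMem_support_iff.1 hi]; simp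

theorem nrm_nonneg (Z : ℤ[X]) : 0 ≤ nrm Z := Finset.sum_nonneg fun _ _ => abs_nonneg _

theorem nrm_zero : nrm 0 = 0 := by simp [nrm]

theorem nrm_monomial_le (n : ℕ) (a : ℤ) : nrm (monomial n a) ≤ |(a : ℝ)| := by
  have h : (monomial n a : ℤ[X]).support ⊆ {n} := support_monomial_subset n a
  rw [nrm_eq _ _ h]
  simp

theorem nrm_C_le (a : ℤ) : nrm (C a) ≤ |(a : ℝ)| := nrm_monomial_le 0 a

theorem nrm_add_le (Z W : ℤ[X]) : nrm (Z + W) ≤ nrm Z + nrm W := by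
  classical
  have h : (Z + W).support ⊆ Z.support ∪ W.support := support_add
  rw [nrm_eq _ _ h, nrm_eq Z (Z.support ∪ W.support) Finset.subset_union_left,
    nrm_eq W (Z.support ∪ W.support) Finset.subset_union_right, ← Finset.sum_add_distrib]
  refine Finset.sum_le_sum fun i _ => ?_
  rw [coeff_add]
  push_cast
  exact abs_add_le _ _

theorem nrm_neg (Z : ℤ[X]) : nrm (-Z) = nrm Z := by
  unfold nrm
  rw [support_neg]
  exact Finset.sum_congr rfl fun i _ => by rw [coeff_neg]; push_cast; rw [abs_neg]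

theorem nrm_sub_le (Z W : ℤ[X]) : nrm (Z - W) ≤ nrm Z + nrm W := by
  rw [sub_eq_add_neg]
  have := nrm_add_le Z (-W)
  rwa [nrm_neg] at this

theorem nrm_sum_le {ι : Type*} (s : Finset ι) (f : ι → ℤ[X]) :
    nrm (∑ i ∈ s, f i) ≤ ∑ i ∈ s, nrm (f i) := by
  classical
  induction s using Finset.induction_on with
  | empty => simp [nrm_zero]
  | insert a s ha ih =>
    rw [Finset.sum_insert ha, Finset.sum_insert ha]
    exact (nrm_add_le _ _).trans (by linarith)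

theorem nrm_mul_le (Z W : ℤ[X]) : nrm (Z * W) ≤ nrm Z * nrm W := by
  rw [mul_eq_sum_sum]
  refine (nrm_sum_le _ _).trans ?_
  unfold nrm
  rw [Finset.sum_mul_sum]
  refine Finset.sum_le_sum fun i _ => ?_
  simp only [Polynomial.sum]
  refine (nrm_sum_le _ _).trans ?_
  refine Finset.sum_le_sum fun j _ => ?_
  refine (nrm_monomial_le _ _).trans ?_
  push_cast
  rw [abs_mul]

theorem nrm_pow_le (Z : ℤ[X]) (n : ℕ) : nrm (Z ^ n) ≤ nrm Z ^ n := by
  induction n with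
  | zero =>
    rw [pow_zero, pow_zero]
    have := nrm_C_le 1
    simpa using this
  | succ n ih =>
    rw [pow_succ, pow_succ]
    exact (nrm_mul_le _ _).trans (mul_le_mul_of_nonneg_right ih (nrm_nonneg _))

theorem abs_eval_le (Z : ℤ[X]) (T : ℕ) (hT : 1 ≤ T) (n : ℕ) (hn : Z.natDegree ≤ n) :
    |((Z.eval (T : ℤ) : ℤ) : ℝ)| ≤ nrm Z * (T : ℝ) ^ n := by
  rw [eval_eq_sum, Polynomial.sum]
  push_cast
  refine (Finset.abs_sum_le_sum_abs _ _).trans ?_
  unfold nrm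
  rw [Finset.sum_mul]
  refine Finset.sum_le_sum fun i hi => ?_
  rw [abs_mul, abs_of_nonneg (by positivity : (0 : ℝ) ≤ (T : ℝ) ^ i)]
  refine mul_le_mul_of_nonneg_left ?_ (abs_nonneg _)
  exact pow_le_pow_right₀ (by exact_mod_cast hT) ((le_natDegree_of_mem_supp i hi).trans hn)

theorem nrm_eraseLead_le (Z : ℤ[X]) : nrm Z.eraseLead ≤ nrm Z := by
  classical
  have h : Z.eraseLead.support ⊆ Z.support := by
    rw [eraseLead_support]; exact Finset.erase_subset _ _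
  rw [nrm_eq _ _ h]
  unfold nrm
  refine Finset.sum_le_sum fun i _ => ?_
  rw [eraseLead_coeff]
  split_ifs
  · simp
  · exact le_rfl

/-- lower bound for the values -/
theorem eval_lower (Z : ℤ[X]) (T : ℕ) (hT : 1 ≤ T) (n : ℕ) (hn : Z.natDegree = n + 1) :
    (T : ℝ) ^ (n + 1) - nrm Z * (T : ℝ) ^ n ≤ |((Z.eval (T : ℤ) : ℤ) : ℝ)| := by
  have hZ : Z ≠ 0 := by rintro rfl; simp at hn
  have h1 : Z.eval (T : ℤ) = Z.eraseLead.eval (T : ℤ) + Z.leadingCoeff * (T : ℤ) ^ (n + 1) := by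
    conv_lhs => rw [← eraseLead_add_C_mul_X_pow Z]
    simp [hn]
  have h2 : |((Z.eraseLead.eval (T : ℤ) : ℤ) : ℝ)| ≤ nrm Z * (T : ℝ) ^ n := by
    refine (abs_eval_le _ T hT n ?_).trans ?_
    · have := eraseLead_natDegree_le Z
      omega
    · exact mul_le_mul_of_nonneg_right (nrm_eraseLead_le Z) (by positivity)
  have h3 : (1 : ℝ) ≤ |(Z.leadingCoeff : ℝ)| := by
    have : 1 ≤ |Z.leadingCoeff| := Int.one_le_abs (leadingCoeff_ne_zero.2 hZ)
    exact_mod_cast this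
  have h4 : (T : ℝ) ^ (n + 1) ≤ |((Z.leadingCoeff * (T : ℤ) ^ (n + 1) : ℤ) : ℝ)| := by
    push_cast
    rw [abs_mul, abs_of_nonneg (by positivity : (0 : ℝ) ≤ (T : ℝ) ^ (n + 1))]
    nlinarith [(by positivity : (0 : ℝ) ≤ (T : ℝ) ^ (n + 1))]
  rw [h1]
  push_cast at h2 h4 ⊢
  have h5 := abs_sub_abs_le_abs_sub ((Z.leadingCoeff : ℝ) * (T : ℝ) ^ (n + 1))
    (-((Z.eraseLead.eval (T : ℤ) : ℤ) : ℝ))
  rw [abs_neg] at h5
  rw [sub_neg_eq_add, add_comm ((Z.leadingCoeff : ℝ) * (T : ℝ) ^ (n + 1))] at h5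
  linarith

end Pool.Agent.K1H95.HL
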