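import Mathlib
import Pool.Agent.K1H95.HL.Norm

/-!
# Rational numbers which are values of Laurent polynomials with small coefficients at `T = b ^ M`
-/

set_option autoImplicit false

open Polynomial

namespace Pool.Agent.K1H95.HL

/-- `b^σ T^κ z = Z(T)` with `T = b^M`, `deg Z ≤ 2κ` and coefficient norm at most `Λ` -/
def Rep (b M : ℕ) (z : ℚ) (κ σ : ℕ) (Λ : ℝ) : Prop :=
  ∃ Z : ℤ[X], Z.natDegree ≤ 2 * κ ∧ nrm Z ≤ Λ ∧
    (b : ℚ) ^ σ * ((b : ℚ) ^ M) ^ κ * z = ((Z.eval ((b ^ M : ℕ) : ℤ) : ℤ) : ℚ)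

variable {b M : ℕ}

theorem Rep.nonneg {z : ℚ} {κ σ : ℕ} {Λ : ℝ} (h : Rep b M z κ σ Λ) : 0 ≤ Λ := by
  obtain ⟨Z, _, h2, _⟩ := h
  exact (nrm_nonneg Z).trans h2

theorem Rep.mono {z : ℚ} {κ σ : ℕ} {Λ Λ' : ℝ} (h : Rep b M z κ σ Λ) (hΛ : Λ ≤ Λ') :
    Rep b M z κ σ Λ' := by
  obtain ⟨Z, h1, h2, h3⟩ := h
  exact ⟨Z, h1, h2.trans hΛ, h3⟩

theorem Rep.mul {z z' : ℚ} {κ κ' σ σ' : ℕ} {Λ Λ' : ℝ} (h : Rep b M z κ σ Λ)
    (h' : Rep b M z' κ' σ' Λ') : Rep b M (z * z') (κ + κ') (σ + σ') (Λ * Λ') := by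
  have h0 := h.nonneg
  obtain ⟨Z, h1, h2, h3⟩ := h
  obtain ⟨Z', h1', h2', h3'⟩ := h'
  refine ⟨Z * Z', natDegree_mul_le.trans (by omega), (nrm_mul_le _ _).trans
    (mul_le_mul h2 h2' (nrm_nonneg _) h0), ?_⟩
  rw [eval_mul]
  push_cast
  push_cast at h3 h3'
  rw [← h3, ← h3', pow_add, pow_add]
  ring

theorem Rep.raise {z : ℚ} {κ σ : ℕ} {Λ : ℝ} (h : Rep b M z κ σ Λ) (κ' σ' : ℕ) :
    Rep b M z (κ + κ') (σ + σ') (Λ * (b : ℝ) ^ σ') := by
  have h0 := h.nonneg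
  obtain ⟨Z, h1, h2, h3⟩ := h
  refine ⟨Z * monomial κ' ((b : ℤ) ^ σ'), ?_, ?_, ?_⟩
  · have := natDegree_monomial_le ((b : ℤ) ^ σ') (m := κ')
    exact natDegree_mul_le.trans (by omega)
  · refine (nrm_mul_le _ _).trans (mul_le_mul h2 ?_ (nrm_nonneg _) h0)
    refine (nrm_monomial_le _ _).trans ?_
    push_cast
    rw [abs_of_nonneg (by positivity)]
  · rw [eval_mul, eval_monomial]
    push_cast
    push_cast at h3
    rw [← h3, pow_add, pow_add]
    ring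

theorem Rep.add {z z' : ℚ} {κ σ : ℕ} {Λ Λ' : ℝ} (h : Rep b M z κ σ Λ)
    (h' : Rep b M z' κ σ Λ') : Rep b M (z + z') κ σ (Λ + Λ') := by
  obtain ⟨Z, h1, h2, h3⟩ := h
  obtain ⟨Z', h1', h2', h3'⟩ := h'
  refine ⟨Z + Z', (natDegree_add_le _ _).trans (by omega), (nrm_add_le _ _).trans
    (add_le_add h2 h2'), ?_⟩
  rw [eval_add]
  push_cast
  push_cast at h3 h3'
  rw [← h3, ← h3']
  ring

theorem Rep.int_mul {z : ℚ} {κ σ : ℕ} {Λ : ℝ} (u : ℤ) (h : Rep b M z κ σ Λ) :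
    Rep b M (u * z) κ σ (|(u : ℝ)| * Λ) := by
  have h0 := h.nonneg
  obtain ⟨Z, h1, h2, h3⟩ := h
  refine ⟨C u * Z, (natDegree_C_mul_le _ _).trans h1, (nrm_mul_le _ _).trans
    (mul_le_mul (nrm_C_le u) h2 (nrm_nonneg _) (abs_nonneg _)), ?_⟩
  rw [eval_mul, eval_C]
  push_cast
  push_cast at h3
  rw [← h3]
  ring

theorem Rep.neg {z : ℚ} {κ σ : ℕ} {Λ : ℝ} (h : Rep b M z κ σ Λ) :
    Rep b M (-z) κ σ Λ := by
  have := h.int_mul (-1)
  simpa using this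

theorem Rep.zero (κ σ : ℕ) : Rep b M 0 κ σ 0 := ⟨0, by simp, by simp [nrm_zero], by simp⟩

theorem Rep.one : Rep b M 1 0 0 1 := by
  refine ⟨1, by simp, ?_, by simp⟩
  have := nrm_C_le 1
  simpa using this

theorem Rep.pow {z : ℚ} {κ σ : ℕ} {Λ : ℝ} (h : Rep b M z κ σ Λ) (n : ℕ) :
    Rep b M (z ^ n) (n * κ) (n * σ) (Λ ^ n) := by
  induction n with
  | zero => simpa using Rep.one
  | succ n ih =>
    rw [pow_succ, pow_succ, Nat.succ_mul, Nat.succ_mul]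
    exact ih.mul h

theorem Rep.sum {ι : Type*} (s : Finset ι) (z : ι → ℚ) (κ σ : ℕ) (Λ : ι → ℝ)
    (h : ∀ i ∈ s, Rep b M (z i) κ σ (Λ i)) : Rep b M (∑ i ∈ s, z i) κ σ (∑ i ∈ s, Λ i) := by
  classical
  induction s using Finset.induction_on with
  | empty => simpa using Rep.zero κ σ
  | insert a s ha ih =>
    rw [Finset.sum_insert ha, Finset.sum_insert ha]
    exact (h a (Finset.mem_insert_self _ _)).add
      (ih fun i hi => h i (Finset.mem_insert_of_mem hi))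

theorem Rep.zpow (hb : 1 ≤ b) (n k : ℤ) (κ σ : ℕ) (hk : |k| ≤ κ) (hs : |n - k * M| ≤ σ) :
    Rep b M ((b : ℚ) ^ n) κ σ ((b : ℝ) ^ (2 * σ)) := by
  have hb0 : (b : ℚ) ≠ 0 := by
    have : b ≠ 0 := by omega
    exact_mod_cast this
  have hb1 : (1 : ℝ) ≤ b := by exact_mod_cast hb
  obtain ⟨i, hi⟩ := Int.eq_ofNat_of_zero_le (by have := (abs_le.1 hk).1; omega : 0 ≤ k + κ)
  obtain ⟨j, hj⟩ := Int.eq_ofNat_of_zero_le
    (by have := (abs_le.1 hs).1; omega : 0 ≤ σ + (n - k * M))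
  have hi2 : i ≤ 2 * κ := by have := (abs_le.1 hk).2; omega
  have hj2 : j ≤ 2 * σ := by have := (abs_le.1 hs).2; omega
  refine ⟨monomial i ((b : ℤ) ^ j), (natDegree_monomial_le _).trans hi2, ?_, ?_⟩
  · refine (nrm_monomial_le _ _).trans ?_
    push_cast
    rw [abs_of_nonneg (by positivity)]
    exact pow_le_pow_right₀ hb1 hj2
  · rw [eval_monomial]
    push_cast
    rw [← pow_mul, ← pow_mul, ← zpow_natCast, ← zpow_natCast, ← zpow_natCast, ← zpow_natCast,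
      ← zpow_add₀ hb0, ← zpow_add₀ hb0, ← zpow_add₀ hb0]
    congr 1
    push_cast
    have hi' : (i : ℤ) = k + κ := hi.symm
    have hj' : (j : ℤ) = σ + (n - k * M) := hj.symm
    rw [hi', hj']
    ring

/-- normal form: an integer close to such a number is one -/
theorem Rep.normal {w : ℚ} {κ σ : ℕ} {Λ : ℝ} (hb : 1 ≤ b) (h : Rep b M w κ σ Λ) (D z : ℤ)
    (hsmall : |((D * z - w : ℚ) : ℝ)| * (b : ℝ) ^ σ + Λ / (b : ℝ) ^ M < 1) :
    ∃ Z : ℤ[X], nrm Z ≤ Λ ∧ (b : ℤ) ^ σ * D * z = Z.eval ((b ^ M : ℕ) : ℤ) := by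
  obtain ⟨Z, h1, h2, h3⟩ := h
  have hb0 : (b : ℚ) ≠ 0 := by
    have : b ≠ 0 := by omega
    exact_mod_cast this
  have hb1 : (1 : ℝ) ≤ b := by exact_mod_cast hb
  have hbR : (b : ℝ) ≠ 0 := by positivity
  set Zh : ℤ[X] := Z /ₘ X ^ κ with hZh
  set Zl : ℤ[X] := Z %ₘ X ^ κ with hZl
  have hmon : (X ^ κ : ℤ[X]).Monic := monic_X_pow κ
  have hdec : Zl + X ^ κ * Zh = Z := modByMonic_add_div Z (X ^ κ)
  have cl : ∀ i, Zl.coeff i = if i < κ then Z.coeff i else 0 := by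
    intro i
    split_ifs with hi
    · have := congrArg (fun p => p.coeff i) hdec
      simp only [coeff_add] at this
      rw [coeff_X_pow_mul', if_neg (by omega), add_zero] at this
      exact this
    · apply coeff_eq_zero_of_degree_lt
      have hd := degree_modByMonic_lt Z hmon
      rw [degree_X_pow] at hd
      exact hd.trans_le (by exact_mod_cast (not_lt.1 hi))
  have ch : ∀ i, Zh.coeff i = Z.coeff (i + κ) := by
    intro i
    have := congrArg (fun p => p.coeff (i + κ)) hdec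
    simp only [coeff_add] at this
    rw [coeff_X_pow_mul', if_pos (by omega), cl, if_neg (by omega), zero_add,
      Nat.add_sub_cancel] at this
    exact this
  have nh : nrm Zh ≤ nrm Z := by
    unfold nrm
    calc ∑ i ∈ Zh.support, |(Zh.coeff i : ℝ)| = ∑ i ∈ Zh.support, |(Z.coeff (i + κ) : ℝ)| :=
          Finset.sum_congr rfl fun i _ => by rw [ch]
      _ = ∑ j ∈ Zh.support.map (addRightEmbedding κ), |(Z.coeff j : ℝ)| := by
          rw [Finset.sum_map]; rfl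
      _ ≤ ∑ j ∈ Z.support, |(Z.coeff j : ℝ)| := by
          apply Finset.sum_le_sum_of_subset_of_nonneg
          · intro j hj
            rw [Finset.mem_map] at hj
            obtain ⟨i, hi, rfl⟩ := hj
            rw [mem_support_iff] at hi ⊢
            rw [ch] at hi
            exact hi
          · intros; exact abs_nonneg _
  have nl : nrm Zl ≤ nrm Z := by
    have hsub : Zl.support ⊆ Z.support := by
      intro i hi
      rw [mem_support_iff] at hi ⊢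
      rw [cl] at hi
      split_ifs at hi with h
      · exact hi
      · exact absurd rfl hi
    rw [nrm_eq _ _ hsub]
    unfold nrm
    refine Finset.sum_le_sum fun i _ => ?_
    rw [cl]
    split_ifs
    · exact le_rfl
    · simp
  refine ⟨Zh, nh.trans h2, ?_⟩
  -- the low part is small
  have hT1 : 1 ≤ b ^ M := Nat.one_le_pow _ _ (by omega)
  have hlow : |((Zl.eval ((b ^ M : ℕ) : ℤ) : ℤ) : ℝ)| * (b : ℝ) ^ M ≤ Λ * ((b : ℝ) ^ M) ^ κ := by
    rcases Nat.eq_zero_or_pos κ with hκ | hκ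
    · have : Zl = 0 := by
        ext i
        rw [cl, if_neg (by omega), coeff_zero]
      rw [this]
      simp only [eval_zero, Int.cast_zero, abs_zero, zero_mul]
      have := (nrm_nonneg Z).trans h2
      positivity
    · have hd : Zl.natDegree ≤ κ - 1 := by
        rw [natDegree_le_iff_coeff_eq_zero]
        intro i hi
        rw [cl, if_neg (by omega)]
      have h4 := abs_eval_le Zl (b ^ M) hT1 (κ - 1) hd
      push_cast at h4 ⊢
      calc |((Zl.eval ((b : ℤ) ^ M) : ℤ) : ℝ)| * (b : ℝ) ^ M ≤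
            (nrm Zl * ((b : ℝ) ^ M) ^ (κ - 1)) * (b : ℝ) ^ M :=
            mul_le_mul_of_nonneg_right h4 (by positivity)
        _ = nrm Zl * ((b : ℝ) ^ M) ^ κ := by
            obtain ⟨κ', rfl⟩ : ∃ κ', κ = κ' + 1 := ⟨κ - 1, by omega⟩
            rw [Nat.add_sub_cancel, pow_succ]; ring
        _ ≤ Λ * ((b : ℝ) ^ M) ^ κ :=
            mul_le_mul_of_nonneg_right (nl.trans h2) (by positivity)
  -- compare
  have hZe : Z.eval ((b ^ M : ℕ) : ℤ) = Zl.eval ((b ^ M : ℕ) : ℤ) +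
      ((b : ℤ) ^ M) ^ κ * Zh.eval ((b ^ M : ℕ) : ℤ) := by
    conv_lhs => rw [← hdec]
    rw [eval_add, eval_mul, eval_pow, eval_X]
    push_cast
    rfl
  rw [hZe] at h3
  set zl : ℤ := Zl.eval ((b ^ M : ℕ) : ℤ) with hzl
  set zh : ℤ := Zh.eval ((b ^ M : ℕ) : ℤ) with hzh
  have h3R : (b : ℝ) ^ σ * ((b : ℝ) ^ M) ^ κ * (w : ℝ) =
      (zl : ℝ) + ((b : ℝ) ^ M) ^ κ * zh := by
    have := congrArg (fun t : ℚ => (t : ℝ)) h3
    push_cast at this
    exact this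
  have hTpos : (0 : ℝ) < (b : ℝ) ^ M := by positivity
  have hTκ : (0 : ℝ) < ((b : ℝ) ^ M) ^ κ := by positivity
  have hkey : |(((b : ℤ) ^ σ * D * z - zh : ℤ) : ℝ)| < 1 := by
    have e1 : (((b : ℤ) ^ σ * D * z - zh : ℤ) : ℝ) =
        ((D * z - w : ℚ) : ℝ) * (b : ℝ) ^ σ + zl / ((b : ℝ) ^ M) ^ κ := by
      push_cast
      field_simp
      linarith [h3R]
    rw [e1]
    refine lt_of_le_of_lt (abs_add_le _ _) ?_
    rw [abs_mul, abs_of_nonneg (by positivity : (0 : ℝ) ≤ (b : ℝ) ^ σ), abs_div,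
      abs_of_pos hTκ]
    refine lt_of_le_of_lt (add_le_add_right ?_ _) hsmall
    rw [div_le_div_iff₀ hTκ hTpos]
    exact hlow
  have hkey' : |(b : ℤ) ^ σ * D * z - zh| < 1 := by exact_mod_cast hkey
  have := Int.abs_lt_one_iff.1 hkey'
  linarith

end Pool.Agent.K1H95.HL
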