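import Mathlib
import Pool.Agent.K1H95.HL.Rep

/-!
# Sums of powers of `b`
-/

set_option autoImplicit false

open Polynomial

namespace Pool.Agent.K1H95.HL

/-- `∑ cₙ bⁿ` -/
noncomputable def ev (b : ℕ) (c : ℤ →₀ ℤ) : ℚ := ∑ n ∈ c.support, (c n : ℚ) * (b : ℚ) ^ n

/-- `∑ |cₙ|` -/
noncomputable def nm (c : ℤ →₀ ℤ) : ℝ := ∑ n ∈ c.support, |(c n : ℝ)|

theorem nm_nonneg (c : ℤ →₀ ℤ) : 0 ≤ nm c := Finset.sum_nonneg fun _ _ => abs_nonneg _

theorem sum_filter_supp (c : ℤ →₀ ℤ) (p : ℤ → Prop) [DecidablePred p] {R : Type*}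
    [AddCommMonoid R] (f : ℤ → ℤ → R) :
    ∑ n ∈ (c.filter p).support, f n (c.filter p n) = ∑ n ∈ c.support.filter p, f n (c n) := by
  rw [Finsupp.support_filter]
  exact Finset.sum_congr rfl fun n hn => by
    rw [Finsupp.filter_apply_pos _ _ (Finset.mem_filter.1 hn).2]

theorem ev_filter (b : ℕ) (c : ℤ →₀ ℤ) (p : ℤ → Prop) [DecidablePred p] :
    ev b (c.filter p) = ∑ n ∈ c.support.filter p, (c n : ℚ) * (b : ℚ) ^ n :=
  sum_filter_supp c p (fun n a => (a : ℚ) * (b : ℚ) ^ n)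

theorem nm_filter (c : ℤ →₀ ℤ) (p : ℤ → Prop) [DecidablePred p] :
    nm (c.filter p) = ∑ n ∈ c.support.filter p, |(c n : ℝ)| :=
  sum_filter_supp c p (fun _ a => |(a : ℝ)|)

theorem nm_filter_le (c : ℤ →₀ ℤ) (p : ℤ → Prop) [DecidablePred p] :
    nm (c.filter p) ≤ nm c := by
  rw [nm_filter]
  exact Finset.sum_le_sum_of_subset_of_nonneg (Finset.filter_subset _ _)
    fun _ _ _ => abs_nonneg _

theorem ev_filter_add (b : ℕ) (c : ℤ →₀ ℤ) (p : ℤ → Prop) [DecidablePred p] :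
    ev b (c.filter p) + ev b (c.filter fun n => ¬ p n) = ev b c := by
  rw [ev_filter, ev_filter]
  exact Finset.sum_filter_add_sum_filter_not _ _ _

theorem abs_ev_le (b : ℕ) (hb : 1 ≤ b) (c : ℤ →₀ ℤ) (l : ℤ) (hl : ∀ n ∈ c.support, n ≤ l) :
    |((ev b c : ℚ) : ℝ)| ≤ nm c * (b : ℝ) ^ l := by
  have hb1 : (1 : ℝ) ≤ b := by exact_mod_cast hb
  unfold ev nm
  push_cast
  refine (Finset.abs_sum_le_sum_abs _ _).trans ?_
  rw [Finset.sum_mul]
  refine Finset.sum_le_sum fun n hn => ?_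
  rw [abs_mul, abs_of_nonneg (by positivity : (0 : ℝ) ≤ (b : ℝ) ^ n)]
  exact mul_le_mul_of_nonneg_left (zpow_le_zpow_right₀ hb1 (hl n hn)) (abs_nonneg _)

variable {b M : ℕ}

theorem ev_rep (hb : 1 ≤ b) (c : ℤ →₀ ℤ) (k : ℤ → ℤ) (κ σ : ℕ)
    (hk : ∀ n ∈ c.support, |k n| ≤ κ) (hs : ∀ n ∈ c.support, |n - k n * M| ≤ σ) :
    Rep b M (ev b c) κ σ (nm c * (b : ℝ) ^ (2 * σ)) := by
  unfold ev nm
  rw [Finset.sum_mul]
  exact Rep.sum _ _ _ _ _ fun n hn => (Rep.zpow hb n (k n) κ σ (hk n hn) (hs n hn)).int_mul _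

/-- `∑ cₙ b^{σ+sₙ} t^{kₙ}` over the exponents with `kₙ ≥ 0` -/
theorem xnf (hb : 1 ≤ b) (c : ℤ →₀ ℤ) (k : ℤ → ℤ) (σ : ℕ)
    (hs : ∀ n ∈ c.support, |n - k n * M| ≤ σ) (q x : ℤ) (hx : ev b c = q * x)
    (hsmall : nm c * (b : ℝ) ^ (2 * σ) < (b : ℝ) ^ M) :
    ∃ U : ℤ[X], nrm U ≤ nm c * (b : ℝ) ^ (2 * σ) ∧
      (b : ℤ) ^ σ * q * x = U.eval ((b ^ M : ℕ) : ℤ) ∧
      (U.natDegree = 0 → ev b (c.filter fun n => k n ≠ 0) = 0) := by
  classical
  have hb0 : (b : ℚ) ≠ 0 := by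
    have : b ≠ 0 := by omega
    exact_mod_cast this
  have hb1 : (1 : ℝ) ≤ b := by exact_mod_cast hb
  let e : ℤ → ℕ := fun n => (σ + (n - k n * M)).toNat
  have he : ∀ n ∈ c.support, (e n : ℤ) = σ + (n - k n * M) := fun n hn => by
    have := (abs_le.1 (hs n hn)).1
    exact Int.toNat_of_nonneg (by omega)
  have he2 : ∀ n ∈ c.support, e n ≤ 2 * σ := fun n hn => by
    have := (abs_le.1 (hs n hn)).2
    have := he n hn
    omega
  let mo : ℤ → ℤ[X] := fun n => monomial (k n).toNat (c n * (b : ℤ) ^ e n)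
  have hmo : ∀ n ∈ c.support, nrm (mo n) ≤ |(c n : ℝ)| * (b : ℝ) ^ (2 * σ) := by
    intro n hn
    refine (nrm_monomial_le _ _).trans ?_
    push_cast
    rw [abs_mul, abs_of_nonneg (by positivity : (0 : ℝ) ≤ (b : ℝ) ^ e n)]
    exact mul_le_mul_of_nonneg_left (pow_le_pow_right₀ hb1 (he2 n hn)) (abs_nonneg _)
  have hme : ∀ n ∈ c.support, 0 ≤ k n → (((mo n).eval ((b ^ M : ℕ) : ℤ) : ℤ) : ℚ) =
      (b : ℚ) ^ σ * ((c n : ℚ) * (b : ℚ) ^ n) := by
    intro n hn hkn
    simp only [mo]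
    rw [eval_monomial]
    push_cast
    have h1 : (b : ℚ) ^ e n * ((b : ℚ) ^ M) ^ (k n).toNat = (b : ℚ) ^ σ * (b : ℚ) ^ n := by
      rw [← pow_mul, ← zpow_natCast, ← zpow_natCast, ← zpow_natCast, ← zpow_add₀ hb0,
        ← zpow_add₀ hb0]
      congr 1
      push_cast
      rw [he n hn, Int.toNat_of_nonneg hkn]
      ring
    linear_combination (c n : ℚ) * h1
  set U : ℤ[X] := ∑ n ∈ c.support.filter (fun n => 0 ≤ k n), mo n with hU
  have hUe : ((U.eval ((b ^ M : ℕ) : ℤ) : ℤ) : ℚ) =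
      (b : ℚ) ^ σ * ev b (c.filter fun n => 0 ≤ k n) := by
    rw [hU, eval_finsetSum, ev_filter, Finset.mul_sum]
    push_cast
    refine Finset.sum_congr rfl fun n hn => ?_
    have h1 := hme n (Finset.mem_filter.1 hn).1 (Finset.mem_filter.1 hn).2
    push_cast at h1
    exact h1
  have hneg : |((ev b (c.filter fun n => ¬ 0 ≤ k n) : ℚ) : ℝ)| * (b : ℝ) ^ σ < 1 := by
    have h1 := abs_ev_le b hb (c.filter fun n => ¬ 0 ≤ k n) (σ - M) (by
      intro n hn
      rw [Finsupp.support_filter, Finset.mem_filter] at hn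
      have h2 := (abs_le.1 (hs n hn.1)).2
      have h3 : k n * M ≤ -M := by nlinarith [hn.2, (by positivity : (0 : ℤ) ≤ M)]
      linarith)
    have hbR : (b : ℝ) ≠ 0 := by positivity
    calc |((ev b (c.filter fun n => ¬ 0 ≤ k n) : ℚ) : ℝ)| * (b : ℝ) ^ σ
        ≤ (nm c * (b : ℝ) ^ ((σ : ℤ) - M)) * (b : ℝ) ^ σ := by
          refine mul_le_mul_of_nonneg_right (h1.trans ?_) (by positivity)
          exact mul_le_mul_of_nonneg_right (nm_filter_le _ _) (by positivity)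
      _ = nm c * (b : ℝ) ^ (2 * σ) / (b : ℝ) ^ M := by
          rw [zpow_sub₀ hbR, zpow_natCast, zpow_natCast, pow_mul']
          field_simp
      _ < 1 := by
          rw [div_lt_one (by positivity)]
          exact hsmall
  have hsplit := ev_filter_add b c (fun n => 0 ≤ k n)
  have hval : (b : ℤ) ^ σ * q * x = U.eval ((b ^ M : ℕ) : ℤ) := by
    have h1 : (((b : ℤ) ^ σ * q * x - U.eval ((b ^ M : ℕ) : ℤ) : ℤ) : ℚ) =
        ev b (c.filter fun n => ¬ 0 ≤ k n) * (b : ℚ) ^ σ := by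
      push_cast
      push_cast at hUe
      rw [hUe, mul_assoc, ← hx, ← hsplit]
      ring
    have h2 : |(((b : ℤ) ^ σ * q * x - U.eval ((b ^ M : ℕ) : ℤ) : ℤ) : ℝ)| < 1 := by
      have h3 := congrArg (fun t : ℚ => (t : ℝ)) h1
      push_cast at h3 hneg ⊢
      rw [h3, abs_mul, abs_of_nonneg (by positivity : (0 : ℝ) ≤ (b : ℝ) ^ σ)]
      exact hneg
    have h3 : |(b : ℤ) ^ σ * q * x - U.eval ((b ^ M : ℕ) : ℤ)| < 1 := by exact_mod_cast h2
    have := Int.abs_lt_one_iff.1 h3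
    linarith
  refine ⟨U, ?_, hval, ?_⟩
  · refine (nrm_sum_le _ _).trans ?_
    unfold nm
    rw [Finset.sum_mul]
    refine (Finset.sum_le_sum fun n hn => hmo n (Finset.mem_filter.1 hn).1).trans ?_
    exact Finset.sum_le_sum_of_subset_of_nonneg (Finset.filter_subset _ _)
      fun _ _ _ => by positivity
  · intro hd
    -- the negative part vanishes
    have hbσ : (b : ℚ) ^ σ ≠ 0 := pow_ne_zero _ hb0
    have hnz : ev b (c.filter fun n => ¬ 0 ≤ k n) = 0 := by
      have h1 : (b : ℚ) ^ σ * (ev b c) = (b : ℚ) ^ σ * ev b (c.filter fun n => 0 ≤ k n) := by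
        rw [← hUe, ← hval, hx]; push_cast; ring
      have h2 := mul_left_cancel₀ hbσ h1
      linarith
    -- the positive part vanishes
    set U1 : ℤ[X] := ∑ n ∈ c.support.filter (fun n => 0 < k n), mo n with hU1
    have hU1c : ∀ i, U1.coeff i = if i = 0 then 0 else U.coeff i := by
      intro i
      rw [hU1, hU, finsetSum_coeff, finsetSum_coeff]
      split_ifs with hi
      · refine Finset.sum_eq_zero fun n hn => ?_
        simp only [mo]
        rw [coeff_monomial, if_neg]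
        have := (Finset.mem_filter.1 hn).2
        omega
      · refine Finset.sum_subset (fun n hn => Finset.mem_filter.2
          ⟨(Finset.mem_filter.1 hn).1, (Finset.mem_filter.1 hn).2.le⟩) ?_
        intro n hn hn'
        simp only [Finset.mem_filter, not_and, not_lt] at hn hn'
        have h0 : k n = 0 := le_antisymm (hn' hn.1) hn.2
        simp only [mo]
        rw [coeff_monomial, if_neg]
        rw [h0]
        simpa using (Ne.symm hi)
    have hU10 : U1 = 0 := by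
      ext i
      rw [hU1c, coeff_zero]
      split_ifs with hi
      · rfl
      · exact coeff_eq_zero_of_natDegree_lt (by omega)
    have hpz : ev b (c.filter fun n => 0 < k n) = 0 := by
      have h1 : ((U1.eval ((b ^ M : ℕ) : ℤ) : ℤ) : ℚ) =
          (b : ℚ) ^ σ * ev b (c.filter fun n => 0 < k n) := by
        rw [hU1, eval_finsetSum, ev_filter, Finset.mul_sum]
        push_cast
        refine Finset.sum_congr rfl fun n hn => ?_
        have h1 := hme n (Finset.mem_filter.1 hn).1 (Finset.mem_filter.1 hn).2.le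
        push_cast at h1
        exact h1
      rw [hU10, eval_zero, Int.cast_zero] at h1
      rcases mul_eq_zero.1 h1.symm with h | h
      · exact absurd h hbσ
      · exact h
    rw [ev_filter] at hnz hpz ⊢
    have : c.support.filter (fun n => k n ≠ 0) =
        c.support.filter (fun n => ¬ 0 ≤ k n) ∪ c.support.filter (fun n => 0 < k n) := by
      ext n
      simp only [Finset.mem_filter, Finset.mem_union]
      constructor
      · rintro ⟨h1, h2⟩
        rcases lt_or_ge (k n) 0 with h | h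
        · exact Or.inl ⟨h1, by omega⟩
        · exact Or.inr ⟨h1, by omega⟩
      · rintro (⟨h1, h2⟩ | ⟨h1, h2⟩)
        · exact ⟨h1, by omega⟩
        · exact ⟨h1, by omega⟩
    rw [this, Finset.sum_union, hnz, hpz, add_zero]
    rw [Finset.disjoint_filter]
    intro n _ h1 h2
    omega

end Pool.Agent.K1H95.HL
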