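import Mathlib
import Pool.Agent.K1H95.HL.Ev

/-!
# The coefficient `A` of a sparse point is sparse
-/

set_option autoImplicit false

open Polynomial

namespace Pool.Agent.K1H95.HL

/-- truncated geometric sums `∑_{i<J} u^{J-1-i} (-ρ)^i` -/
def gs (u ρ : ℚ) : ℕ → ℚ
  | 0 => 0
  | J + 1 => u * gs u ρ J + (-ρ) ^ J

theorem gs_mul (u ρ : ℚ) (J : ℕ) : (u + ρ) * gs u ρ J = u ^ J - (-ρ) ^ J := by
  induction J with
  | zero => simp [gs]
  | succ J ih =>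
    simp only [gs]
    linear_combination u * ih

variable {b M : ℕ}

theorem gs_rep (hb : 1 ≤ b) (u : ℤ) (ρ : ℚ) (κ σ : ℕ) (Λ E : ℝ) (h : Rep b M ρ κ σ Λ)
    (h1 : Λ ≤ E) (h2 : |(u : ℝ)| * (b : ℝ) ^ σ ≤ E) (h3 : (b : ℝ) ^ σ ≤ E) (J : ℕ) :
    Rep b M (gs u ρ J) (J * κ) (J * σ) (J * E ^ J) := by
  have hb1 : (1 : ℝ) ≤ b := by exact_mod_cast hb
  have hE : 0 ≤ E := le_trans (by positivity) h3
  have hΛ := h.nonneg
  induction J with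
  | zero => simpa [gs] using (Rep.zero (b := b) (M := M) 0 0)
  | succ J ih =>
    simp only [gs]
    have p1 := (ih.int_mul u).raise κ σ
    have p2 := (h.neg.pow J).raise κ σ
    have p3 := p1.add p2
    rw [Nat.succ_mul, Nat.succ_mul]
    refine p3.mono ?_
    have q1 : |(u : ℝ)| * (J * E ^ J) * (b : ℝ) ^ σ ≤ J * E ^ (J + 1) := by
      calc |(u : ℝ)| * (J * E ^ J) * (b : ℝ) ^ σ = (J * E ^ J) * (|(u : ℝ)| * (b : ℝ) ^ σ) := by
            ring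
        _ ≤ (J * E ^ J) * E := mul_le_mul_of_nonneg_left h2 (by positivity)
        _ = J * E ^ (J + 1) := by ring
    have q2 : Λ ^ J * (b : ℝ) ^ σ ≤ E ^ (J + 1) := by
      rw [pow_succ]
      exact mul_le_mul (pow_le_pow_left₀ hΛ h1 J) h3 (by positivity) (by positivity)
    push_cast
    linarith

theorem blockA (hb : 1 ≤ b) (c d : ℤ →₀ ℤ) (k : ℤ → ℤ) (κ σ : ℕ)
    (hkc : ∀ n ∈ c.support, |k n| ≤ κ) (hsc : ∀ n ∈ c.support, |n - k n * M| ≤ σ)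
    (hkd : ∀ n ∈ d.support, |k n| ≤ κ) (hsd : ∀ n ∈ d.support, |n - k n * M| ≤ σ)
    (m : ℤ) (hkm : |k m| ≤ κ) (hsm : |m - k m * M| ≤ σ)
    (p : ℤ → Prop) [DecidablePred p] (J : ℕ) (hJ : Even J) (q u x y A B : ℤ)
    (hc : y ^ 2 = x ^ 3 + A * x + B)
    (hx : ev b c = q * x) (hy : ev b d = q * y) (hx0 : x ≠ 0) (hq : 1 ≤ q)
    (hu : (u : ℚ) * (b : ℚ) ^ m = ev b (c.filter p)) (hu0 : u ≠ 0) (W : ℝ) (hW : 1 ≤ W)
    (hcW : nm c ≤ W) (hdW : nm d ≤ W) :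
    ∃ w : ℚ, Rep b M w (4 * κ + J * (2 * κ)) (4 * σ + J * (2 * σ))
        (2 * q * W ^ 3 * (b : ℝ) ^ (8 * σ) * (J * (|(u : ℝ)| * W * (b : ℝ) ^ (4 * σ)) ^ J)) ∧
      (x : ℚ) * ((q ^ 2 * u ^ J : ℤ) * A - w) = -(q ^ 2 * u ^ J * B) + q ^ 2 * (A * x + B) *
        ((b : ℚ) ^ (-m) * ev b (c.filter fun n => ¬ p n)) ^ J := by
  have hb1 : (1 : ℝ) ≤ b := by exact_mod_cast hb
  have hb0 : (b : ℚ) ≠ 0 := by
    have : b ≠ 0 := by omega
    exact_mod_cast this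
  have hqR : (1 : ℝ) ≤ q := by exact_mod_cast hq
  set ρ : ℚ := (b : ℚ) ^ (-m) * ev b (c.filter fun n => ¬ p n) with hρ
  have hsub : ∀ n, n ∈ (c.filter fun n => ¬ p n).support → n ∈ c.support := fun n hn => by
    rw [Finsupp.support_filter] at hn
    exact (Finset.mem_filter.1 hn).1
  have rc : Rep b M (ev b c) κ σ (W * (b : ℝ) ^ (2 * σ)) :=
    (ev_rep hb c k κ σ hkc hsc).mono (mul_le_mul_of_nonneg_right hcW (by positivity))
  have rd : Rep b M (ev b d) κ σ (W * (b : ℝ) ^ (2 * σ)) :=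
    (ev_rep hb d k κ σ hkd hsd).mono (mul_le_mul_of_nonneg_right hdW (by positivity))
  have rr : Rep b M (ev b (c.filter fun n => ¬ p n)) κ σ (W * (b : ℝ) ^ (2 * σ)) :=
    (ev_rep hb _ k κ σ (fun n hn => hkc n (hsub n hn)) (fun n hn => hsc n (hsub n hn))).mono
      (mul_le_mul_of_nonneg_right ((nm_filter_le _ _).trans hcW) (by positivity))
  have rm : Rep b M ((b : ℚ) ^ (-m)) κ σ ((b : ℝ) ^ (2 * σ)) :=
    Rep.zpow hb (-m) (-k m) κ σ (by rw [abs_neg]; exact hkm) (by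
      have : -m - -k m * (M : ℤ) = -(m - k m * M) := by ring
      rw [this, abs_neg]; exact hsm)
  have hu1 : (1 : ℝ) ≤ |(u : ℝ)| := by
    have : 1 ≤ |u| := Int.one_le_abs hu0
    exact_mod_cast this
  have hbσ : ∀ n : ℕ, (1 : ℝ) ≤ (b : ℝ) ^ n := fun n => one_le_pow₀ hb1
  have hle : ∀ i j : ℕ, i ≤ j → (b : ℝ) ^ i ≤ (b : ℝ) ^ j := fun i j h => pow_le_pow_right₀ hb1 h
  have rρ : Rep b M ρ (2 * κ) (2 * σ) (W * (b : ℝ) ^ (4 * σ)) := by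
    have h1 := rm.mul rr
    have e1 : (b : ℝ) ^ (2 * σ) * (W * (b : ℝ) ^ (2 * σ)) = W * (b : ℝ) ^ (4 * σ) := by
      ring
    rw [e1, ← two_mul, ← two_mul] at h1
    exact h1
  set E : ℝ := |(u : ℝ)| * W * (b : ℝ) ^ (4 * σ) with hE
  have rg : Rep b M (gs u ρ J) (J * (2 * κ)) (J * (2 * σ)) (J * E ^ J) := by
    refine gs_rep hb u ρ _ _ _ E rρ ?_ ?_ ?_ J
    · rw [hE, mul_assoc]
      exact le_mul_of_one_le_left (by positivity) hu1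
    · rw [hE, mul_assoc]
      refine mul_le_mul_of_nonneg_left ?_ (abs_nonneg _)
      calc (b : ℝ) ^ (2 * σ) ≤ (b : ℝ) ^ (4 * σ) := hle _ _ (by omega)
        _ ≤ W * (b : ℝ) ^ (4 * σ) := le_mul_of_one_le_left (by positivity) hW
    · rw [hE]
      calc (b : ℝ) ^ (2 * σ) ≤ (b : ℝ) ^ (4 * σ) := hle _ _ (by omega)
        _ ≤ (|(u : ℝ)| * W) * (b : ℝ) ^ (4 * σ) :=
          le_mul_of_one_le_left (by positivity) (one_le_mul_of_one_le_of_one_le hu1 hW)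
  have rF : Rep b M ((q : ℚ) * (ev b d) ^ 2 + -(ev b c) ^ 3) (3 * κ) (3 * σ)
      (2 * q * W ^ 3 * (b : ℝ) ^ (6 * σ)) := by
    have h1 := ((rd.pow 2).int_mul q).raise κ σ
    have h2 := (rc.pow 3).neg
    have e1 : 2 * κ + κ = 3 * κ := by ring
    have e2 : 2 * σ + σ = 3 * σ := by ring
    rw [e1, e2] at h1
    refine (h1.add h2).mono ?_
    rw [abs_of_nonneg (by positivity : (0 : ℝ) ≤ (q : ℝ))]
    have e3 : (q : ℝ) * (W * (b : ℝ) ^ (2 * σ)) ^ 2 * (b : ℝ) ^ σ =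
        q * (W ^ 2 * (b : ℝ) ^ (5 * σ)) := by ring
    have e4 : (W * (b : ℝ) ^ (2 * σ)) ^ 3 = W ^ 3 * (b : ℝ) ^ (6 * σ) := by ring
    rw [e3, e4]
    have h3 : W ^ 2 * (b : ℝ) ^ (5 * σ) ≤ W ^ 3 * (b : ℝ) ^ (6 * σ) :=
      mul_le_mul (pow_le_pow_right₀ hW (by norm_num)) (hle _ _ (by omega)) (by positivity)
        (by positivity)
    have h4 : W ^ 3 * (b : ℝ) ^ (6 * σ) ≤ q * (W ^ 3 * (b : ℝ) ^ (6 * σ)) :=
      le_mul_of_one_le_left (by positivity) hqR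
    have h5 : (q : ℝ) * (W ^ 2 * (b : ℝ) ^ (5 * σ)) ≤ q * (W ^ 3 * (b : ℝ) ^ (6 * σ)) :=
      mul_le_mul_of_nonneg_left h3 (by positivity)
    linarith
  refine ⟨((q : ℚ) * (ev b d) ^ 2 + -(ev b c) ^ 3) * (b : ℚ) ^ (-m) * gs u ρ J, ?_, ?_⟩
  · have h1 := (rF.mul rm).mul rg
    have e1 : 3 * κ + κ + J * (2 * κ) = 4 * κ + J * (2 * κ) := by ring
    have e2 : 3 * σ + σ + J * (2 * σ) = 4 * σ + J * (2 * σ) := by ring
    have e3 : 2 * (q : ℝ) * W ^ 3 * (b : ℝ) ^ (6 * σ) * (b : ℝ) ^ (2 * σ) =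
        2 * q * W ^ 3 * (b : ℝ) ^ (8 * σ) := by ring
    rw [e1, e2, e3] at h1
    exact h1
  · have g1 := gs_mul u ρ J
    rw [hJ.neg_pow] at g1
    have hsplit := ev_filter_add b c p
    have hbm : (b : ℚ) ^ m * (b : ℚ) ^ (-m) = 1 := by
      rw [← zpow_add₀ hb0]; simp
    have hx' : (q : ℚ) * x = (b : ℚ) ^ m * (u + ρ) := by
      rw [← hx, ← hsplit, ← hu, hρ]
      linear_combination (-(ev b (c.filter fun n => ¬ p n))) * hbm
    have hcQ : (y : ℚ) ^ 2 = (x : ℚ) ^ 3 + A * x + B := by exact_mod_cast hc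
    have hq0 : (q : ℚ) ≠ 0 := by
      have : q ≠ 0 := by omega
      exact_mod_cast this
    apply mul_left_cancel₀ hq0
    rw [hx, hy]
    push_cast
    have hF : (q : ℚ) * (q * y) ^ 2 + -((q : ℚ) * x) ^ 3 = q ^ 3 * (A * x + B) := by
      linear_combination (q : ℚ) ^ 3 * hcQ
    rw [hF]
    -- `q x w = q³ (A x + B) (u^J - ρ^J)`
    have hw : (q : ℚ) * x * ((q : ℚ) ^ 3 * (A * x + B) * (b : ℚ) ^ (-m) * gs u ρ J) =
        q ^ 3 * (A * x + B) * (u ^ J - ρ ^ J) := by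
      rw [hx', ← g1]
      linear_combination ((q : ℚ) ^ 3 * (A * x + B) * (u + ρ) * gs u ρ J) * hbm
    linear_combination -hw

end Pool.Agent.K1H95.HL
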