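import Mathlib
import Pool.Agent.TH419.HX.Near

/-!
# Integers close to roots of sparse sums of powers of `b` are sparse sums of powers of `b`

A variant of `Pool.Agent.TH419.HX.nearRoot` (same proof) in which the almost-units of the
conclusion are powers of the same base `b`.
-/

set_option autoImplicit false

open Finset Filter Topology

namespace Pool.Agent.K1H95.HL

open Pool.Agent.TH419.WI Pool.Agent.TH419.HX

/-- **Integers close to the `q`-th root of a sparse sum of powers of `b` with a dominating term**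
are sums of boundedly many powers of `b`, infinitely often. -/
theorem nearRootB {ι : Type} [Fintype ι] (b0 : ℕ) (hb0 : 2 ≤ b0) (q H : ℕ)
    (hq : 1 ≤ q) (C η κ : ℝ) (hC : 0 ≤ C) (hη : 0 < η) (hκ : 0 < κ) :
    ∃ N : ℕ, ∀ (L : ℕ → ℝ) (_ : Tendsto L atTop atTop) (n0 : ℕ → ℕ) (nn : ℕ → ι → ℕ)
      (lam : ℕ → ι → ℤ) (e h Y : ℕ → ℕ)
      (_ : ∀ᶠ t in atTop, ((b0 ^ n0 t : ℕ) : ℝ) ≤ Real.exp (C * L t))
      (_ : ∀ᶠ t in atTop, ∀ i, ((b0 ^ nn t i : ℕ) : ℝ) ≤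
        ((b0 ^ n0 t : ℕ) : ℝ) * Real.exp (-(η * L t)))
      (_ : ∀ i, Sub L fun t => (lam t i : ℝ))
      (_ : ∀ t, 1 ≤ e t ∧ e t ≤ H) (_ : ∀ t, 1 ≤ h t) (_ : Sub L fun t => (h t : ℝ))
      (_ : ∀ᶠ t in atTop, ∃ G : ℝ, 1 ≤ G ∧
        G ^ q = (e t : ℝ) * h t ^ q * ((b0 ^ n0 t : ℕ) : ℝ) +
          ∑ i, ((b0 ^ nn t i : ℕ) : ℝ) * lam t i ∧
        |(Y t : ℝ) ^ q - G ^ q| ≤ G ^ (q - 1) * Real.exp (-(κ * L t))),
      ∀ ε : ℝ, 0 < ε → ∃ᶠ t in atTop, ∃ (E : ℤ) (k : Fin N → ℤ) (c : Fin N → ℤ),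
        E ≠ 0 ∧ |(E : ℝ)| ≤ Real.exp (ε * L t) ∧
        (∀ j, |(c j : ℝ)| ≤ Real.exp (ε * L t)) ∧
        (E : ℚ) * Y t = ∑ j, (c j : ℚ) * (b0 : ℚ) ^ k j := by
  classical
  obtain ⟨J, hJ⟩ := exists_nat_ge ((C + κ + 2) / (η / 2))
  have hJ' : C + κ + 2 ≤ η / 2 * J := by
    rw [div_le_iff₀ (by positivity)] at hJ
    linarith
  obtain ⟨P, B, hB, hPB⟩ := root_real q hq J
  set S : Finset ℕ := b0.primeFactors with hSdef
  have hS : ∀ p ∈ S, p.Prime := fun p hp => Nat.prime_of_mem_primeFactors hp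
  have hsmb : Smooth S b0 := ⟨by omega, Finset.Subset.refl _⟩
  set n := P.natDegree with hn
  let I : Type := Σ j : Fin (n + 1), (Fin (j : ℕ) → ι)
  refine ⟨Fintype.card I, ?_⟩
  intro L hL n0 nn lam e h Y h0 h1 h2 he hh hh2 hY ε hε
  obtain ⟨ρ, hρdef⟩ : ∃ ρ : ℕ → ℕ, ∀ t, ρ t = b0 ^ n0 t := ⟨_, fun _ => rfl⟩
  obtain ⟨r, hrdef⟩ : ∃ r : ℕ → ι → ℕ, ∀ t i, r t i = b0 ^ nn t i := ⟨_, fun _ _ => rfl⟩
  obtain ⟨α, hαdef⟩ : ∃ α : ℕ → ℕ, ∀ t, α t = b0 ^ (n0 t / q) := ⟨_, fun _ => rfl⟩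
  obtain ⟨δ, hδdef⟩ : ∃ δ : ℕ → ℕ, ∀ t, δ t = b0 ^ (n0 t % q) := ⟨_, fun _ => rfl⟩
  simp only [← hρdef, ← hrdef] at h0 h1 hY
  have hρ : ∀ t, Smooth S (ρ t) := fun t => by rw [hρdef]; exact smooth_pow hsmb _
  have hr : ∀ t i, Smooth S (r t i) := fun t i => by rw [hrdef]; exact smooth_pow hsmb _
  have hα : ∀ t, Smooth S (α t) := fun t => by rw [hαdef]; exact smooth_pow hsmb _
  have hαδ : ∀ t, ρ t = δ t * α t ^ q := fun t => by
    rw [hρdef, hαdef, hδdef, ← pow_mul, ← pow_add, mul_comm, Nat.mod_add_div]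
  have hδB : ∀ t, δ t ≤ b0 ^ q := fun t => by
    rw [hδdef]; exact Nat.pow_le_pow_right (by omega) (Nat.mod_lt _ (by omega)).le
  have hδ1 : ∀ t, 1 ≤ δ t := fun t => by rw [hδdef]; exact Nat.one_le_pow _ _ (by omega)
  have hαρ : ∀ t, α t ≤ ρ t := fun t => by
    rw [hαdef, hρdef]; exact Nat.pow_le_pow_right (by omega) (Nat.div_le_self _ _)
  have hL0 : ∀ᶠ t in atTop, 0 ≤ L t := hL.eventually_ge_atTop 0
  -- basic positivity
  have hρ1 : ∀ t, (1 : ℝ) ≤ ρ t := fun t => by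
    have : 1 ≤ ρ t := Nat.one_le_iff_ne_zero.2 (hρ t).1
    exact_mod_cast this
  have he1 : ∀ t, (1 : ℝ) ≤ e t := fun t => by exact_mod_cast (he t).1
  have hh1 : ∀ t, (1 : ℝ) ≤ h t := fun t => by exact_mod_cast hh t
  have hα1 : ∀ t, (1 : ℝ) ≤ α t := fun t => by
    have : 1 ≤ α t := Nat.one_le_iff_ne_zero.2 (hα t).1
    exact_mod_cast this
  -- subexponential sequences
  have heS : Sub L fun t => (e t : ℝ) := by
    refine (Sub.const hL (H : ℝ)).mono (Eventually.of_forall fun t => ?_)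
    rw [abs_of_nonneg (by positivity), abs_of_nonneg (by positivity)]
    exact_mod_cast (he t).2
  have hE1S : Sub L fun t => (e t : ℝ) * (h t : ℝ) ^ q := heS.mul (hh2.pow hL q)
  have hE11 : ∀ t, (1 : ℝ) ≤ (e t : ℝ) * (h t : ℝ) ^ q := fun t =>
    one_le_mul_of_one_le_of_one_le (he1 t) (one_le_pow₀ (hh1 t))
  -- the coefficients and terms
  let R : ℕ → I → ℕ := fun t σ => α t * ρ t ^ (n - (σ.1 : ℕ)) * ∏ i, r t (σ.2 i)
  let Lm : ℕ → I → ℤ := fun t σ =>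
    (h t : ℤ) * ((e t : ℤ) * (h t : ℤ) ^ q) ^ (n - (σ.1 : ℕ)) * ∏ i, lam t (σ.2 i)
  have hLmS : ∀ σ : I, Sub L fun t => (Lm t σ : ℝ) := by
    intro σ
    have h3 : Sub L fun t => ((h t : ℝ) * ((e t : ℝ) * (h t : ℝ) ^ q) ^ (n - (σ.1 : ℕ))) *
        ∏ i, (lam t (σ.2 i) : ℝ) :=
      (hh2.mul (hE1S.pow hL _)).mul (Sub.prod hL Finset.univ fun i _ => h2 (σ.2 i))
    intro ε hε
    filter_upwards [h3 ε hε] with t ht
    simp only [Lm]
    push_cast
    exact ht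
  have hLmS' : ∀ ε : ℝ, 0 < ε → ∀ᶠ t in atTop, ∀ σ : I, |(Lm t σ : ℝ)| ≤ Real.exp (ε * L t) :=
    fun ε hε => Filter.eventually_all.2 fun σ => hLmS σ ε hε
  have hRsm : ∀ t σ, Smooth S (R t σ) := fun t σ =>
    smooth_mul (smooth_mul (hα t) (smooth_pow (hρ t) _)) (smooth_prod _ fun i _ => hr t _)
  have hRC : ∀ᶠ t in atTop, ∀ σ : I, (R t σ : ℝ) ≤ Real.exp ((n + 1) * C * L t) := by
    filter_upwards [h0, h1, hL0] with t h3 h4 h5 σ
    have h6 : ∀ i, (r t i : ℝ) ≤ ρ t := by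
      intro i
      refine (h4 i).trans ?_
      have h7 : Real.exp (-(η * L t)) ≤ 1 := by
        rw [Real.exp_le_one_iff]
        have : 0 ≤ η * L t := by positivity
        linarith
      have h8 : (0 : ℝ) ≤ ρ t := by positivity
      nlinarith
    have h7 : (R t σ : ℝ) ≤ (ρ t : ℝ) ^ (n + 1) := by
      have hσ := σ.1.2
      calc (R t σ : ℝ) = (α t : ℝ) * (ρ t : ℝ) ^ (n - (σ.1 : ℕ)) * ∏ i, (r t (σ.2 i) : ℝ) := by
            simp only [R]; push_cast; rfl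
        _ ≤ (ρ t : ℝ) * (ρ t : ℝ) ^ (n - (σ.1 : ℕ)) * ∏ _i : Fin (σ.1 : ℕ), (ρ t : ℝ) := by
            have h8 : (α t : ℝ) ≤ ρ t := by exact_mod_cast hαρ t
            have h9 : ∏ i, (r t (σ.2 i) : ℝ) ≤ ∏ _i : Fin (σ.1 : ℕ), (ρ t : ℝ) :=
              Finset.prod_le_prod (fun i _ => by positivity) fun i _ => h6 _
            have h10 : 0 ≤ ∏ i, (r t (σ.2 i) : ℝ) := Finset.prod_nonneg fun i _ => by positivity
            exact mul_le_mul (mul_le_mul_of_nonneg_right h8 (by positivity)) h9 h10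
              (by positivity)
        _ = (ρ t : ℝ) ^ (n + 1) := by
            rw [Finset.prod_const, Finset.card_univ, Fintype.card_fin, ← pow_succ', ← pow_add]
            congr 1; omega
    refine h7.trans ?_
    calc (ρ t : ℝ) ^ (n + 1) ≤ Real.exp (C * L t) ^ (n + 1) :=
          pow_le_pow_left₀ (by positivity) h3 _
      _ = Real.exp ((n + 1) * C * L t) := by
          rw [← Real.exp_nat_mul]; congr 1; push_cast; ring
  -- the main estimate
  have hmain : ∀ᶠ t in atTop, ∀ θ : ℝ, 0 < θ → θ ^ q = (e t : ℝ) * δ t →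
      |∑ σ : I, θ * (P.coeff (σ.1 : ℕ) : ℝ) * ((R t σ : ℝ) * Lm t σ) -
        ((ρ t ^ n : ℕ) : ℝ) * ((((e t : ℤ) * (h t : ℤ) ^ q) ^ n * (Y t : ℤ) : ℤ) : ℝ)| ≤
        ((ρ t ^ n : ℕ) : ℝ) * Real.exp (-(κ / 2 * L t)) := by
    have hl : ∀ᶠ t in atTop, ∀ i, |(lam t i : ℝ)| ≤ Real.exp (η / 4 * L t) :=
      Filter.eventually_all.2 fun i => h2 i (η / 4) (by positivity)
    filter_upwards [hL0, h0, h1, hl, hY, ev_const_le hL (Fintype.card ι : ℝ) (η / 4)
      (by positivity), ev_const_le hL B (η / 2) (by positivity), ev_const_le hL B 1 one_pos,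
      ev_const_le hL 2 κ hκ, hE1S 1 one_pos,
      ((hE1S.pow hL n).mul (Sub.const hL (2 ^ q))) (κ / 2) (by positivity)] with
      t hLt hρC hrρ hlam hYt hcard hBe hBe1 h2e hE1e hE1n θ hθ hθq
    obtain ⟨G, hG1, hGq, hGY⟩ := hYt
    set E1 : ℝ := (e t : ℝ) * (h t : ℝ) ^ q with hE1
    have hE1pos : 1 ≤ E1 := hE11 t
    set W : ℝ := ∑ i, (r t i : ℝ) * lam t i with hW
    have hρpos : 0 < (ρ t : ℝ) := by have := hρ1 t; linarith
    have hE0pos : 0 < E1 * ρ t := by positivity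
    have hWb : |W| ≤ ρ t * Real.exp (-(η / 2 * L t)) := by
      calc |W| ≤ ∑ i, |(r t i : ℝ) * lam t i| := Finset.abs_sum_le_sum_abs _ _
        _ ≤ ∑ _i : ι, ρ t * Real.exp (-(3 * η / 4 * L t)) := by
            apply Finset.sum_le_sum
            intro i _
            rw [abs_mul, abs_of_nonneg (by positivity : (0 : ℝ) ≤ r t i)]
            calc (r t i : ℝ) * |(lam t i : ℝ)| ≤
                (ρ t * Real.exp (-(η * L t))) * Real.exp (η / 4 * L t) :=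
                  mul_le_mul (hrρ i) (hlam i) (abs_nonneg _) (by positivity)
              _ = ρ t * Real.exp (-(3 * η / 4 * L t)) := by
                  rw [mul_assoc, ← Real.exp_add]; congr 2; ring
        _ = (Fintype.card ι : ℝ) * (ρ t * Real.exp (-(3 * η / 4 * L t))) := by
            rw [Finset.sum_const, Finset.card_univ, nsmul_eq_mul]
        _ ≤ Real.exp (η / 4 * L t) * (ρ t * Real.exp (-(3 * η / 4 * L t))) :=
            mul_le_mul_of_nonneg_right hcard (by positivity)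
        _ = ρ t * (Real.exp (η / 4 * L t) * Real.exp (-(3 * η / 4 * L t))) := by ring
        _ = ρ t * Real.exp (-(η / 2 * L t)) := by
            rw [← Real.exp_add]; congr 2; ring
    set v : ℝ := W / (E1 * ρ t) with hv
    have hvb : |v| ≤ Real.exp (-(η / 2 * L t)) := by
      rw [hv, abs_div, abs_of_pos hE0pos, div_le_iff₀ hE0pos]
      refine hWb.trans ?_
      have h3 : (ρ t : ℝ) ≤ E1 * ρ t := by nlinarith
      have h4 := mul_le_mul_of_nonneg_right h3 (Real.exp_pos (-(η / 2 * L t))).le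
      linarith
    have hvB : |v| ≤ 1 / B := by
      refine hvb.trans ?_
      rw [Real.exp_neg, one_div]
      exact inv_anti₀ hB hBe
    obtain ⟨hPv, hPv2⟩ := hPB v hvB
    have hx : Real.exp (-(κ * L t)) ≤ 1 / 2 := by
      rw [Real.exp_neg, one_div]
      exact inv_anti₀ (by norm_num) h2e
    have hEB : E1 * ρ t * (B * |v| ^ J) ≤ Real.exp (-(κ * L t)) := by
      have h3 : |v| ^ J ≤ Real.exp (-(η / 2 * J * L t)) := by
        calc |v| ^ J ≤ Real.exp (-(η / 2 * L t)) ^ J := pow_le_pow_left₀ (abs_nonneg _) hvb _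
          _ = Real.exp (-(η / 2 * J * L t)) := by
              rw [← Real.exp_nat_mul]; congr 1; ring
      have h4 : E1 ≤ Real.exp (1 * L t) := (le_abs_self _).trans hE1e
      calc E1 * ρ t * (B * |v| ^ J) ≤ (Real.exp (1 * L t) * Real.exp (C * L t)) *
            (Real.exp (1 * L t) * Real.exp (-(η / 2 * J * L t))) :=
            mul_le_mul (mul_le_mul h4 hρC (by positivity) (by positivity))
              (mul_le_mul hBe1 h3 (by positivity) (by positivity)) (by positivity)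
              (by positivity)
        _ = Real.exp ((C + 2 - η / 2 * J) * L t) := by
            rw [← Real.exp_add, ← Real.exp_add, ← Real.exp_add]; congr 1; ring
        _ ≤ Real.exp (-(κ * L t)) := by
            apply Real.exp_le_exp.2
            nlinarith
    have hZ0 : 0 < θ * h t * α t := by
      have h3 := hh1 t
      have h4 := hα1 t
      positivity
    have hρeq : (ρ t : ℝ) = δ t * (α t : ℝ) ^ q := by exact_mod_cast hαδ t
    have hZ0q : (θ * h t * α t) ^ q = E1 * ρ t := by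
      rw [mul_pow, mul_pow, hθq, hE1, hρeq]
      ring
    have hest := est (J := J) hq hE0pos hv hZ0 hZ0q hPv hPv2 hG1
      (by rw [hGq]) (by positivity : (0 : ℝ) ≤ Y t) hGY (Real.exp_pos _).le hx hEB
    have hexp := expand P θ (α t : ℝ) (h t : ℝ) E1 (ρ t : ℝ) (fun i => (r t i : ℝ))
      (fun i => (lam t i : ℝ)) hE0pos.ne'
    have h5 : ∑ σ : I, θ * (P.coeff (σ.1 : ℕ) : ℝ) * ((R t σ : ℝ) * Lm t σ) =
        (E1 * ρ t) ^ n * ((θ * h t * α t) * Polynomial.aeval v P) := by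
      rw [← hexp]
      apply Finset.sum_congr rfl
      intro σ _
      simp only [R, Lm]
      push_cast
      rfl
    rw [h5]
    have h6 : (E1 * ρ t) ^ n * ((θ * h t * α t) * Polynomial.aeval v P) -
        ((ρ t ^ n : ℕ) : ℝ) * ((((e t : ℤ) * (h t : ℤ) ^ q) ^ n * (Y t : ℤ) : ℤ) : ℝ) =
        -((E1 * ρ t) ^ n * ((Y t : ℝ) - (θ * h t * α t) * Polynomial.aeval v P)) := by
      push_cast
      rw [mul_pow]
      ring
    rw [h6, abs_neg, abs_mul, abs_of_pos (by positivity), mul_pow]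
    have h7 : E1 ^ n * 2 ^ q ≤ Real.exp (κ / 2 * L t) := (le_abs_self _).trans hE1n
    push_cast
    calc E1 ^ n * (ρ t : ℝ) ^ n * |(Y t : ℝ) - (θ * h t * α t) * Polynomial.aeval v P|
        ≤ E1 ^ n * (ρ t : ℝ) ^ n * (2 ^ q * Real.exp (-(κ * L t))) :=
          mul_le_mul_of_nonneg_left hest (by positivity)
      _ = (ρ t : ℝ) ^ n * ((E1 ^ n * 2 ^ q) * Real.exp (-(κ * L t))) := by ring
      _ ≤ (ρ t : ℝ) ^ n * (Real.exp (κ / 2 * L t) * Real.exp (-(κ * L t))) :=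
          mul_le_mul_of_nonneg_left (mul_le_mul_of_nonneg_right h7 (Real.exp_pos _).le)
            (by positivity)
      _ = (ρ t : ℝ) ^ n * Real.exp (-(κ / 2 * L t)) := by
          rw [← Real.exp_add]; congr 2; ring
  -- a subsequence on which the coefficients are constant
  obtain ⟨e0, δ0, hfr⟩ := freq_pair (fun t => (he t).2) hδB
  obtain ⟨ψ, hψ, hψe⟩ := Filter.extraction_of_frequently_atTop hfr
  have hψt := hψ.tendsto_atTop
  have hLψ : Tendsto (L ∘ ψ) atTop atTop := hL.comp hψt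
  have he0 : (1 : ℝ) ≤ e0 := by rw [← (hψe 0).1]; exact he1 _
  have hδ0 : (1 : ℝ) ≤ δ0 := by rw [← (hψe 0).2]; exact_mod_cast hδ1 _
  obtain ⟨θ, hθ, hθq⟩ : ∃ θ : ℝ, 0 < θ ∧ θ ^ q = (e0 : ℝ) * δ0 := by
    refine ⟨((e0 : ℝ) * δ0) ^ ((1 : ℝ) / q), Real.rpow_pos_of_pos (by positivity) _, ?_⟩
    rw [← Real.rpow_natCast, ← Real.rpow_mul (by positivity), one_div, inv_mul_cancel₀,
      Real.rpow_one]
    have : q ≠ 0 := by omega
    exact_mod_cast this
  have hθalg : IsAlgebraic ℚ θ := by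
    apply IsAlgebraic.of_pow (n := q) (by omega)
    rw [hθq]
    exact_mod_cast isAlgebraic_nat (R := ℚ) (A := ℝ) (e0 * δ0)
  obtain ⟨D, b, hD, hfr2⟩ := seqLem (ι := I) (fun σ => θ * (P.coeff (σ.1 : ℕ) : ℝ))
    (fun σ => hθalg.mul (isAlgebraic_algebraMap (R := ℚ) (A := ℝ) (P.coeff (σ.1 : ℕ)))) S hS
    ((n + 1) * C) (κ / 2) (by positivity) (by positivity) (L ∘ ψ) hLψ
    (fun t => ρ (ψ t) ^ n) (fun t σ => R (ψ t) σ) (fun t σ => Lm (ψ t) σ)
    (fun t => ((e (ψ t) : ℤ) * (h (ψ t) : ℤ) ^ q) ^ n * (Y (ψ t) : ℤ))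
    (fun t => smooth_pow (hρ _) _) (fun t σ => hRsm _ σ)
    (by
      filter_upwards [hψt.eventually h0, hψt.eventually hL0] with t h3 h4
      push_cast
      calc (ρ (ψ t) : ℝ) ^ n ≤ Real.exp (C * L (ψ t)) ^ n := pow_le_pow_left₀ (by positivity) h3 _
        _ = Real.exp (n * C * L (ψ t)) := by rw [← Real.exp_nat_mul]; congr 1; ring
        _ ≤ Real.exp ((n + 1) * C * (L ∘ ψ) t) := by
            apply Real.exp_le_exp.2
            have h5 : 0 ≤ C * L (ψ t) := mul_nonneg hC h4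
            simp only [Function.comp]
            nlinarith)
    (hψt.eventually hRC)
    (fun ε hε => hψt.eventually (hLmS' ε hε))
    (by
      filter_upwards [hψt.eventually hmain] with t h3
      have h4 := h3 θ hθ (by rw [hθq, (hψe t).1, (hψe t).2])
      exact h4)
  have hfr3 : ∃ᶠ t in atTop, D * (((ρ t ^ n : ℕ) : ℤ) *
      (((e t : ℤ) * (h t : ℤ) ^ q) ^ n * (Y t : ℤ))) =
      ∑ σ : I, b σ * ((R t σ : ℤ) * Lm t σ) := hψt.frequently hfr2
  -- bounds for the coefficients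
  have hES : Sub L fun t => (D : ℝ) * ((e t : ℝ) * (h t : ℝ) ^ q) ^ n :=
    (Sub.const hL (D : ℝ)).mul (hE1S.pow hL n)
  have hcS : ∀ᶠ t in atTop, ∀ σ : I, |(b σ : ℝ) * (Lm t σ : ℝ)| ≤ Real.exp (ε * L t) :=
    Filter.eventually_all.2 fun σ => ((Sub.const hL (b σ : ℝ)).mul (hLmS σ)) ε hε
  refine (hfr3.and_eventually (hcS.and (hES ε hε))).mono ?_
  rintro t ⟨hrel, hc, hE⟩
  let f : Fin (Fintype.card I) ≃ I := (Fintype.equivFin I).symm
  have hRne : ∀ σ, ((R t σ : ℕ) : ℚ) ≠ 0 := fun σ => by exact_mod_cast (hRsm t σ).1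
  have hρne : ((ρ t ^ n : ℕ) : ℚ) ≠ 0 := by exact_mod_cast (smooth_pow (hρ t) n).1
  have hb0Q : (b0 : ℚ) ≠ 0 := by
    have : b0 ≠ 0 := by omega
    exact_mod_cast this
  refine ⟨D * ((e t : ℤ) * (h t : ℤ) ^ q) ^ n,
    fun j => ((n0 t / q : ℕ) : ℤ) + ((n0 t * (n - ((f j).1 : ℕ)) : ℕ) : ℤ) +
      ((∑ i, nn t ((f j).2 i) : ℕ) : ℤ) - ((n0 t * n : ℕ) : ℤ),
    fun j => b (f j) * Lm t (f j), ?_, ?_, ?_, ?_⟩
  · apply mul_ne_zero hD
    apply pow_ne_zero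
    have h3 : e t ≠ 0 := by have := (he t).1; omega
    have h4 : h t ≠ 0 := by have := hh t; omega
    have h5 : (e t : ℤ) ≠ 0 := by exact_mod_cast h3
    have h6 : (h t : ℤ) ≠ 0 := by exact_mod_cast h4
    exact mul_ne_zero h5 (pow_ne_zero _ h6)
  · push_cast
    exact hE
  · intro j
    push_cast
    exact hc (f j)
  · have hRpow : ∀ σ : I, ((R t σ : ℕ) : ℚ) = (b0 : ℚ) ^ (n0 t / q) *
        (b0 : ℚ) ^ (n0 t * (n - (σ.1 : ℕ))) * (b0 : ℚ) ^ (∑ i, nn t (σ.2 i)) := by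
      intro σ
      simp only [R]
      rw [hαdef, hρdef]
      simp only [hrdef]
      rw [Finset.prod_pow_eq_pow_sum]
      push_cast
      rw [← pow_mul]
    have hw : ∀ σ : I, (b0 : ℚ) ^ (((n0 t / q : ℕ) : ℤ) + ((n0 t * (n - (σ.1 : ℕ)) : ℕ) : ℤ) +
        ((∑ i, nn t (σ.2 i) : ℕ) : ℤ) - ((n0 t * n : ℕ) : ℤ)) =
        ((R t σ : ℕ) : ℚ) / ((ρ t ^ n : ℕ) : ℚ) := by
      intro σ
      rw [zpow_sub₀ hb0Q, zpow_add₀ hb0Q, zpow_add₀ hb0Q, zpow_natCast, zpow_natCast,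
        zpow_natCast, zpow_natCast, hRpow, hρdef]
      congr 1
      push_cast
      rw [← pow_mul]
    have h3 : ∑ j, ((b (f j) * Lm t (f j) : ℤ) : ℚ) *
        (b0 : ℚ) ^ (((n0 t / q : ℕ) : ℤ) + ((n0 t * (n - ((f j).1 : ℕ)) : ℕ) : ℤ) +
        ((∑ i, nn t ((f j).2 i) : ℕ) : ℤ) - ((n0 t * n : ℕ) : ℤ)) =
        (∑ σ : I, (b σ : ℚ) * ((R t σ : ℚ) * Lm t σ)) / ((ρ t ^ n : ℕ) : ℚ) := by
      rw [Finset.sum_div, ← Equiv.sum_comp f]
      apply Finset.sum_congr rfl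
      intro j _
      rw [hw (f j)]
      push_cast
      ring
    rw [h3, eq_div_iff hρne]
    have h4 : ((D * (((ρ t ^ n : ℕ) : ℤ) * (((e t : ℤ) * (h t : ℤ) ^ q) ^ n * (Y t : ℤ))) : ℤ) : ℚ)
        = ((∑ σ : I, b σ * ((R t σ : ℤ) * Lm t σ) : ℤ) : ℚ) := by rw [hrel]
    push_cast at h4 ⊢
    rw [← h4]
    ring

end Pool.Agent.K1H95.HL
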