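import Mathlib
import Pool.Agent.TH419.HX.Setup
import Pool.Agent.K1H95.HL.NearB

/-!
# Integers close to a root of a power of a sparse integer
-/

set_option autoImplicit false

open Finset Filter Topology

namespace Pool.Agent.K1H95.HL

open Pool.Agent.TH419.WI Pool.Agent.TH419.HX

/-- the expansion of a power of a sparse sum, with the first term separated -/
theorem pow_split {k : ℕ} (D : ℕ) (b : ℝ) (a : Fin (k + 1) → ℤ) (n : Fin (k + 1) → ℕ) :
    (∑ i, (a i : ℝ) * b ^ n i) ^ D = (a 0 : ℝ) ^ D * b ^ (D * n 0) +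
      ∑ g : Fin D → Fin (k + 1), b ^ (if g = 0 then 0 else ∑ i, n (g i)) *
        (((if g = 0 then 0 else ∏ i, a (g i)) : ℤ) : ℝ) := by
  classical
  rw [Fintype.sum_pow]
  have h1 : ∀ g : Fin D → Fin (k + 1), ∏ i, ((a (g i) : ℝ) * b ^ n (g i)) =
      (if g = 0 then (a 0 : ℝ) ^ D * b ^ (D * n 0) else 0) +
      b ^ (if g = 0 then 0 else ∑ i, n (g i)) *
        (((if g = 0 then 0 else ∏ i, a (g i)) : ℤ) : ℝ) := by
    intro g
    split_ifs with hg
    · rw [hg]
      simp only [Pi.zero_apply, Finset.prod_const, Finset.card_univ, Fintype.card_fin]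
      rw [mul_pow, ← pow_mul, mul_comm D (n 0)]
      simp
    · rw [Finset.prod_mul_distrib, Finset.prod_pow_eq_pow_sum]
      push_cast
      ring
  simp only [h1]
  rw [Finset.sum_add_distrib]
  congr 1
  simp

theorem core (b : ℕ) (hb : 2 ≤ b) (k H0 Q0 D q : ℕ) (hD : 1 ≤ D) (hq : 1 ≤ q) (η κ C1 : ℝ)
    (hη : 0 < η) (hη1 : η ≤ 1) (hκ : 0 < κ) (hC1 : 0 < C1) :
    ∃ N : ℕ, ∀ (L : ℕ → ℝ) (_ : Tendsto L atTop atTop) (a : ℕ → Fin (k + 1) → ℤ)
      (n : ℕ → Fin (k + 1) → ℕ) (Y q0 : ℕ → ℕ), (∀ t, 1 ≤ q0 t ∧ q0 t ≤ Q0) →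
      (∀ t i, |a t i| ≤ H0) → (∀ᶠ t in atTop, 0 < (a t 0) ^ D) →
      (∀ t i, i ≠ 0 → (n t i : ℝ) ≤ (1 - η) * n t 0) →
      (∀ᶠ t in atTop, (n t 0 : ℝ) * Real.log b ≤ C1 * L t) →
      (∀ᶠ t in atTop, L t ≤ C1 * (n t 0 * Real.log b)) →
      (∀ᶠ t in atTop, ∃ G : ℝ, 1 ≤ G ∧
        G ^ q = q0 t * (∑ i, (a t i : ℝ) * (b : ℝ) ^ n t i) ^ D ∧
        |(Y t : ℝ) ^ q - G ^ q| ≤ G ^ (q - 1) * Real.exp (-(κ * L t))) →
      ∀ ε : ℝ, 0 < ε → ∃ᶠ t in atTop, ∃ (E : ℤ) (kk : Fin N → ℤ) (c : Fin N → ℤ),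
        E ≠ 0 ∧ |(E : ℝ)| ≤ Real.exp (ε * L t) ∧
        (∀ j, |(c j : ℝ)| ≤ Real.exp (ε * L t)) ∧
        (E : ℚ) * Y t = ∑ j, (c j : ℚ) * (b : ℚ) ^ kk j := by
  classical
  obtain ⟨N, hN⟩ := nearRootB (ι := Fin D → Fin (k + 1)) b hb q (Q0 * max 1 (H0 ^ D)) hq (D * C1)
    (η / C1) κ (by positivity) (by positivity) hκ
  refine ⟨N, ?_⟩
  intro L hL a n Y q0 hq0 ha ha0 hgap hn1 hn2 hG
  have hb1 : (1 : ℝ) < b := by
    have : 1 < b := by omega
    exact_mod_cast this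
  have hlb : 0 < Real.log b := Real.log_pos hb1
  have hbpow : ∀ m : ℕ, ((b ^ m : ℕ) : ℝ) = Real.exp (m * Real.log b) := by
    intro m
    push_cast
    rw [← Real.rpow_natCast, Real.rpow_def_of_pos (by linarith)]
    congr 1
    ring
  have hle : ∀ t i, (n t i : ℝ) ≤ n t 0 := by
    intro t i
    by_cases hi : i = 0
    · rw [hi]
    · have h1 := hgap t i hi
      have h2 : (0 : ℝ) ≤ n t 0 := by positivity
      nlinarith
  refine hN L hL (fun t => D * n t 0) (fun t g => if g = 0 then 0 else ∑ i, n t (g i))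
    (fun t g => (q0 t : ℤ) * if g = 0 then 0 else ∏ i, a t (g i))
    (fun t => q0 t * max 1 ((a t 0) ^ D).toNat)
    (fun _ => 1) Y ?_ ?_ ?_ ?_ ?_ ?_ ?_
  · filter_upwards [hn1] with t h1
    rw [hbpow]
    apply Real.exp_le_exp.2
    push_cast
    calc (D : ℝ) * n t 0 * Real.log b = D * (n t 0 * Real.log b) := by ring
      _ ≤ D * (C1 * L t) := mul_le_mul_of_nonneg_left h1 (by positivity)
      _ = _ := by ring
  · filter_upwards [hn2] with t h1 g
    rw [hbpow, hbpow, ← Real.exp_add]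
    apply Real.exp_le_exp.2
    have h2 : (((if g = 0 then 0 else ∑ i, n t (g i)) : ℕ) : ℝ) ≤ (D - η) * n t 0 := by
      have hn0 : (0 : ℝ) ≤ n t 0 := by positivity
      have hDR : (1 : ℝ) ≤ D := by exact_mod_cast hD
      split_ifs with hg
      · push_cast
        apply mul_nonneg _ hn0
        linarith
      · obtain ⟨i0, hi0⟩ : ∃ i0, g i0 ≠ 0 := by
          by_contra hcon
          push Not at hcon
          exact hg (funext hcon)
        push_cast
        rw [← Finset.sum_erase_add _ _ (Finset.mem_univ i0)]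
        have h3 : ∑ i ∈ Finset.univ.erase i0, (n t (g i) : ℝ) ≤ (D - 1) * n t 0 := by
          calc ∑ i ∈ Finset.univ.erase i0, (n t (g i) : ℝ)
              ≤ ∑ _i ∈ Finset.univ.erase i0, (n t 0 : ℝ) :=
                Finset.sum_le_sum fun i _ => hle t _
            _ = (D - 1) * n t 0 := by
                rw [Finset.sum_const, Finset.card_erase_of_mem (Finset.mem_univ _),
                  Finset.card_univ, Fintype.card_fin, nsmul_eq_mul]
                push_cast [Nat.cast_sub hD]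
                ring
        have h4 := hgap t (g i0) hi0
        linarith
    have h3 : η / C1 * L t ≤ η * (n t 0 * Real.log b) := by
      calc η / C1 * L t ≤ η / C1 * (C1 * (n t 0 * Real.log b)) :=
            mul_le_mul_of_nonneg_left h1 (by positivity)
        _ = _ := by field_simp
    have h4 := mul_le_mul_of_nonneg_right h2 hlb.le
    push_cast at h4 ⊢
    linarith
  · intro g
    refine (Sub.const hL ((Q0 : ℝ) * (H0 : ℝ) ^ D)).mono (Eventually.of_forall fun t => ?_)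
    rw [abs_of_nonneg (by positivity : (0 : ℝ) ≤ (Q0 : ℝ) * (H0 : ℝ) ^ D)]
    push_cast
    rw [abs_mul, abs_of_nonneg (by positivity : (0 : ℝ) ≤ (q0 t : ℝ))]
    refine mul_le_mul (by exact_mod_cast (hq0 t).2) ?_ (abs_nonneg _) (by positivity)
    split_ifs with hg
    · simp
    · push_cast
      rw [Finset.abs_prod]
      calc ∏ i, |(a t (g i) : ℝ)| ≤ ∏ _i : Fin D, (H0 : ℝ) :=
            Finset.prod_le_prod (fun i _ => abs_nonneg _) fun i _ => by exact_mod_cast ha t (g i)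
        _ = (H0 : ℝ) ^ D := by simp
  · intro t
    refine ⟨Nat.mul_pos (hq0 t).1 (lt_of_lt_of_le one_pos (le_max_left _ _)), Nat.mul_le_mul (hq0 t).2
      (max_le_max le_rfl ?_)⟩
    have h1 : |(a t 0) ^ D| ≤ (H0 : ℤ) ^ D := by
      rw [abs_pow]; exact pow_le_pow_left₀ (abs_nonneg _) (ha t 0) D
    have h2 : (a t 0) ^ D ≤ ((H0 ^ D : ℕ) : ℤ) := by
      push_cast; exact (le_abs_self _).trans h1
    omega
  · intro t; exact le_rfl
  · simpa using Sub.const hL 1
  · filter_upwards [ha0, hG] with t h1 h2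
    obtain ⟨G, hG1, hGq, hGY⟩ := h2
    refine ⟨G, hG1, ?_, hGY⟩
    rw [hGq, pow_split]
    have h3 : ((max 1 ((a t 0) ^ D).toNat : ℕ) : ℝ) = (a t 0 : ℝ) ^ D := by
      have h4 : ((max 1 ((a t 0) ^ D).toNat : ℕ) : ℤ) = (a t 0) ^ D := by omega
      exact_mod_cast h4
    rw [Nat.cast_mul, h3, mul_add, Finset.mul_sum]
    push_cast
    simp only [one_pow, mul_one]
    congr 1
    · ring
    · exact Finset.sum_congr rfl fun g _ => by ring

end Pool.Agent.K1H95.HL
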