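import Mathlib
import Pool.Agent.K1H95.HL.Block

/-!
# Sparse points: reduction to polynomials at one scale
-/

set_option autoImplicit false

open Polynomial

namespace Pool.Agent.K1H95.HL

/-- Dirichlet's theorem on simultaneous approximation -/
theorem dirichlet {N : ℕ} (q : ℕ) (hq : 1 ≤ q) (α : Fin N → ℝ) :
    ∃ j : ℕ, 1 ≤ j ∧ j ≤ q ^ N ∧ ∃ k : Fin N → ℤ, ∀ i, |(j : ℝ) * α i - k i| ≤ 1 / q := by
  have hqR : (0:ℝ) < q := by exact_mod_cast hq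
  let F : Fin (q ^ N + 1) → (Fin N → Fin q) := fun k i =>
    ⟨⌊Int.fract ((k : ℕ) * α i) * q⌋₊, by
      rw [Nat.floor_lt (mul_nonneg (Int.fract_nonneg _) hqR.le)]
      have := Int.fract_lt_one ((k : ℕ) * α i)
      nlinarith⟩
  have hcard : Fintype.card (Fin N → Fin q) < Fintype.card (Fin (q ^ N + 1)) := by
    simp
  obtain ⟨k, k', hne, hF⟩ := Fintype.exists_ne_map_eq_of_card_lt F hcard
  wlog hlt : (k : ℕ) < (k' : ℕ) generalizing k k'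
  · refine this k' k hne.symm hF.symm ?_
    have h1 : (k : ℕ) ≠ (k' : ℕ) := fun h => hne (Fin.ext h)
    omega
  refine ⟨(k' : ℕ) - (k : ℕ), by omega, by have := k'.2; omega,
    fun i => ⌊((k' : ℕ) : ℝ) * α i⌋ - ⌊((k : ℕ) : ℝ) * α i⌋, ?_⟩
  intro i
  have h1 : F k i = F k' i := by rw [hF]
  have h2 : ⌊Int.fract (((k : ℕ) : ℝ) * α i) * q⌋₊ = ⌊Int.fract (((k' : ℕ) : ℝ) * α i) * q⌋₊ :=
    congrArg Fin.val h1
  set a := Int.fract (((k : ℕ) : ℝ) * α i) with ha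
  set b := Int.fract (((k' : ℕ) : ℝ) * α i) with hb
  have ha0 : 0 ≤ a * q := mul_nonneg (Int.fract_nonneg _) hqR.le
  have hb0 : 0 ≤ b * q := mul_nonneg (Int.fract_nonneg _) hqR.le
  have e1 := Nat.floor_le ha0
  have e2 := Nat.lt_floor_add_one (a * q)
  have e3 := Nat.floor_le hb0
  have e4 := Nat.lt_floor_add_one (b * q)
  rw [h2] at e1 e2
  have hab : |(b - a) * q| < 1 := by
    rw [abs_lt]; constructor <;> nlinarith
  have hab' : |b - a| ≤ 1 / q := by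
    rw [abs_mul, abs_of_pos hqR] at hab
    rw [le_div_iff₀ hqR]
    exact hab.le
  have e5 : b = ((k' : ℕ) : ℝ) * α i - ⌊((k' : ℕ) : ℝ) * α i⌋ := rfl
  have e6 : a = ((k : ℕ) : ℝ) * α i - ⌊((k : ℕ) : ℝ) * α i⌋ := rfl
  have e7 : (((k' : ℕ) - (k : ℕ) : ℕ) : ℝ) = ((k' : ℕ) : ℝ) - ((k : ℕ) : ℝ) := by
    rw [Nat.cast_sub hlt.le]
  have : (((k' : ℕ) - (k : ℕ) : ℕ) : ℝ) * α i -
      ((⌊((k' : ℕ) : ℝ) * α i⌋ - ⌊((k : ℕ) : ℝ) * α i⌋ : ℤ) : ℝ) = b - a := by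
    rw [e7, e5, e6]; push_cast; ring
  rw [this]; exact hab'

/-- Dirichlet's theorem for the exponents -/
theorem dirichletM (r P N : ℕ) (hP : 1 ≤ P) (hN : 1 ≤ N) (s : Finset ℤ) (hs : s.card ≤ r) :
    ∃ Q : ℕ, 1 ≤ Q ∧ Q ≤ P ^ r ∧ ∃ k : ℤ → ℤ, ∀ n ∈ s, |Q * n - k n * N| * P ≤ N := by
  classical
  let e := s.equivFin
  obtain ⟨Q, hQ1, hQ2, k, hk⟩ := dirichlet P hP (fun i : Fin s.card => ((e.symm i : ℤ) : ℝ) / N)
  refine ⟨Q, hQ1, hQ2.trans (Nat.pow_le_pow_right hP hs),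
    fun n => if h : n ∈ s then k (e ⟨n, h⟩) else 0, ?_⟩
  intro n hn
  beta_reduce
  rw [dif_pos hn]
  have h1 := hk (e ⟨n, hn⟩)
  rw [Equiv.symm_apply_apply] at h1
  have hN' : (0 : ℝ) < N := by exact_mod_cast hN
  have hP' : (0 : ℝ) < P := by exact_mod_cast hP
  have h2 : |(Q : ℝ) * n - k (e ⟨n, hn⟩) * N| * P ≤ N := by
    have e1 : (Q : ℝ) * n - k (e ⟨n, hn⟩) * N = N * ((Q : ℝ) * ((n : ℝ) / N) - k (e ⟨n, hn⟩)) := by
      field_simp
    rw [e1, abs_mul, abs_of_pos hN']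
    calc (N : ℝ) * |(Q : ℝ) * ((n : ℝ) / N) - k (e ⟨n, hn⟩)| * P ≤ N * (1 / P) * P := by
          refine mul_le_mul_of_nonneg_right (mul_le_mul_of_nonneg_left h1 hN'.le) hP'.le
      _ = N := by field_simp
  exact_mod_cast h2

/-- the exponent arithmetic -/
theorem star (J J1 P r Q N a h' : ℕ) (hP : P = 4 * J1 * (9 + 4 * J)) (hQ : 1 ≤ Q)
    (hQr : Q ≤ P ^ r) (hh' : 4 * J1 * J * P ^ r ≤ h') (ha : 1 ≤ a) (hJ1 : 1 ≤ J1)
    (hN : 4 * (P ^ r * J1 * (6 + 3 * J + (9 + 4 * J) * (P ^ r + 2))) * a ≤ N) :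
    (6 + 3 * J) * a + 9 * (N / (P * Q) + Q + 2) + J * (N / h' + 4 * (N / (P * Q) + Q + 2)) ≤
      N / Q / J1 := by
  rw [Nat.div_div_eq_div_mul, Nat.le_div_iff_mul_le (by positivity)]
  have h1 : P * Q * (N / (P * Q)) ≤ N := Nat.mul_div_le _ _
  have h2 : h' * (N / h') ≤ N := Nat.mul_div_le _ _
  set u := N / (P * Q) with hu
  set w := N / h' with hw
  set R := P ^ r with hR
  have h3 : 4 * J1 * J * Q * w ≤ N := by
    calc 4 * J1 * J * Q * w ≤ 4 * J1 * J * R * w := by gcongr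
      _ ≤ h' * w := by gcongr
      _ ≤ N := h2
  have h4 : 4 * J1 * (9 + 4 * J) * Q * u ≤ N := by
    rw [hP] at h1; exact h1
  have h5 : 4 * (Q * J1 * (((6 + 3 * J) * a) + (9 + 4 * J) * (Q + 2))) ≤ N := by
    refine le_trans ?_ hN
    have h6 : (6 + 3 * J) * a + (9 + 4 * J) * (Q + 2) ≤
        (6 + 3 * J + (9 + 4 * J) * (R + 2)) * a := by
      have h7 : (9 + 4 * J) * (Q + 2) ≤ (9 + 4 * J) * (R + 2) * a := by
        calc (9 + 4 * J) * (Q + 2) ≤ (9 + 4 * J) * (R + 2) := by gcongr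
          _ = (9 + 4 * J) * (R + 2) * 1 := by ring
          _ ≤ (9 + 4 * J) * (R + 2) * a := by gcongr
      nlinarith
    calc 4 * (Q * J1 * (((6 + 3 * J) * a) + (9 + 4 * J) * (Q + 2)))
        ≤ 4 * (R * J1 * ((6 + 3 * J + (9 + 4 * J) * (R + 2)) * a)) := by gcongr
      _ = 4 * (R * J1 * (6 + 3 * J + (9 + 4 * J) * (R + 2))) * a := by ring
  have h6 : 4 * (((6 + 3 * J) * a + 9 * (u + Q + 2) + J * (w + 4 * (u + Q + 2))) * (Q * J1)) =
      4 * (Q * J1 * (((6 + 3 * J) * a) + (9 + 4 * J) * (Q + 2))) +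
      4 * J1 * (9 + 4 * J) * Q * u + 4 * J1 * J * Q * w := by ring
  omega

/-- closeness of the exponents to multiples of `M = N / Q` -/
theorem approx (Q P N : ℕ) (n k : ℤ) (hQ : 1 ≤ Q) (hP : 1 ≤ P) (hN : 1 ≤ N) (hn : |n| ≤ N)
    (h : |Q * n - k * N| * P ≤ N) :
    |k| ≤ ((Q + 1 : ℕ) : ℤ) ∧ |n - k * ((N / Q : ℕ) : ℤ)| ≤ ((N / (P * Q) + Q + 2 : ℕ) : ℤ) := by
  have hQ' : (1 : ℤ) ≤ Q := by exact_mod_cast hQ
  have hP' : (1 : ℤ) ≤ P := by exact_mod_cast hP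
  have hN' : (1 : ℤ) ≤ N := by exact_mod_cast hN
  have h0 : |(Q : ℤ) * n - k * N| ≤ N := by
    have : 0 ≤ |(Q : ℤ) * n - k * N| := abs_nonneg _
    nlinarith
  have hk : |k| ≤ Q + 1 := by
    have h1 : |k| * N ≤ (Q + 1) * N := by
      have h2 : |k * (N : ℤ)| ≤ |(Q : ℤ) * n| + |(Q : ℤ) * n - k * N| := by
        have := abs_sub_abs_le_abs_sub (k * (N : ℤ)) ((Q : ℤ) * n)
        rw [abs_sub_comm (k * (N : ℤ))] at this
        linarith
      rw [abs_mul, abs_mul, abs_of_nonneg (by positivity : (0 : ℤ) ≤ N),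
        abs_of_nonneg (by positivity : (0 : ℤ) ≤ Q)] at h2
      nlinarith
    exact le_of_mul_le_mul_right h1 (by omega)
  refine ⟨by push_cast; exact hk, ?_⟩
  -- `N = Q M + ρ`
  set M : ℤ := ((N / Q : ℕ) : ℤ) with hM
  have e1 : (N : ℤ) = Q * M + ((N % Q : ℕ) : ℤ) := by
    rw [hM]; exact_mod_cast (Nat.div_add_mod N Q).symm
  have e2 : ((N % Q : ℕ) : ℤ) < Q := by exact_mod_cast Nat.mod_lt N (by omega)
  have e3 : (0 : ℤ) ≤ ((N % Q : ℕ) : ℤ) := by positivity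
  set ρ : ℤ := ((N % Q : ℕ) : ℤ) with hρ
  set u : ℕ := N / (P * Q) with hu
  have e4 : (N : ℤ) < (P * Q) * (u + 1) := by
    have := Nat.lt_mul_div_succ N (by positivity : 0 < P * Q)
    exact_mod_cast this
  have h1 : (Q : ℤ) * |n - k * M| ≤ |(Q : ℤ) * n - k * N| + |k| * ρ := by
    have h2 : (Q : ℤ) * (n - k * M) = ((Q : ℤ) * n - k * N) + k * ρ := by
      rw [e1]; ring
    calc (Q : ℤ) * |n - k * M| = |(Q : ℤ) * (n - k * M)| := by
          rw [abs_mul, abs_of_nonneg (by positivity : (0 : ℤ) ≤ Q)]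
      _ ≤ |(Q : ℤ) * n - k * N| + |k * ρ| := by rw [h2]; exact abs_add_le _ _
      _ = _ := by rw [abs_mul, abs_of_nonneg e3]
  have h2 : |(Q : ℤ) * n - k * N| < Q * (u + 1) := by
    by_contra hcon
    push Not at hcon
    have : (P * Q : ℤ) * (u + 1) ≤ |(Q : ℤ) * n - k * N| * P := by nlinarith
    linarith
  have h3 : |k| * ρ ≤ (Q + 1) * Q := by
    have := abs_nonneg k
    nlinarith
  have h4 : (Q : ℤ) * |n - k * M| < Q * (u + Q + 2) := by nlinarith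
  have h5 := lt_of_mul_lt_mul_left h4 (by positivity)
  push_cast
  linarith

end Pool.Agent.K1H95.HL
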