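import Mathlib
import Pool.Agent.K1H95.HL.Level

/-!
# Sparse points: reduction to polynomials at one scale, main step
-/

set_option autoImplicit false

open Polynomial

namespace Pool.Agent.K1H95.HL

theorem level_core (b M N σ κ w g J J1 : ℕ) (R : ℝ) (q : ℤ) (c d : ℤ →₀ ℤ) (k : ℤ → ℤ)
    (x y A B : ℤ) (hb : 2 ≤ b) (hJ1 : 6 ≤ J1) (hJe : Even J) (hR : 2 ≤ R)
    (hkc : ∀ n ∈ c.support, |k n| ≤ (κ : ℤ))
    (hsc : ∀ n ∈ c.support, |n - k n * (M : ℤ)| ≤ (σ : ℤ))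
    (hkd : ∀ n ∈ d.support, |k n| ≤ (κ : ℤ))
    (hsd : ∀ n ∈ d.support, |n - k n * (M : ℤ)| ≤ (σ : ℤ))
    (hsupN : ∀ n ∈ c.support, n ≤ N)
    (hmaxk : ∃ n ∈ c.support ∪ d.support, k n ≠ 0)
    (hcW : nm c ≤ R) (hdW : nm d ≤ R) (hq : 1 ≤ q) (hqa : (q : ℝ) ≤ R)
    (hx : ev b c = q * x) (hy : ev b d = q * y)
    (hminc : ∀ (p : ℤ → Prop) [DecidablePred p], ev b (c.filter p) = 0 →
      ∀ n ∈ c.support, ¬ p n)
    (hmind : ∀ (p : ℤ → Prop) [DecidablePred p], ev b (d.filter p) = 0 →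
      ∀ n ∈ d.support, ¬ p n)
    (hwin : ∀ l ∈ c.support, (∀ n ∈ c.support, n ≤ l) → ∀ n ∈ c.support,
      l - n ≤ w ∨ (g : ℤ) + w ≤ l - n)
    (hgJ : R ^ (J + 1) * (b : ℝ) ^ N ≤ (b : ℝ) ^ (g * J))
    (hSM : (R ^ (6 + 3 * J) * (b : ℝ) ^ (9 * σ + J * (w + 4 * σ))) ^ J1 ≤ (b : ℝ) ^ M)
    (hcur : y ^ 2 = x ^ 3 + A * x + B)
    (hHx : (max |(A : ℝ)| |(B : ℝ)|) ^ 2 ≤ |(x : ℝ)|)
    (hH1 : 1 ≤ max |(A : ℝ)| |(B : ℝ)|) :
    |(x : ℝ)| ≤ max |(A : ℝ)| |(B : ℝ)| ∨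
    ∃ (S : ℝ) (T D : ℕ) (U V Aq : ℤ[X]), 3 ≤ S ∧ S ^ J1 ≤ T ∧ 1 ≤ D ∧ (D : ℝ) ≤ S ∧
      nrm U ≤ S ∧ nrm V ≤ S ∧ nrm Aq ≤ S ∧
      (D : ℤ) * x = U.eval (T : ℤ) ∧ (D : ℤ) * y = V.eval (T : ℤ) ∧
      (D : ℤ) * A = Aq.eval (T : ℤ) ∧ (1 ≤ U.natDegree ∨ 1 ≤ V.natDegree) := by
  classical
  set Hm : ℝ := max |(A : ℝ)| |(B : ℝ)| with hHm
  have hb1 : 1 ≤ b := by omega
  have hβ2 : (2 : ℝ) ≤ b := by exact_mod_cast hb
  have hβ1 : (1 : ℝ) ≤ b := by linarith
  set β : ℝ := (b : ℝ) with hβ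
  have hβ0 : 0 < β := by linarith
  have hR0 : 0 < R := by linarith
  have hR1 : 1 ≤ R := by linarith
  have hle : ∀ i j : ℕ, i ≤ j → β ^ i ≤ β ^ j := fun i j h => pow_le_pow_right₀ hβ1 h
  have hleR : ∀ i j : ℕ, i ≤ j → R ^ i ≤ R ^ j := fun i j h => pow_le_pow_right₀ hR1 h
  have hone : ∀ i : ℕ, (1 : ℝ) ≤ β ^ i := fun i => one_le_pow₀ hβ1
  -- products
  have hmon : ∀ i j i' j' : ℕ, i ≤ i' → j ≤ j' → R ^ i * β ^ j ≤ R ^ i' * β ^ j' :=
    fun i j i' j' h1 h2 => mul_le_mul (hleR _ _ h1) (hle _ _ h2) (by positivity) (by positivity)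
  have hmulp : ∀ (X Y : ℝ) (i j i' j' i2 j2 : ℕ), 0 ≤ Y → X ≤ R ^ i * β ^ j →
      Y ≤ R ^ i' * β ^ j' → i + i' ≤ i2 → j + j' ≤ j2 → X * Y ≤ R ^ i2 * β ^ j2 := by
    intro X Y i j i' j' i2 j2 hY hX hY' h1 h2
    calc X * Y ≤ (R ^ i * β ^ j) * (R ^ i' * β ^ j') := mul_le_mul hX hY' hY (by positivity)
      _ = R ^ (i + i') * β ^ (j + j') := by rw [pow_add, pow_add]; ring
      _ ≤ _ := hmon _ _ _ _ h1 h2
  have hβm : ∀ j : ℕ, β ^ j ≤ R ^ 0 * β ^ j := fun j => by rw [pow_zero, one_mul]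
  have hRm : ∀ z : ℝ, z ≤ R → z ≤ R ^ 1 * β ^ 0 := fun z hz => by simpa using hz
  set S : ℝ := R ^ (6 + 3 * J) * β ^ (9 * σ + J * (w + 4 * σ)) with hS
  have hS0 : 0 < S := by positivity
  have hS32 : 32 ≤ S := by
    calc (32 : ℝ) ≤ 2 ^ 6 := by norm_num
      _ ≤ R ^ 6 := pow_le_pow_left₀ (by norm_num) hR 6
      _ = R ^ 6 * β ^ 0 := by simp
      _ ≤ S := hmon _ _ _ _ (by omega) (by omega)
  have hS1 : 1 ≤ S := by linarith
  set T := b ^ M with hT
  have hTR : (T : ℝ) = β ^ M := by rw [hT]; push_cast; rfl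
  have hST : S ^ J1 ≤ T := by rw [hTR]; exact hSM
  have hS6 : S ^ 6 ≤ T := (pow_le_pow_right₀ hS1 hJ1).trans hST
  have hT1 : 1 ≤ T := Nat.one_le_pow _ _ (by omega)
  have hTR1 : (1 : ℝ) ≤ T := by exact_mod_cast hT1
  have hSltM : S < β ^ M := by
    rw [← hTR]
    refine lt_of_lt_of_le ?_ hS6
    have : S ^ 6 = S * S ^ 5 := by ring
    rw [this]
    have h5 : (1 : ℝ) < S ^ 5 := lt_of_lt_of_le (by linarith) (le_self_pow₀ hS1 (by norm_num))
    exact lt_mul_of_one_lt_right hS0 h5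
  have hsmall : ∀ f : ℤ →₀ ℤ, nm f ≤ R → nm f * β ^ (2 * σ) ≤ R ^ 1 * β ^ (2 * σ) := by
    intro f hf
    rw [pow_one]
    exact mul_le_mul_of_nonneg_right hf (by positivity)
  have haS : R ^ 1 * β ^ (2 * σ) ≤ S := hmon _ _ _ _ (by omega) (by omega)
  have hltM : R ^ 1 * β ^ (2 * σ) < β ^ M := lt_of_le_of_lt haS hSltM
  obtain ⟨U0, hU0n, hU0e, hU0c⟩ := xnf (M := M) hb1 c k σ hsc q x hx
    (lt_of_le_of_lt (hsmall c hcW) hltM)
  obtain ⟨V0, hV0n, hV0e, hV0c⟩ := xnf (M := M) hb1 d k σ hsd q y hy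
    (lt_of_le_of_lt (hsmall d hdW) hltM)
  have hU0n' : nrm U0 ≤ R ^ 1 * β ^ (2 * σ) := hU0n.trans (hsmall c hcW)
  have hV0n' : nrm V0 ≤ R ^ 1 * β ^ (2 * σ) := hV0n.trans (hsmall d hdW)
  have hqR : (1 : ℝ) ≤ q := by exact_mod_cast hq
  have hbqR : β ^ σ * q ≤ R ^ 1 * β ^ σ :=
    hmulp _ _ 0 σ 1 0 _ _ (by positivity) (hβm σ) (hRm _ hqa) (by omega) (by omega)
  have hbq : β ^ σ * q ≤ S := hbqR.trans (hmon _ _ _ _ (by omega) (by omega))
  have hbq1 : 1 ≤ β ^ σ * q := one_le_mul_of_one_le_of_one_le (hone _) hqR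
  have habs : ∀ (z : ℤ) (Z : ℤ[X]), (b : ℤ) ^ σ * q * z = Z.eval ((b ^ M : ℕ) : ℤ) →
      β ^ σ * q * |(z : ℝ)| = |((Z.eval (T : ℤ) : ℤ) : ℝ)| := by
    intro z Z hz
    rw [hT, ← hz]
    push_cast
    rw [abs_mul, abs_mul, abs_of_nonneg (by positivity : (0 : ℝ) ≤ (b : ℝ) ^ σ),
      abs_of_nonneg (by positivity : (0 : ℝ) ≤ (q : ℝ))]
  have hlower : ∀ (z : ℤ) (Z : ℤ[X]), (b : ℤ) ^ σ * q * z = Z.eval ((b ^ M : ℕ) : ℤ) →
      nrm Z ≤ R ^ 1 * β ^ (2 * σ) → Z.natDegree ≠ 0 → (T : ℝ) ≤ 2 * S * |(z : ℝ)| := by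
    intro z Z hz hZ hZd
    obtain ⟨g, hg⟩ := Nat.exists_eq_succ_of_ne_zero hZd
    have h1 := eval_lower Z T hT1 g hg
    rw [← habs z Z hz] at h1
    have h2 : nrm Z ≤ S := hZ.trans haS
    have h3 : (1 : ℝ) ≤ (T : ℝ) ^ g := one_le_pow₀ hTR1
    have h4 : β ^ σ * q * |(z : ℝ)| ≤ S * |(z : ℝ)| :=
      mul_le_mul_of_nonneg_right hbq (abs_nonneg _)
    have h5 : 2 * S ≤ T := by
      refine le_trans ?_ hS6
      have : S ^ 6 = S * S ^ 5 := by ring
      rw [this, mul_comm 2 S]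
      exact mul_le_mul_of_nonneg_left (le_trans (by linarith) (le_self_pow₀ hS1 (by norm_num)))
        hS0.le
    have h6 : (T : ℝ) ^ (g + 1) - nrm Z * (T : ℝ) ^ g = (T - nrm Z) * (T : ℝ) ^ g := by ring
    rw [h6] at h1
    have h7 : (T : ℝ) - nrm Z ≤ (T - nrm Z) * (T : ℝ) ^ g :=
      le_mul_of_one_le_right (by linarith) h3
    linarith
  by_cases hU0d : U0.natDegree = 0
  · -- the abscissa is small
    have hkc0 : ∀ n ∈ c.support, k n = 0 := fun n hn => by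
      have := hminc (fun n => k n ≠ 0) (hU0c hU0d) n hn
      exact not_not.1 this
    left
    by_cases hV0d : V0.natDegree = 0
    · exfalso
      have hkd0 : ∀ n ∈ d.support, k n = 0 := fun n hn => by
        have := hmind (fun n => k n ≠ 0) (hV0c hV0d) n hn
        exact not_not.1 this
      obtain ⟨n, hn, hnk⟩ := hmaxk
      rcases Finset.mem_union.1 hn with h | h
      · exact hnk (hkc0 n h)
      · exact hnk (hkd0 n h)
    · by_contra hcon
      push Not at hcon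
      have h1 : |(x : ℝ)| ≤ S := by
        have h2 := abs_eval_le U0 T hT1 0 (by omega)
        rw [← habs x U0 hU0e, pow_zero, mul_one] at h2
        calc |(x : ℝ)| ≤ β ^ σ * q * |(x : ℝ)| := le_mul_of_one_le_left (abs_nonneg _) hbq1
          _ ≤ nrm U0 := h2
          _ ≤ S := hU0n'.trans haS
      have h2 := hlower y V0 hV0e hV0n' hV0d
      have h3 : |(y : ℝ)| ^ 2 ≤ S ^ 3 + S * S + S := by
        have h4 : ((y : ℝ)) ^ 2 = (x : ℝ) ^ 3 + A * x + B := by exact_mod_cast hcur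
        rw [sq_abs, h4]
        have h5 : (x : ℝ) ^ 3 ≤ S ^ 3 := by
          calc (x : ℝ) ^ 3 ≤ |(x : ℝ)| ^ 3 := by
                rw [← abs_pow]; exact le_abs_self _
            _ ≤ S ^ 3 := pow_le_pow_left₀ (abs_nonneg _) h1 3
        have h6 : (A : ℝ) * x ≤ S * S := by
          calc (A : ℝ) * x ≤ |(A : ℝ) * x| := le_abs_self _
            _ = |(A : ℝ)| * |(x : ℝ)| := abs_mul _ _
            _ ≤ S * S := mul_le_mul ((le_max_left _ _).trans (hcon.le.trans h1)) h1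
                (abs_nonneg _) hS0.le
        have h7 : (B : ℝ) ≤ S :=
          (le_abs_self _).trans ((le_max_right _ _).trans (hcon.le.trans h1))
        linarith
      have h4 : S ^ 6 ≤ 2 * S * |(y : ℝ)| := hS6.trans h2
      have h5 : S ^ 5 ≤ 2 * |(y : ℝ)| := by
        have : S * S ^ 5 ≤ S * (2 * |(y : ℝ)|) := by
          calc S * S ^ 5 = S ^ 6 := by ring
            _ ≤ _ := h4
            _ = _ := by ring
        exact le_of_mul_le_mul_left this hS0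
      have h6 : S ^ 10 ≤ 4 * |(y : ℝ)| ^ 2 := by
        calc S ^ 10 = (S ^ 5) ^ 2 := by ring
          _ ≤ (2 * |(y : ℝ)|) ^ 2 := pow_le_pow_left₀ (by positivity) h5 2
          _ = _ := by ring
      have h7 : S ^ 3 + S * S + S ≤ 3 * S ^ 3 := by
        have e1 : S ≤ S ^ 3 := le_self_pow₀ hS1 (by norm_num)
        have e2 : S * S ≤ S ^ 3 := by
          have : S ^ 3 = S * S * S := by ring
          rw [this]
          exact le_mul_of_one_le_right (by positivity) hS1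
        linarith
      have h8 : 12 * S ^ 3 < S ^ 10 := by
        have : S ^ 10 = S ^ 7 * S ^ 3 := by ring
        rw [this]
        have e1 : (12 : ℝ) < S ^ 7 := lt_of_lt_of_le (by linarith) (le_self_pow₀ hS1 (by norm_num))
        exact mul_lt_mul_of_pos_right e1 (by positivity)
      linarith
  · right
    -- the abscissa is large
    have hxT := hlower x U0 hU0e hU0n' hU0d
    have hx5 : S ^ 5 ≤ 2 * |(x : ℝ)| := by
      have : S * S ^ 5 ≤ S * (2 * |(x : ℝ)|) := by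
        calc S * S ^ 5 = S ^ 6 := by ring
          _ ≤ _ := hS6.trans hxT
          _ = _ := by ring
      exact le_of_mul_le_mul_left this hS0
    have hx0R : 0 < |(x : ℝ)| := by
      have : 0 < S ^ 5 := by positivity
      linarith
    have hx0 : x ≠ 0 := by
      rintro rfl
      simp at hx0R
    have hcne : c.support.Nonempty := by
      rw [Finset.nonempty_iff_ne_empty]
      intro h0
      have : ev b c = 0 := by unfold ev; rw [h0]; simp
      rw [this] at hx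
      have h1 : (q : ℚ) * x = 0 := hx.symm
      rcases mul_eq_zero.1 h1 with h | h
      · have : q = 0 := by exact_mod_cast h
        omega
      · exact hx0 (by exact_mod_cast h)
    obtain ⟨l, hl⟩ : ∃ l, l = c.support.max' hcne := ⟨_, rfl⟩
    have hlmem : l ∈ c.support := by rw [hl]; exact Finset.max'_mem _ _
    have hlmax : ∀ n ∈ c.support, n ≤ l := fun n hn => by rw [hl]; exact Finset.le_max' _ _ hn
    have hwin' := hwin l hlmem hlmax
    let p : ℤ → Prop := fun n => l - n ≤ (w : ℤ)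
    have hpl : p l := by
      show l - l ≤ (w : ℤ)
      simp
    have hfne : (c.support.filter p).Nonempty := ⟨l, Finset.mem_filter.2 ⟨hlmem, hpl⟩⟩
    obtain ⟨m, hm⟩ : ∃ m, m = (c.support.filter p).min' hfne := ⟨_, rfl⟩
    have hmmem := Finset.min'_mem _ hfne
    rw [← hm] at hmmem
    have hmc : m ∈ c.support := (Finset.mem_filter.1 hmmem).1
    have hlm : l - m ≤ (w : ℤ) := (Finset.mem_filter.1 hmmem).2
    have hmmin : ∀ n ∈ c.support.filter p, m ≤ n := fun n hn => by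
      rw [hm]; exact Finset.min'_le _ _ hn
    -- the block coefficient
    set u : ℤ := ∑ n ∈ c.support.filter p, c n * (b : ℤ) ^ (n - m).toNat with hu
    have hbQ : (b : ℚ) ≠ 0 := by
      have : b ≠ 0 := by omega
      exact_mod_cast this
    have huev : (u : ℚ) * (b : ℚ) ^ m = ev b (c.filter p) := by
      rw [ev_filter, hu]
      push_cast
      rw [Finset.sum_mul]
      refine Finset.sum_congr rfl fun n hn => ?_
      have h1 : (b : ℚ) ^ (n - m).toNat * (b : ℚ) ^ m = (b : ℚ) ^ n := by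
        rw [← zpow_natCast, ← zpow_add₀ hbQ]
        congr 1
        rw [Int.toNat_of_nonneg (by have := hmmin n hn; omega)]
        ring
      rw [mul_assoc, h1]
    have hu0 : u ≠ 0 := by
      intro h0
      have h1 : ev b (c.filter p) = 0 := by rw [← huev, h0]; simp
      exact hminc p h1 l hlmem hpl
    have hu1 : (1 : ℝ) ≤ |(u : ℝ)| := by
      have : 1 ≤ |u| := Int.one_le_abs hu0
      exact_mod_cast this
    have huβ : |(u : ℝ)| ≤ R ^ 1 * β ^ w := by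
      have h1 : |(u : ℝ)| ≤ nm c * β ^ w := by
        rw [hu]
        push_cast
        refine (Finset.abs_sum_le_sum_abs _ _).trans ?_
        unfold nm
        rw [Finset.sum_mul]
        refine (Finset.sum_le_sum (g := fun n => |(c n : ℝ)| * β ^ w) fun n hn => ?_).trans
          (Finset.sum_le_sum_of_subset_of_nonneg (Finset.filter_subset _ _)
            fun _ _ _ => by positivity)
        rw [abs_mul, abs_of_nonneg (by positivity : (0 : ℝ) ≤ (b : ℝ) ^ (n - m).toNat)]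
        refine mul_le_mul_of_nonneg_left (hle _ _ ?_) (abs_nonneg _)
        have := hlmax n (Finset.mem_filter.1 hn).1
        omega
      refine h1.trans ?_
      rw [pow_one]
      exact mul_le_mul_of_nonneg_right hcW (by positivity)
    clear_value u
    obtain ⟨wA, hwrep, hweq⟩ := blockA (M := M) hb1 c d k κ σ hkc hsc hkd hsd m (hkc m hmc)
      (hsc m hmc) p J hJe q u x y A B hcur hx hy hx0 hq huev hu0 R hR1 hcW hdW
    set Λ : ℝ := 2 * q * R ^ 3 * β ^ (8 * σ) *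
      (J * (|(u : ℝ)| * R * β ^ (4 * σ)) ^ J) with hΛ
    obtain ⟨σA, hσA⟩ : ∃ σA, σA = 4 * σ + J * (2 * σ) := ⟨_, rfl⟩
    rw [← hσA] at hwrep
    have hqpow : (q : ℝ) ^ 2 ≤ R ^ 2 * β ^ 0 := by
      rw [pow_zero, mul_one]; exact pow_le_pow_left₀ (by positivity) hqa 2
    have hpowp : ∀ (X : ℝ) (i j : ℕ), 0 ≤ X → X ≤ R ^ i * β ^ j →
        X ^ J ≤ R ^ (J * i) * β ^ (J * j) := by
      intro X i j hX h
      calc X ^ J ≤ (R ^ i * β ^ j) ^ J := pow_le_pow_left₀ hX h J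
        _ = _ := by rw [mul_pow, ← pow_mul, ← pow_mul, mul_comm i J, mul_comm j J]
    have hΛb : Λ ≤ R ^ (5 + 3 * J) * β ^ (8 * σ + J * (w + 4 * σ)) := by
      have h1 : (2 : ℝ) * q ≤ R ^ 2 * β ^ 0 :=
        hmulp _ _ 1 0 1 0 _ _ (by positivity) (hRm _ hR) (hRm _ hqa) (by omega) (by omega)
      have h2 : (2 : ℝ) * q * R ^ 3 ≤ R ^ 5 * β ^ 0 :=
        hmulp _ _ 2 0 3 0 _ _ (by positivity) h1 (by simp) (by omega) (by omega)
      have h3 : (2 : ℝ) * q * R ^ 3 * β ^ (8 * σ) ≤ R ^ 5 * β ^ (8 * σ) :=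
        hmulp _ _ 5 0 0 (8 * σ) _ _ (by positivity) h2 (hβm _) (by omega) (by omega)
      have h4 : |(u : ℝ)| * R * β ^ (4 * σ) ≤ R ^ 2 * β ^ (w + 4 * σ) := by
        refine hmulp _ _ 2 w 0 (4 * σ) _ _ (by positivity) ?_ (hβm _) (by omega) (by omega)
        exact hmulp _ _ 1 w 1 0 _ _ (by positivity) huβ (hRm _ le_rfl) (by omega) (by omega)
      have h5 := hpowp _ 2 (w + 4 * σ) (by positivity) h4
      have h6 : (J : ℝ) ≤ R ^ J * β ^ 0 := by
        rw [pow_zero, mul_one]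
        calc (J : ℝ) ≤ 2 ^ J := by exact_mod_cast (Nat.lt_two_pow_self).le
          _ ≤ R ^ J := pow_le_pow_left₀ (by norm_num) hR J
      have h7 : (J : ℝ) * (|(u : ℝ)| * R * β ^ (4 * σ)) ^ J ≤
          R ^ (3 * J) * β ^ (J * (w + 4 * σ)) :=
        hmulp _ _ _ _ _ _ _ _ (by positivity) h6 h5 (by omega) (by omega)
      exact hmulp _ _ _ _ _ _ _ _ (by positivity) h3 h7 (by omega) (by omega)
    -- the size of `D_A`
    have hDA : (q : ℝ) ^ 2 * |(u : ℝ)| ^ J * β ^ σA ≤ R ^ (2 + J) * β ^ (σA + J * w) := by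
      have h1 := hpowp _ 1 w (abs_nonneg _) huβ
      have h2 : (q : ℝ) ^ 2 * |(u : ℝ)| ^ J ≤ R ^ (2 + J) * β ^ (J * w) :=
        hmulp _ _ _ _ _ _ _ _ (by positivity) hqpow h1 (by omega) (by omega)
      exact hmulp _ _ _ _ _ _ _ _ (by positivity) h2 (hβm σA) (by omega) (by omega)
    have hexp : J * (w + 4 * σ) = J * w + J * (2 * σ) + J * (2 * σ) := by ring
    have hDAS : (q : ℝ) ^ 2 * |(u : ℝ)| ^ J * β ^ σA ≤ S :=
      hDA.trans (hmon _ _ _ _ (by omega) (by omega))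
    -- `ρ` is small
    have hρ : |((((b : ℚ) ^ (-m) * ev b (c.filter fun n => ¬ p n)) : ℚ) : ℝ)| ^ J *
        |(x : ℝ)| ≤ 1 := by
      have h1 := abs_ev_le b hb1 (c.filter fun n => ¬ p n) (m - g) (by
        intro n hn
        rw [Finsupp.support_filter, Finset.mem_filter] at hn
        obtain ⟨hn1, hn2⟩ := hn
        have hn3 : (g : ℤ) + w ≤ l - n := by
          rcases hwin' n hn1 with h | h
          · exact absurd h hn2
          · exact h
        omega)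
      have h2 : |((((b : ℚ) ^ (-m) * ev b (c.filter fun n => ¬ p n)) : ℚ) : ℝ)| ≤
          R * β ^ (-(g : ℤ)) := by
        push_cast
        rw [abs_mul, abs_of_nonneg (by positivity : (0 : ℝ) ≤ (b : ℝ) ^ (-m))]
        calc (b : ℝ) ^ (-m) * |((ev b (c.filter fun n => ¬ p n) : ℚ) : ℝ)|
            ≤ (b : ℝ) ^ (-m) * (R * (b : ℝ) ^ (m - g)) := by
              refine mul_le_mul_of_nonneg_left (h1.trans ?_) (by positivity)
              exact mul_le_mul_of_nonneg_right ((nm_filter_le _ _).trans hcW) (by positivity)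
          _ = R * (β ^ (-m) * β ^ (m - g)) := by ring
          _ = R * β ^ (-(g : ℤ)) := by
              rw [← zpow_add₀ hβ0.ne']
              congr 2; ring
      have h3 : |(x : ℝ)| ≤ R * β ^ N := by
        have h4 := abs_ev_le b hb1 c N hsupN
        rw [hx] at h4
        push_cast at h4
        rw [abs_mul, abs_of_nonneg (by positivity : (0 : ℝ) ≤ (q : ℝ)), zpow_natCast] at h4
        calc |(x : ℝ)| ≤ q * |(x : ℝ)| := le_mul_of_one_le_left (abs_nonneg _) hqR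
          _ ≤ nm c * β ^ N := h4
          _ ≤ R * β ^ N := mul_le_mul_of_nonneg_right hcW (by positivity)
      have hgJpos : 0 < β ^ (g * J) := by positivity
      calc |((((b : ℚ) ^ (-m) * ev b (c.filter fun n => ¬ p n)) : ℚ) : ℝ)| ^ J * |(x : ℝ)|
          ≤ (R * β ^ (-(g : ℤ))) ^ J * (R * β ^ N) :=
            mul_le_mul (pow_le_pow_left₀ (abs_nonneg _) h2 J) h3 (abs_nonneg _) (by positivity)
        _ = (R ^ (J + 1) * β ^ N) / β ^ (g * J) := by
            rw [mul_pow, zpow_neg, zpow_natCast, inv_pow, ← pow_mul]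
            field_simp
            ring
        _ ≤ 1 := by rw [div_le_one hgJpos]; exact hgJ
    set ρ : ℚ := (b : ℚ) ^ (-m) * ev b (c.filter fun n => ¬ p n) with hρdef
    clear_value ρ
    -- the error
    set Er : ℝ := ((((q ^ 2 * u ^ J : ℤ) : ℚ) * A - wA : ℚ) : ℝ) with hEr
    have hweqR : (x : ℝ) * Er = -((q : ℝ) ^ 2 * u ^ J * B) + q ^ 2 * (A * x + B) *
        (ρ : ℝ) ^ J := by
      have := congrArg (fun t : ℚ => (t : ℝ)) hweq
      push_cast at this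
      rw [hEr]
      push_cast
      exact this
    have hHm0 : 0 ≤ Hm := by linarith
    have huJ : (1 : ℝ) ≤ |(u : ℝ)| ^ J := one_le_pow₀ hu1
    have hx1R : (1 : ℝ) ≤ |(x : ℝ)| := by
      have : 1 ≤ |x| := Int.one_le_abs hx0
      exact_mod_cast this
    have hErr : |(x : ℝ)| * |Er| ≤ 3 * Hm * (q ^ 2 * |(u : ℝ)| ^ J) := by
      rw [← abs_mul, hweqR]
      refine (abs_add_le _ _).trans ?_
      rw [abs_neg, abs_mul, abs_mul, abs_mul, abs_mul, abs_pow, abs_pow, abs_pow,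
        abs_of_nonneg (by positivity : (0 : ℝ) ≤ (q : ℝ))]
      have t1 : (q : ℝ) ^ 2 * |(u : ℝ)| ^ J * |(B : ℝ)| ≤ (q ^ 2 * |(u : ℝ)| ^ J) * Hm :=
        mul_le_mul_of_nonneg_left (le_max_right _ _) (by positivity)
      have t2 : |(A : ℝ) * x + B| ≤ 2 * Hm * |(x : ℝ)| := by
        refine (abs_add_le _ _).trans ?_
        rw [abs_mul]
        have s1 : |(A : ℝ)| * |(x : ℝ)| ≤ Hm * |(x : ℝ)| :=
          mul_le_mul_of_nonneg_right (le_max_left _ _) (abs_nonneg _)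
        have s2 : |(B : ℝ)| ≤ Hm * |(x : ℝ)| :=
          (le_max_right _ _).trans (le_mul_of_one_le_right hHm0 hx1R)
        linarith
      have t3 : (q : ℝ) ^ 2 * |(A : ℝ) * x + B| * |(ρ : ℝ)| ^ J ≤ q ^ 2 * (2 * Hm) := by
        calc (q : ℝ) ^ 2 * |(A : ℝ) * x + B| * |(ρ : ℝ)| ^ J
            ≤ q ^ 2 * (2 * Hm * |(x : ℝ)|) * |(ρ : ℝ)| ^ J :=
              mul_le_mul_of_nonneg_right (mul_le_mul_of_nonneg_left t2 (by positivity))
                (by positivity)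
          _ = q ^ 2 * (2 * Hm) * (|(ρ : ℝ)| ^ J * |(x : ℝ)|) := by ring
          _ ≤ q ^ 2 * (2 * Hm) * 1 := mul_le_mul_of_nonneg_left hρ (by positivity)
          _ = _ := mul_one _
      have t4 : (q : ℝ) ^ 2 * (2 * Hm) ≤ (q ^ 2 * |(u : ℝ)| ^ J) * (2 * Hm) :=
        mul_le_mul_of_nonneg_right (le_mul_of_one_le_right (by positivity) huJ) (by positivity)
      linarith
    have h6HS : 6 * Hm * S ≤ |(x : ℝ)| := by
      refine (pow_le_pow_iff_left₀ (by positivity) (abs_nonneg _) two_ne_zero).1 ?_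
      have s1 : (6 * Hm * S) ^ 2 = 36 * S ^ 2 * Hm ^ 2 := by ring
      have s2 : 36 * S ^ 2 * Hm ^ 2 ≤ 36 * S ^ 2 * |(x : ℝ)| :=
        mul_le_mul_of_nonneg_left hHx (by positivity)
      have s3 : 72 * S ^ 2 ≤ S ^ 5 := by
        have e1 : S ^ 5 = S ^ 3 * S ^ 2 := by ring
        rw [e1]
        refine mul_le_mul_of_nonneg_right ?_ (by positivity)
        calc (72 : ℝ) ≤ 32 ^ 3 := by norm_num
          _ ≤ S ^ 3 := pow_le_pow_left₀ (by norm_num) hS32 3
      have s4 : 36 * S ^ 2 ≤ |(x : ℝ)| := by linarith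
      rw [s1]
      calc 36 * S ^ 2 * Hm ^ 2 ≤ 36 * S ^ 2 * |(x : ℝ)| := s2
        _ ≤ |(x : ℝ)| * |(x : ℝ)| := mul_le_mul_of_nonneg_right s4 (abs_nonneg _)
        _ = _ := by ring
    have hErσ : |Er| * β ^ σA ≤ 1 / 2 := by
      have s1 : |(x : ℝ)| * (|Er| * β ^ σA) ≤ |(x : ℝ)| * (1 / 2) := by
        calc |(x : ℝ)| * (|Er| * β ^ σA) = |(x : ℝ)| * |Er| * β ^ σA := by ring
          _ ≤ 3 * Hm * (q ^ 2 * |(u : ℝ)| ^ J) * β ^ σA :=
            mul_le_mul_of_nonneg_right hErr (by positivity)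
          _ = 3 * Hm * (q ^ 2 * |(u : ℝ)| ^ J * β ^ σA) := by ring
          _ ≤ 3 * Hm * S := mul_le_mul_of_nonneg_left hDAS (by positivity)
          _ ≤ |(x : ℝ)| * (1 / 2) := by linarith
      exact le_of_mul_le_mul_left s1 hx0R
    have hΛS : Λ ≤ S := hΛb.trans (hmon _ _ _ _ (by omega) (by omega))
    have hΛT : Λ / β ^ M < 1 / 2 := by
      have s1 : (β ^ M) = (T : ℝ) := hTR.symm
      rw [s1, div_lt_iff₀ (by linarith)]
      have s2 : S ^ 6 = S ^ 5 * S := by ring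
      have s3 : (32 : ℝ) ≤ S ^ 5 := hS32.trans (le_self_pow₀ hS1 (by norm_num))
      have s4 : 32 * S ≤ S ^ 6 := by
        rw [s2]; exact mul_le_mul_of_nonneg_right s3 hS0.le
      linarith
    obtain ⟨ZA, hZAn, hZAe⟩ := Rep.normal hb1 hwrep (q ^ 2 * u ^ J) A (by
      have : |Er| * β ^ σA + Λ / β ^ M < 1 := by linarith
      exact this)
    -- the common denominator
    have huabs : |u| ^ J = u ^ J := hJe.pow_abs u
    have hqabs : |q| = q := abs_of_pos (by omega)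
    set D1 : ℤ := (b : ℤ) ^ σA * (q ^ 2 * u ^ J) with hD1
    set D2 : ℤ := (b : ℤ) ^ σ * q with hD2
    have hDcast : (((b ^ σA * (q.natAbs ^ 2 * u.natAbs ^ J)) * (b ^ σ * q.natAbs) : ℕ) : ℤ) =
        D1 * D2 := by
      push_cast
      rw [huabs, hqabs]
    have hD1R : |(D1 : ℝ)| ≤ R ^ (2 + J) * β ^ (σA + J * w) := by
      rw [hD1]
      push_cast
      rw [abs_mul, abs_mul, abs_pow, abs_pow, abs_pow,
        abs_of_nonneg (by positivity : (0 : ℝ) ≤ (b : ℝ)),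
        abs_of_nonneg (by positivity : (0 : ℝ) ≤ (q : ℝ)), mul_comm]
      exact hDA
    have hD2R : |(D2 : ℝ)| ≤ R ^ 1 * β ^ σ := by
      rw [hD2]
      push_cast
      rw [abs_mul, abs_pow, abs_of_nonneg (by positivity : (0 : ℝ) ≤ (b : ℝ)),
        abs_of_nonneg (by positivity : (0 : ℝ) ≤ (q : ℝ))]
      exact hbqR
    have hD1ne : D1 ≠ 0 := by
      have : (b : ℤ) ≠ 0 := by
        have : b ≠ 0 := by omega
        exact_mod_cast this
      have hq0 : q ≠ 0 := by omega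
      rw [hD1]; positivity
    have hD2ne : D2 ≠ 0 := by
      have : (b : ℤ) ≠ 0 := by
        have : b ≠ 0 := by omega
        exact_mod_cast this
      have hq0 : q ≠ 0 := by omega
      rw [hD2]; positivity
    refine ⟨S, T, (b ^ σA * (q.natAbs ^ 2 * u.natAbs ^ J)) * (b ^ σ * q.natAbs),
      C D1 * U0, C D1 * V0, C D2 * ZA, by linarith, hST, ?_, ?_, ?_, ?_, ?_, ?_, ?_, ?_, ?_⟩
    · rw [Nat.one_le_iff_ne_zero]
      intro h0
      rw [h0] at hDcast
      exact mul_ne_zero hD1ne hD2ne hDcast.symm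
    · have s1 : (((b ^ σA * (q.natAbs ^ 2 * u.natAbs ^ J)) * (b ^ σ * q.natAbs) : ℕ) : ℝ) =
          D1 * D2 := by
        have := congrArg (fun t : ℤ => (t : ℝ)) hDcast
        beta_reduce at this
        rw [Int.cast_natCast, Int.cast_mul] at this
        exact this
      rw [s1]
      refine (le_abs_self _).trans ?_
      rw [abs_mul]
      exact hmulp _ _ _ _ _ _ _ _ (abs_nonneg _) hD1R hD2R (by omega) (by omega)
    · refine (nrm_mul_le _ _).trans ?_
      exact hmulp _ _ _ _ _ _ _ _ (nrm_nonneg _) ((nrm_C_le _).trans hD1R) hU0n' (by omega)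
        (by omega)
    · refine (nrm_mul_le _ _).trans ?_
      exact hmulp _ _ _ _ _ _ _ _ (nrm_nonneg _) ((nrm_C_le _).trans hD1R) hV0n' (by omega)
        (by omega)
    · refine (nrm_mul_le _ _).trans ?_
      exact hmulp _ _ _ _ _ _ _ _ (nrm_nonneg _) ((nrm_C_le _).trans hD2R) (hZAn.trans hΛb)
        (by omega) (by omega)
    · rw [hDcast, eval_mul, eval_C, hT, ← hU0e, hD2]; ring
    · rw [hDcast, eval_mul, eval_C, hT, ← hV0e, hD2]; ring
    · rw [hDcast, eval_mul, eval_C, hT, ← hZAe, hD1]; ring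
    · left
      rw [natDegree_C_mul hD1ne]
      omega

end Pool.Agent.K1H95.HL
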