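import Mathlib
import Pool.Agent.K1H95.HL.LevelCore

/-!
# Sparse points: the two regimes
-/

set_option autoImplicit false

open Polynomial

namespace Pool.Agent.K1H95.HL

/-- large exponents -/
theorem level (r J1 h : ℕ) (hJ1 : 6 ≤ J1) (hh : 1 ≤ h) : ∃ h' C : ℕ, h ≤ h' ∧ 1 ≤ C ∧
    ∀ (b N a : ℕ) (q : ℤ) (c d : ℤ →₀ ℤ) (x y A B : ℤ), 2 ≤ b → 1 ≤ a → C * a ≤ N →
    (c.support ∪ d.support).card ≤ r → (∀ n ∈ c.support ∪ d.support, |n| ≤ N) →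
    (∃ n ∈ c.support ∪ d.support, |n| = N) →
    nm c ≤ (b : ℝ) ^ a → nm d ≤ (b : ℝ) ^ a → 1 ≤ q → (q : ℝ) ≤ (b : ℝ) ^ a →
    ev b c = q * x → ev b d = q * y →
    (∀ (p : ℤ → Prop) [DecidablePred p], ev b (c.filter p) = 0 → ∀ n ∈ c.support, ¬ p n) →
    (∀ (p : ℤ → Prop) [DecidablePred p], ev b (d.filter p) = 0 → ∀ n ∈ d.support, ¬ p n) →
    (∀ l ∈ c.support, (∀ n ∈ c.support, n ≤ l) → ∀ n ∈ c.support,
      (l - n) * h' ≤ N ∨ N < (l - n) * h) →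
    y ^ 2 = x ^ 3 + A * x + B → (max |(A : ℝ)| |(B : ℝ)|) ^ 2 ≤ |(x : ℝ)| →
    1 ≤ max |(A : ℝ)| |(B : ℝ)| →
    |(x : ℝ)| ≤ max |(A : ℝ)| |(B : ℝ)| ∨
    ∃ (S : ℝ) (T D : ℕ) (U V Aq : ℤ[X]), 3 ≤ S ∧ S ^ J1 ≤ T ∧ 1 ≤ D ∧ (D : ℝ) ≤ S ∧
      nrm U ≤ S ∧ nrm V ≤ S ∧ nrm Aq ≤ S ∧
      (D : ℤ) * x = U.eval (T : ℤ) ∧ (D : ℤ) * y = V.eval (T : ℤ) ∧
      (D : ℤ) * A = Aq.eval (T : ℤ) ∧ (1 ≤ U.natDegree ∨ 1 ≤ V.natDegree) := by
  classical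
  set J := 4 * h with hJ
  have hJe : Even J := ⟨2 * h, by omega⟩
  set P := 4 * J1 * (9 + 4 * J) with hP
  have hP1 : 2 ≤ P := by
    have : 2 * 1 ≤ 4 * J1 * (9 + 4 * J) := by nlinarith
    omega
  set h' := 2 * h + 4 * J1 * J * P ^ r with hh'
  refine ⟨h', 4 * (P ^ r * J1 * (6 + 3 * J + (9 + 4 * J) * (P ^ r + 2))) + (J + 1), by omega,
    by omega, ?_⟩
  intro b N a q c d x y A B hb ha hCN hcard hsupN hmaxN hcW hdW hq hqa hx hy hminc hmind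
    hwin hcur hHx hH1
  have hβ2 : (2 : ℝ) ≤ b := by exact_mod_cast hb
  have hβ1 : (1 : ℝ) ≤ b := by linarith
  rw [add_mul] at hCN
  have hN2 : (J + 1) * a ≤ N := (Nat.le_add_left _ _).trans hCN
  have hN3 : 4 * (P ^ r * J1 * (6 + 3 * J + (9 + 4 * J) * (P ^ r + 2))) * a ≤ N :=
    (Nat.le_add_right _ _).trans hCN
  have hN1 : 1 ≤ N := le_trans (Nat.mul_pos (Nat.succ_pos _) ha) hN2
  obtain ⟨Q, hQ1, hQr, k, hk⟩ := dirichletM r P N (by omega) hN1 (c.support ∪ d.support) hcard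
  obtain ⟨M, hM⟩ : ∃ M, M = N / Q := ⟨_, rfl⟩
  obtain ⟨σ, hσ⟩ : ∃ σ, σ = N / (P * Q) + Q + 2 := ⟨_, rfl⟩
  obtain ⟨w, hw⟩ : ∃ w, w = N / h' := ⟨_, rfl⟩
  obtain ⟨κ, hκ⟩ : ∃ κ, κ = Q + 1 := ⟨_, rfl⟩
  obtain ⟨e, he⟩ : ∃ e, e = (6 + 3 * J) * a + 9 * σ + J * (w + 4 * σ) := ⟨_, rfl⟩
  have hstar : e ≤ M / J1 := by
    rw [he, hσ, hw, hM]
    exact star J J1 P r Q N a h' hP hQ1 hQr (by omega) ha (by omega) hN3
  have heM : e * J1 ≤ M := (Nat.mul_le_mul_right _ hstar).trans (Nat.div_mul_le_self _ _)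
  have happ : ∀ n ∈ c.support ∪ d.support, |k n| ≤ (κ : ℤ) ∧ |n - k n * (M : ℤ)| ≤ (σ : ℤ) :=
    fun n hn => by
      rw [hκ, hM, hσ]
      exact approx Q P N n (k n) hQ1 (by omega) hN1 (hsupN n hn) (hk n hn)
  obtain ⟨g0, hg0⟩ : ∃ g0 : ℕ, g0 = (N + 2 * h - 1) / (2 * h) := ⟨_, rfl⟩
  have hg1' : N ≤ 2 * h * g0 := by
    have h1 := Nat.lt_mul_div_succ (N + 2 * h - 1) (by positivity : 0 < 2 * h)
    rw [← hg0] at h1
    have h2 : 2 * h * (g0 + 1) = 2 * h * g0 + 2 * h := by ring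
    omega
  have hgle : ∀ t : ℤ, (N : ℤ) ≤ 2 * h * t → (g0 : ℤ) ≤ t := by
    intro t ht
    have ht0 : 0 ≤ t := by
      by_contra hneg
      push Not at hneg
      have : (2 * (h : ℤ)) * t < 0 := by
        apply mul_neg_of_pos_of_neg _ hneg
        have : (1 : ℤ) ≤ h := by exact_mod_cast hh
        linarith
      have : (0 : ℤ) ≤ N := by positivity
      linarith
    obtain ⟨t', rfl⟩ := Int.eq_ofNat_of_zero_le ht0
    have h1 : N ≤ 2 * h * t' := by exact_mod_cast ht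
    have : (N + 2 * h - 1) / (2 * h) ≤ t' := by
      rw [Nat.div_le_iff_le_mul_add_pred (by positivity)]
      omega
    rw [← hg0] at this
    exact_mod_cast this
  have hh'0 : (0 : ℤ) < h' := by
    have : 0 < h' := by omega
    exact_mod_cast this
  refine level_core b M N σ κ w g0 J J1 ((b : ℝ) ^ a) q c d k x y A B hb hJ1 hJe ?_
    (fun n hn => (happ n (Finset.mem_union_left _ hn)).1)
    (fun n hn => (happ n (Finset.mem_union_left _ hn)).2)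
    (fun n hn => (happ n (Finset.mem_union_right _ hn)).1)
    (fun n hn => (happ n (Finset.mem_union_right _ hn)).2)
    (fun n hn => (le_abs_self n).trans (hsupN n (Finset.mem_union_left _ hn)))
    ?_ hcW hdW hq hqa hx hy hminc hmind ?_ ?_ ?_ hcur hHx hH1
  · calc (2 : ℝ) ≤ b := hβ2
      _ ≤ (b : ℝ) ^ a := le_self_pow₀ hβ1 (by omega)
  · obtain ⟨n, hn, hnN⟩ := hmaxN
    refine ⟨n, hn, ?_⟩
    intro hk0
    have h1 := hk n hn
    rw [hk0, zero_mul, sub_zero, abs_mul, hnN, abs_of_nonneg (by positivity : (0 : ℤ) ≤ Q)] at h1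
    have h2 : Q * N * P ≤ N := by exact_mod_cast h1
    have h3 : 1 * N * 2 ≤ Q * N * P := by gcongr
    omega
  · intro l hl hlmax n hn
    have hln : 0 ≤ l - n := by have := hlmax n hn; omega
    rcases hwin l hl hlmax n hn with h1 | h1
    · left
      have : l - n ≤ (N : ℤ) / h' := Int.le_ediv_of_mul_le hh'0 h1
      rw [hw]; push_cast; exact this
    · right
      have hw1 : (h' : ℤ) * w ≤ N := by
        have : h' * w ≤ N := by rw [hw]; exact Nat.mul_div_le _ _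
        exact_mod_cast this
      have h2 : (2 : ℤ) * h * w ≤ h' * w := by
        apply mul_le_mul_of_nonneg_right _ (by positivity)
        have : 2 * h ≤ h' := by omega
        exact_mod_cast this
      have h3 := hgle (l - n - w) (by
        have h4 : (2 : ℤ) * h * (l - n - w) = 2 * ((l - n) * h) - 2 * h * w := by ring
        rw [h4]
        linarith)
      linarith
  · rw [← pow_mul, ← pow_add]
    apply pow_le_pow_right₀ hβ1
    have h1 : g0 * J = 2 * (2 * h * g0) := by rw [hJ]; ring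
    rw [h1, mul_comm a]
    omega
  · rw [← pow_mul, ← pow_add, ← pow_mul]
    apply pow_le_pow_right₀ hβ1
    refine le_trans (le_of_eq ?_) heM
    rw [he]
    ring

/-- small exponents, large base -/
theorem level_small (Kd J1 : ℕ) (hJ1 : 6 ≤ J1) : ∃ Λ : ℕ,
    ∀ (b N : ℕ) (R : ℝ) (q : ℤ) (c d : ℤ →₀ ℤ) (x y A B : ℤ), 2 ≤ b → 1 ≤ N → N ≤ Kd →
    2 ≤ R → R ^ Λ ≤ b → (∀ n ∈ c.support ∪ d.support, |n| ≤ N) →
    (∃ n ∈ c.support ∪ d.support, |n| = N) →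
    nm c ≤ R → nm d ≤ R → 1 ≤ q → (q : ℝ) ≤ R →
    ev b c = q * x → ev b d = q * y →
    (∀ (p : ℤ → Prop) [DecidablePred p], ev b (c.filter p) = 0 → ∀ n ∈ c.support, ¬ p n) →
    (∀ (p : ℤ → Prop) [DecidablePred p], ev b (d.filter p) = 0 → ∀ n ∈ d.support, ¬ p n) →
    y ^ 2 = x ^ 3 + A * x + B → (max |(A : ℝ)| |(B : ℝ)|) ^ 2 ≤ |(x : ℝ)| →
    1 ≤ max |(A : ℝ)| |(B : ℝ)| →
    |(x : ℝ)| ≤ max |(A : ℝ)| |(B : ℝ)| ∨
    ∃ (S : ℝ) (T D : ℕ) (U V Aq : ℤ[X]), 3 ≤ S ∧ S ^ J1 ≤ T ∧ 1 ≤ D ∧ (D : ℝ) ≤ S ∧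
      nrm U ≤ S ∧ nrm V ≤ S ∧ nrm Aq ≤ S ∧
      (D : ℤ) * x = U.eval (T : ℤ) ∧ (D : ℤ) * y = V.eval (T : ℤ) ∧
      (D : ℤ) * A = Aq.eval (T : ℤ) ∧ (1 ≤ U.natDegree ∨ 1 ≤ V.natDegree) := by
  classical
  set J := 2 * (Kd + 1) with hJ
  have hJe : Even J := ⟨Kd + 1, by omega⟩
  refine ⟨(6 + 3 * J) * J1, ?_⟩
  intro b N R q c d x y A B hb hN1 hNK hR hRb hsupN hmaxN hcW hdW hq hqa hx hy hminc hmind
    hcur hHx hH1
  have hβ2 : (2 : ℝ) ≤ b := by exact_mod_cast hb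
  have hβ1 : (1 : ℝ) ≤ b := by linarith
  have hR1 : 1 ≤ R := by linarith
  refine level_core b 1 N 0 N 0 1 J J1 R q c d (fun n => n) x y A B hb hJ1 hJe hR
    (fun n hn => hsupN n (Finset.mem_union_left _ hn)) (fun n _ => by simp)
    (fun n hn => hsupN n (Finset.mem_union_right _ hn)) (fun n _ => by simp)
    (fun n hn => (le_abs_self n).trans (hsupN n (Finset.mem_union_left _ hn)))
    ?_ hcW hdW hq hqa hx hy hminc hmind ?_ ?_ ?_ hcur hHx hH1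
  · obtain ⟨n, hn, hnN⟩ := hmaxN
    refine ⟨n, hn, ?_⟩
    intro h0
    rw [h0, abs_zero] at hnN
    omega
  · intro l hl hlmax n hn
    have := hlmax n hn
    push_cast
    omega
  · have h1 : R ^ (J + 1) ≤ (b : ℝ) ^ 1 := by
      rw [pow_one]
      refine (pow_le_pow_right₀ hR1 ?_).trans hRb
      nlinarith
    calc R ^ (J + 1) * (b : ℝ) ^ N ≤ (b : ℝ) ^ 1 * (b : ℝ) ^ N :=
          mul_le_mul_of_nonneg_right h1 (by positivity)
      _ = (b : ℝ) ^ (1 + N) := by rw [pow_add]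
      _ ≤ (b : ℝ) ^ (1 * J) := pow_le_pow_right₀ hβ1 (by omega)
  · simp only [mul_zero, add_zero, pow_zero, mul_one, pow_one]
    rw [← pow_mul]
    exact hRb

end Pool.Agent.K1H95.HL
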