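import Mathlib

/-!
# Picard–Fuchs identities for points of Weierstrass curves over a differential ring
-/

set_option autoImplicit false

namespace Pool.Agent.K1H95.HL

variable {R : Type*} [CommRing R]

/-- discriminant relations -/
theorem rel1 (A B A1 B1 Dl Dd dl : R) (hD : Dl = 4 * A ^ 3 + 27 * B ^ 2)
    (hDd : Dd = 12 * A ^ 2 * A1 + 54 * B * B1) (hd : dl = 3 * A1 * B - 2 * A * B1) :
    3 * A1 * Dl - A * Dd = 27 * B * dl := by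
  rw [hD, hDd, hd]; ring

theorem rel2 (A B A1 B1 Dl Dd dl : R) (hD : Dl = 4 * A ^ 3 + 27 * B ^ 2)
    (hDd : Dd = 12 * A ^ 2 * A1 + 54 * B * B1) (hd : dl = 3 * A1 * B - 2 * A * B1) :
    2 * B1 * Dl - B * Dd = -(4 * A ^ 2 * dl) := by
  rw [hD, hDd, hd]; ring

theorem bezout (A B x : R) :
    (6 * A * x ^ 2 - 9 * B * x + 4 * A ^ 2) * (3 * x ^ 2 + A) +
      (27 * B - 18 * A * x) * (x ^ 3 + A * x + B) = 4 * A ^ 3 + 27 * B ^ 2 := by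
  ring

/-- `2 y y₁ = (3x²+A) x₁ + 108 B δ x - 24 A² δ` -/
theorem yy1 (A B x y A1 B1 xd yd Dl Dd dl x1 y1 : R)
    (r1 : 3 * A1 * Dl - A * Dd = 27 * B * dl)
    (r2 : 2 * B1 * Dl - B * Dd = -(4 * A ^ 2 * dl))
    (hc : y ^ 2 = x ^ 3 + A * x + B)
    (hcd : 2 * y * yd = (3 * x ^ 2 + A) * xd + A1 * x + B1)
    (hx1 : x1 = 12 * Dl * xd - 2 * Dd * x) (hy1 : y1 = 12 * Dl * yd - 3 * Dd * y) :
    2 * y * y1 = (3 * x ^ 2 + A) * x1 + 108 * B * dl * x - 24 * A ^ 2 * dl := by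
  rw [hx1, hy1]
  linear_combination 12 * Dl * hcd - 6 * Dd * hc + 4 * x * r1 + 6 * r2

/-- `y Pα = Δ G₁` -/
theorem yPa (A B x y Dl dl x1 y1 G1 Pa : R) (hD : Dl = 4 * A ^ 3 + 27 * B ^ 2)
    (hc : y ^ 2 = x ^ 3 + A * x + B)
    (h1 : 2 * y * y1 = (3 * x ^ 2 + A) * x1 + 108 * B * dl * x - 24 * A ^ 2 * dl)
    (hG1 : G1 = x1 - 36 * dl * x ^ 2 - 24 * dl * A)
    (hPa : Pa = (6 * A * x ^ 2 - 9 * B * x + 4 * A ^ 2) * (2 * y1 - 108 * dl * x * y) +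
      (27 * B - 18 * A * x) * y * G1) :
    y * Pa = Dl * G1 := by
  have h2 : y * (2 * y1 - 108 * dl * x * y) = (3 * x ^ 2 + A) * G1 := by
    rw [hG1]
    linear_combination h1 - 108 * dl * x * hc
  rw [hPa, hD, ← bezout A B x]
  linear_combination (6 * A * x ^ 2 - 9 * B * x + 4 * A ^ 2) * h2 +
    (27 * B - 18 * A * x) * G1 * hc

/-- `y Pβ = Δ G₂` -/
theorem yPb (A B x y Dl dl x1 y1 G2 Pb : R) (hD : Dl = 4 * A ^ 3 + 27 * B ^ 2)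
    (hc : y ^ 2 = x ^ 3 + A * x + B)
    (h1 : 2 * y * y1 = (3 * x ^ 2 + A) * x1 + 108 * B * dl * x - 24 * A ^ 2 * dl)
    (hG2 : G2 = x * x1 + 12 * dl * A * x + 36 * dl * B)
    (hPb : Pb = (6 * A * x ^ 2 - 9 * B * x + 4 * A ^ 2) * (2 * x * y1 + 36 * dl * A * y) +
      (27 * B - 18 * A * x) * y * G2) :
    y * Pb = Dl * G2 := by
  have h2 : y * (2 * x * y1 + 36 * dl * A * y) = (3 * x ^ 2 + A) * G2 := by
    rw [hG2]
    linear_combination x * h1 + 36 * dl * A * hc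
  rw [hPb, hD, ← bezout A B x]
  linear_combination (6 * A * x ^ 2 - 9 * B * x + 4 * A ^ 2) * h2 +
    (27 * B - 18 * A * x) * G2 * hc

/-- the main identity -/
theorem main (A B x y A1 B1 xd yd Dl Dd dl dd x1 x1d G1 G1d G2 Pa Pad Pb x2 N PR : R)
    (r1 : 3 * A1 * Dl - A * Dd = 27 * B * dl)
    (r2 : 2 * B1 * Dl - B * Dd = -(4 * A ^ 2 * dl))
    (hD : Dl = 4 * A ^ 3 + 27 * B ^ 2)
    (hc : y ^ 2 = x ^ 3 + A * x + B)
    (hcd : 2 * y * yd = (3 * x ^ 2 + A) * xd + A1 * x + B1)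
    (hx1 : x1 = 12 * Dl * xd - 2 * Dd * x)
    (hG1 : G1 = x1 - 36 * dl * x ^ 2 - 24 * dl * A)
    (hG1d : G1d = x1d - 36 * dd * x ^ 2 - 72 * dl * x * xd - 24 * dd * A - 24 * dl * A1)
    (hG2 : G2 = x * x1 + 12 * dl * A * x + 36 * dl * B)
    (hPa : y * Pa = Dl * G1) (hPad : yd * Pa + y * Pad = Dd * G1 + Dl * G1d)
    (hPb : y * Pb = Dl * G2)
    (hx2 : x2 = 12 * Dl * (x1d * dl - x1 * dd) - 4 * Dd * dl * x1)
    (hN : N = 2 * (x ^ 3 + A * x + B) * x2 - (3 * x ^ 2 + A) * x1 ^ 2 * dl +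
      (48 * A ^ 2 - 216 * B * x) * dl ^ 2 * x1 +
      dl ^ 3 * (432 * A * x ^ 4 - 432 * A ^ 2 * x ^ 2 - 864 * A * B * x - 144 * Dl))
    (hPR : PR = 12 * Dl * (Pad * dl - Pa * dd) - 13 * Dd * dl * Pa + 18 * dl ^ 2 * Pb) :
    Dl * N = 2 * y ^ 3 * PR := by
  -- step 1: `y³ PR = Δ * M`
  have s1 : y ^ 3 * PR = Dl * (y ^ 2 * (12 * dl * Dl * G1d - Dd * dl * G1 - 12 * Dl * dd * G1 +
      18 * dl ^ 2 * G2) - 12 * Dl * dl * G1 * (y * yd)) := by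
    rw [hPR]
    linear_combination (12 * Dl * dl * y ^ 2) * hPad - (12 * Dl * dd * y ^ 2) * hPa -
      (13 * Dd * dl * y ^ 2) * hPa + (18 * dl ^ 2 * y ^ 2) * hPb -
      (12 * Dl * dl * y * yd) * hPa
  -- step 2: the bracket
  have s2 : 12 * dl * Dl * G1d - 4 * Dd * dl * G1 - 12 * Dl * dd * G1 =
      x2 - 72 * dl ^ 2 * x * x1 - 2592 * B * dl ^ 3 := by
    rw [hG1d, hG1, hx2, hx1]
    linear_combination (-(96 * dl ^ 2)) * r1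
  have s3 : 24 * Dl * (y * yd) = (3 * x ^ 2 + A) * x1 + 6 * Dd * y ^ 2 +
      108 * B * dl * x - 24 * A ^ 2 * dl := by
    rw [hx1]
    linear_combination 12 * Dl * hcd - 6 * Dd * hc + 4 * x * r1 + 6 * r2
  have s4 : 2 * (y ^ 2 * (12 * dl * Dl * G1d - Dd * dl * G1 - 12 * Dl * dd * G1 +
      18 * dl ^ 2 * G2) - 12 * Dl * dl * G1 * (y * yd)) = N := by
    have e1 : 2 * (y ^ 2 * (12 * dl * Dl * G1d - Dd * dl * G1 - 12 * Dl * dd * G1 +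
      18 * dl ^ 2 * G2) - 12 * Dl * dl * G1 * (y * yd)) =
      2 * y ^ 2 * (x2 - 72 * dl ^ 2 * x * x1 - 2592 * B * dl ^ 3 + 18 * dl ^ 2 * G2) -
      dl * G1 * ((3 * x ^ 2 + A) * x1 + 108 * B * dl * x - 24 * A ^ 2 * dl) := by
      linear_combination 2 * y ^ 2 * s2 - dl * G1 * s3
    rw [e1, hN, hG1, hG2, hc, hD]
    ring
  rw [← s4]
  linear_combination (-2) * s1

end Pool.Agent.K1H95.HL
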