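import Mathlib
import Pool.Agent.K1H95.HL.Ident

/-!
# The polynomial Hall–Lang bound `deg x ≤ 22 max (deg A, deg B)`
-/

set_option autoImplicit false

open Polynomial

namespace Pool.Agent.K1H95.HL

variable {K : Type*} [Field K]

/-- Euler derivation -/
noncomputable def th (f : K[X]) : K[X] := X * derivative f

theorem coeff_th (f : K[X]) (n : ℕ) : (th f).coeff n = n * f.coeff n := by
  unfold th
  cases n with
  | zero => simp
  | succ n => rw [coeff_X_mul, coeff_derivative]; push_cast; ring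

theorem natDegree_th_le (f : K[X]) : (th f).natDegree ≤ f.natDegree := by
  rw [natDegree_le_iff_coeff_eq_zero]
  intro n hn
  rw [coeff_th, coeff_eq_zero_of_natDegree_lt hn, mul_zero]

theorem th_add (f g : K[X]) : th (f + g) = th f + th g := by
  unfold th; rw [derivative_add]; ring

theorem th_sub (f g : K[X]) : th (f - g) = th f - th g := by
  unfold th; rw [derivative_sub]; ring

theorem th_mul (f g : K[X]) : th (f * g) = th f * g + f * th g := by
  unfold th; rw [derivative_mul]; ring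

theorem th_pow (f : K[X]) (n : ℕ) : th (f ^ n) = n * f ^ (n - 1) * th f := by
  unfold th; rw [derivative_pow]; simp only [map_natCast]; ring

theorem th_ofNat (n : ℕ) [n.AtLeastTwo] : th (OfNat.ofNat n : K[X]) = 0 := by
  unfold th; rw [derivative_ofNat, mul_zero]

/-- `f` has degree at most `n`, with coefficient `c` there -/
def Top (f : K[X]) (n : ℕ) (c : K) : Prop := f.natDegree ≤ n ∧ f.coeff n = c

theorem Top.add {f g : K[X]} {n : ℕ} {c d : K} (hf : Top f n c) (hg : Top g n d) :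
    Top (f + g) n (c + d) :=
  ⟨(natDegree_add_le _ _).trans (max_le hf.1 hg.1), by rw [coeff_add, hf.2, hg.2]⟩

theorem Top.sub {f g : K[X]} {n : ℕ} {c d : K} (hf : Top f n c) (hg : Top g n d) :
    Top (f - g) n (c - d) :=
  ⟨(natDegree_sub_le _ _).trans (max_le hf.1 hg.1), by rw [coeff_sub, hf.2, hg.2]⟩

theorem Top.mul {f g : K[X]} {m n : ℕ} {c d : K} (hf : Top f m c) (hg : Top g n d) :
    Top (f * g) (m + n) (c * d) :=
  ⟨natDegree_mul_le.trans (add_le_add hf.1 hg.1), by
    rw [coeff_mul_add_eq_of_natDegree_le hf.1 hg.1, hf.2, hg.2]⟩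

theorem Top.pow {f : K[X]} {m : ℕ} {c : K} (hf : Top f m c) (k : ℕ) :
    Top (f ^ k) (k * m) (c ^ k) := by
  induction k with
  | zero => simp [Top]
  | succ k ih =>
    rw [pow_succ, pow_succ, Nat.succ_mul]
    exact ih.mul hf

theorem Top.th {f : K[X]} {m : ℕ} {c : K} (hf : Top f m c) : Top (th f) m (m * c) :=
  ⟨(natDegree_th_le f).trans hf.1, by rw [coeff_th, hf.2]⟩

theorem Top.smul {f : K[X]} {m : ℕ} {c : K} (hf : Top f m c) (k : ℕ) [k.AtLeastTwo] :
    Top ((OfNat.ofNat k : K[X]) * f) m (OfNat.ofNat k * c) := by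
  have : (OfNat.ofNat k : K[X]) = C (OfNat.ofNat k : K) := (map_ofNat C k).symm
  rw [this]
  exact ⟨(natDegree_C_mul_le _ _).trans hf.1, by rw [coeff_C_mul, hf.2]⟩

theorem Top.lt {f : K[X]} {m n : ℕ} {c : K} (hf : Top f m c) (h : m < n) : Top f n 0 :=
  ⟨hf.1.trans h.le, coeff_eq_zero_of_natDegree_lt (hf.1.trans_lt h)⟩

theorem Top.zero_le {f : K[X]} {m n : ℕ} (hf : Top f m 0) (h : m ≤ n) : Top f n 0 := by
  rcases h.lt_or_eq with h | h
  · exact hf.lt h
  · rw [← h]; exact hf

theorem Top.cast {f : K[X]} {m n : ℕ} {c d : K} (hf : Top f m c) (h : m = n) (h' : c = d) :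
    Top f n d := by
  subst h; subst h'; exact hf

theorem Top.self (f : K[X]) : Top f f.natDegree f.leadingCoeff := ⟨le_rfl, rfl⟩

theorem Top.ne_zero {f : K[X]} {m : ℕ} {c : K} (hf : Top f m c) (hc : c ≠ 0) : f ≠ 0 := by
  rintro rfl
  exact hc (by rw [← hf.2]; simp)

theorem Top.natDegree_eq {f : K[X]} {m : ℕ} {c : K} (hf : Top f m c) (hc : c ≠ 0) :
    f.natDegree = m :=
  le_antisymm hf.1 (le_natDegree_of_ne_zero (by rw [hf.2]; exact hc))

theorem deg_cubic (A B x y : K[X]) (hA : A.natDegree < x.natDegree)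
    (hB : B.natDegree < x.natDegree) (hc : y ^ 2 = x ^ 3 + A * x + B) :
    2 * y.natDegree = 3 * x.natDegree := by
  have hx : x ≠ 0 := by rintro rfl; simp at hA
  have h1 : Top (x ^ 3 + A * x + B) (3 * x.natDegree) (x.leadingCoeff ^ 3) := by
    refine ((((Top.self x).pow 3).add (((Top.self A).mul (Top.self x)).lt ?_)).add
      ((Top.self B).lt ?_)).cast rfl ?_
    · omega
    · omega
    · ring
  have h2 := h1.natDegree_eq (pow_ne_zero _ (leadingCoeff_ne_zero.2 hx))
  rw [← hc, natDegree_pow] at h2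
  exact h2

variable [CharZero K]

/-- the case `δ ≠ 0` -/
theorem case1 (A B x y : K[X]) (h m : ℕ) (hA : A.natDegree ≤ h) (hB : B.natDegree ≤ h)
    (hΔ : 4 * A ^ 3 + 27 * B ^ 2 ≠ 0) (hc : y ^ 2 = x ^ 3 + A * x + B)
    (hx : x.natDegree = 2 * m) (hy : y.natDegree = 3 * m) (hm : 3 * h < m)
    (hd : 3 * th A * B - 2 * A * th B ≠ 0) : m ≤ 11 * h := by
  set Dl : K[X] := 4 * A ^ 3 + 27 * B ^ 2 with hDl
  set dl : K[X] := 3 * th A * B - 2 * A * th B with hdl
  have hDd : th Dl = 12 * A ^ 2 * th A + 54 * B * th B := by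
    rw [hDl, th_add, th_mul, th_mul, th_pow, th_pow, th_ofNat, th_ofNat]
    push_cast
    ring
  have r1 := rel1 A B (th A) (th B) Dl (th Dl) dl hDl hDd hdl
  have r2 := rel2 A B (th A) (th B) Dl (th Dl) dl hDl hDd hdl
  have hcd : 2 * y * th y = (3 * x ^ 2 + A) * th x + th A * x + th B := by
    have h1 := congrArg th hc
    rw [th_add, th_add, th_pow, th_pow, th_mul] at h1
    push_cast at h1
    linear_combination h1
  have hA0 : A ≠ 0 := by
    intro h0
    apply hd
    rw [hdl, h0]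
    simp [th]
  have hB0 : B ≠ 0 := by
    intro h0
    apply hd
    rw [hdl, h0]
    simp [th]
  have hx0 : x ≠ 0 := by
    rintro rfl
    simp at hx
    omega
  have hy0 : y ≠ 0 := by
    rintro rfl
    simp at hy
    omega
  set D := Dl.natDegree with hDdef
  set e := dl.natDegree with hedef
  -- degree relations
  have d1 : B.natDegree + e ≤ A.natDegree + D := by
    have h1 : (27 * B * dl).natDegree = B.natDegree + e := by
      rw [natDegree_mul (mul_ne_zero (by norm_num) hB0) hd, natDegree_mul (by norm_num) hB0]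
      simp [e]
    have h2 : (3 * th A * Dl - A * th Dl).natDegree ≤ A.natDegree + D := by
      refine (natDegree_sub_le _ _).trans (max_le ?_ ?_)
      · refine natDegree_mul_le.trans (add_le_add ?_ le_rfl)
        refine natDegree_mul_le.trans ?_
        have := natDegree_th_le A
        simpa using this
      · exact natDegree_mul_le.trans (add_le_add le_rfl (natDegree_th_le _))
    rw [← r1] at h1
    omega
  have d2 : 2 * A.natDegree + e ≤ B.natDegree + D := by
    have h1 : (-(4 * A ^ 2 * dl)).natDegree = 2 * A.natDegree + e := by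
      rw [natDegree_neg, natDegree_mul (mul_ne_zero (by norm_num) (pow_ne_zero _ hA0)) hd,
        natDegree_mul (by norm_num) (pow_ne_zero _ hA0), natDegree_pow]
      simp [e]
    have h2 : (2 * th B * Dl - B * th Dl).natDegree ≤ B.natDegree + D := by
      refine (natDegree_sub_le _ _).trans (max_le ?_ ?_)
      · refine natDegree_mul_le.trans (add_le_add ?_ le_rfl)
        refine natDegree_mul_le.trans ?_
        have := natDegree_th_le B
        simpa using this
      · exact natDegree_mul_le.trans (add_le_add le_rfl (natDegree_th_le _))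
    rw [← r2] at h1
    omega
  obtain ⟨s, hs⟩ : ∃ s, D = e + s := ⟨D - e, by omega⟩
  have dA : A.natDegree ≤ 2 * s := by omega
  have dB : B.natDegree ≤ 3 * s := by omega
  have tD0 : Top Dl D Dl.leadingCoeff := Top.self Dl
  set L := Dl.leadingCoeff with hL
  have hL0 : L ≠ 0 := leadingCoeff_ne_zero.2 hΔ
  have td : Top dl e dl.leadingCoeff := Top.self dl
  set l := dl.leadingCoeff with hl
  have hl0 : l ≠ 0 := leadingCoeff_ne_zero.2 hd
  have tA : Top A (2 * s) (A.coeff (2 * s)) := ⟨dA, rfl⟩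
  have tB : Top B (3 * s) (B.coeff (3 * s)) := ⟨dB, rfl⟩
  set α := A.coeff (2 * s) with hα
  set β := B.coeff (3 * s) with hβ
  have tx : Top x (2 * m) x.leadingCoeff := ⟨hx.le, by rw [leadingCoeff, hx]⟩
  set ξ := x.leadingCoeff with hξ
  have hξ0 : ξ ≠ 0 := leadingCoeff_ne_zero.2 hx0
  have hD3 : D ≤ 3 * h := by
    refine (natDegree_add_le _ _).trans (max_le ?_ ?_)
    · refine natDegree_mul_le.trans ?_
      rw [natDegree_pow]
      have : (4 : K[X]).natDegree = 0 := by simp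
      omega
    · refine natDegree_mul_le.trans ?_
      rw [natDegree_pow]
      have : (27 : K[X]).natDegree = 0 := by simp
      omega
  have hD6 : D ≤ 6 * s := by
    refine (natDegree_add_le _ _).trans (max_le ?_ ?_)
    · refine natDegree_mul_le.trans ?_
      rw [natDegree_pow]
      have : (4 : K[X]).natDegree = 0 := by simp
      omega
    · refine natDegree_mul_le.trans ?_
      rw [natDegree_pow]
      have : (27 : K[X]).natDegree = 0 := by simp
      omega
  have he : e ≤ 2 * h := by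
    refine (natDegree_sub_le _ _).trans (max_le ?_ ?_)
    · refine natDegree_mul_le.trans ?_
      have h1 : (3 * th A).natDegree ≤ h := by
        refine natDegree_mul_le.trans ?_
        have h2 : (3 : K[X]).natDegree = 0 := by simp
        have := natDegree_th_le A
        omega
      omega
    · refine natDegree_mul_le.trans ?_
      have h1 : (2 * A).natDegree ≤ h := by
        refine natDegree_mul_le.trans ?_
        have h2 : (2 : K[X]).natDegree = 0 := by simp
        omega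
      have := natDegree_th_le B
      omega
  have hsm : s < m := by omega
  -- coefficient relations
  have c1 : 27 * β * l = 3 * ((2 * s : ℕ) * α) * L - α * (D * L) := by
    have t1 : Top (27 * B * dl) (3 * s + e) (27 * β * l) := (tB.smul 27).mul td
    have t2 : Top (3 * th A * Dl - A * th Dl) (2 * s + D)
        (3 * ((2 * s : ℕ) * α) * L - α * (D * L)) :=
      ((tA.th.smul 3).mul tD0).sub (tA.mul tD0.th)
    rw [r1] at t2
    rw [← t1.2, ← t2.2]
    congr 1
    omega
  have c2 : 2 * ((3 * s : ℕ) * β) * L - β * (D * L) = -(4 * α ^ 2 * l) := by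
    have t1 : Top (4 * A ^ 2 * dl) (2 * (2 * s) + e) (4 * α ^ 2 * l) :=
      ((tA.pow 2).smul 4).mul td
    have t2 : Top (2 * th B * Dl - B * th Dl) (3 * s + D)
        (2 * ((3 * s : ℕ) * β) * L - β * (D * L)) :=
      ((tB.th.smul 2).mul tD0).sub (tB.mul tD0.th)
    rw [r2] at t2
    rw [← t1.2, ← t2.2, coeff_neg]
    congr 2
    omega
  push_cast at c1 c2
  have hDs : (D : K) = e + s := by rw [hs]; push_cast; ring
  have c3 : α = 0 ∨ 108 * l ^ 2 * α = -((6 * s - D) ^ 2 * L ^ 2) := by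
    by_cases hα0 : α = 0
    · exact Or.inl hα0
    · right
      apply mul_left_cancel₀ hα0
      linear_combination (-(6 * s - D) * L) * c1 + 27 * l * c2
  -- the objects
  set x1 : K[X] := 12 * Dl * th x - 2 * th Dl * x with hx1
  set y1 : K[X] := 12 * Dl * th y - 3 * th Dl * y with hy1
  set G1 : K[X] := x1 - 36 * dl * x ^ 2 - 24 * dl * A with hG1
  set G2 : K[X] := x * x1 + 12 * dl * A * x + 36 * dl * B with hG2
  set Pa : K[X] := (6 * A * x ^ 2 - 9 * B * x + 4 * A ^ 2) * (2 * y1 - 108 * dl * x * y) +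
      (27 * B - 18 * A * x) * y * G1 with hPa
  set Pb : K[X] := (6 * A * x ^ 2 - 9 * B * x + 4 * A ^ 2) * (2 * x * y1 + 36 * dl * A * y) +
      (27 * B - 18 * A * x) * y * G2 with hPb
  set x2 : K[X] := 12 * Dl * (th x1 * dl - x1 * th dl) - 4 * th Dl * dl * x1 with hx2
  set N : K[X] := 2 * (x ^ 3 + A * x + B) * x2 - (3 * x ^ 2 + A) * x1 ^ 2 * dl +
      (48 * A ^ 2 - 216 * B * x) * dl ^ 2 * x1 +
      dl ^ 3 * (432 * A * x ^ 4 - 432 * A ^ 2 * x ^ 2 - 864 * A * B * x - 144 * Dl) with hN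
  set PR : K[X] := 12 * Dl * (th Pa * dl - Pa * th dl) - 13 * th Dl * dl * Pa +
      18 * dl ^ 2 * Pb with hPR
  have i1 := yy1 A B x y (th A) (th B) (th x) (th y) Dl (th Dl) dl x1 y1 r1 r2 hc hcd hx1 hy1
  have i2 := yPa A B x y Dl dl x1 y1 G1 Pa hDl hc i1 hG1 hPa
  have i3 := yPb A B x y Dl dl x1 y1 G2 Pb hDl hc i1 hG2 hPb
  have i4 : th G1 = th x1 - 36 * th dl * x ^ 2 - 72 * dl * x * th x - 24 * th dl * A -
      24 * dl * th A := by
    rw [hG1, th_sub, th_sub, th_mul, th_mul, th_mul, th_mul, th_pow, th_ofNat, th_ofNat]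
    push_cast
    ring
  have i5 : th y * Pa + y * th Pa = th Dl * G1 + Dl * th G1 := by
    have h1 := congrArg th i2
    rwa [th_mul, th_mul] at h1
  have i6 := main A B x y (th A) (th B) (th x) (th y) Dl (th Dl) dl (th dl) x1 (th x1) G1
    (th G1) G2 Pa (th Pa) Pb x2 N PR r1 r2 hDl hc hcd hx1 hG1 i4 hG2 i2 i5 i3 hx2 hN hPR
  -- top coefficients
  have tx1 : Top x1 (D + 2 * m) (12 * L * ((2 * m : ℕ) * ξ) - 2 * (D * L) * ξ) :=
    ((tD0.smul 12).mul tx.th).sub ((tD0.th.smul 2).mul tx)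
  have tx2 : Top x2 (2 * D + e + 2 * m) (12 * L * (((D + 2 * m : ℕ) *
      (12 * L * ((2 * m : ℕ) * ξ) - 2 * (D * L) * ξ)) * l -
      (12 * L * ((2 * m : ℕ) * ξ) - 2 * (D * L) * ξ) * (e * l)) -
      4 * (D * L) * l * (12 * L * ((2 * m : ℕ) * ξ) - 2 * (D * L) * ξ)) := by
    have h1 : Top (12 * Dl * (th x1 * dl - x1 * th dl)) (2 * D + e + 2 * m) _ :=
      ((tD0.smul 12).mul ((tx1.th.mul td).sub (tx1.mul td.th))).cast (by ring) rfl
    have h2 : Top (4 * th Dl * dl * x1) (2 * D + e + 2 * m) _ :=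
      (((tD0.th.smul 4).mul td).mul tx1).cast (by ring) rfl
    exact h1.sub h2
  set ζ := 12 * L * ((2 * m : ℕ) * ξ) - 2 * (D * L) * ξ with hζ
  set ω := 12 * L * (((D + 2 * m : ℕ) * ζ) * l - ζ * (e * l)) - 4 * (D * L) * l * ζ with hω
  have tN : Top N (8 * m + 2 * D + e) (2 * ξ ^ 3 * ω - 3 * ξ ^ 2 * ζ ^ 2 * l +
      l ^ 3 * (432 * α * ξ ^ 4)) := by
    have n1 : Top (x ^ 3 + A * x + B) (6 * m) (ξ ^ 3) := by
      refine (((tx.pow 3).cast (n := 6 * m) (by ring) rfl).add
        ((tA.mul tx).lt (by omega)) |>.add (tB.lt (by omega))).cast rfl (by ring)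
    have n2 : Top (2 * (x ^ 3 + A * x + B) * x2) (8 * m + 2 * D + e) (2 * ξ ^ 3 * ω) :=
      ((n1.smul 2).mul tx2).cast (by ring) rfl
    have n3 : Top (3 * x ^ 2 + A) (4 * m) (3 * ξ ^ 2) := by
      refine ((((tx.pow 2).smul 3).cast (n := 4 * m) (by ring) rfl).add
        (tA.lt (by omega))).cast rfl (by ring)
    have n4 : Top ((3 * x ^ 2 + A) * x1 ^ 2 * dl) (8 * m + 2 * D + e)
        (3 * ξ ^ 2 * ζ ^ 2 * l) :=
      ((n3.mul (tx1.pow 2)).mul td).cast (by ring) rfl
    have n5 : Top ((48 * A ^ 2 - 216 * B * x) * dl ^ 2 * x1) (8 * m + 2 * D + e) 0 := by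
      have p1 : Top (48 * A ^ 2 - 216 * B * x) (3 * s + 2 * m) _ :=
        (((tA.pow 2).smul 48).lt (n := 3 * s + 2 * m) (by omega)).sub ((tB.smul 216).mul tx)
      exact ((p1.mul (td.pow 2)).mul tx1).lt (by omega)
    have n6 : Top (432 * A * x ^ 4) (2 * s + 8 * m) (432 * α * ξ ^ 4) :=
      ((tA.smul 432).mul (tx.pow 4)).cast (by ring) rfl
    have n7 : Top (432 * A ^ 2 * x ^ 2) (2 * s + 8 * m) 0 :=
      (((tA.pow 2).smul 432).mul (tx.pow 2)).lt (by omega)
    have n8 : Top (864 * A * B * x) (2 * s + 8 * m) 0 :=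
      (((tA.smul 864).mul tB).mul tx).lt (by omega)
    have n9 : Top (144 * Dl) (2 * s + 8 * m) 0 := (tD0.smul 144).lt (by omega)
    have n10 : Top (dl ^ 3 * (432 * A * x ^ 4 - 432 * A ^ 2 * x ^ 2 - 864 * A * B * x -
        144 * Dl)) (8 * m + 2 * D + e) (l ^ 3 * (432 * α * ξ ^ 4)) :=
      ((td.pow 3).mul (((n6.sub n7).sub n8).sub n9)).cast (by omega) (by ring)
    exact (((n2.sub n4).add n5).add n10).cast rfl (by ring)
  have hNval : 2 * ξ ^ 3 * ω - 3 * ξ ^ 2 * ζ ^ 2 * l + l ^ 3 * (432 * α * ξ ^ 4) ≠ 0 := by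
    have v1 : 2 * ξ ^ 3 * ω - 3 * ξ ^ 2 * ζ ^ 2 * l =
        -(l * ξ ^ 4 * (4 * L ^ 2 * ((12 * m - D) * (12 * m - 12 * s + D)))) := by
      rw [hω, hζ]
      push_cast
      rw [hDs]
      ring
    obtain ⟨u, hu⟩ : ∃ u, 12 * m = D + u := ⟨12 * m - D, by omega⟩
    obtain ⟨v, hv⟩ : ∃ v, 12 * m + D = 12 * s + v := ⟨12 * m + D - 12 * s, by omega⟩
    have hu0 : 0 < u := by omega
    have hv0 : 0 < v := by omega
    have hu' : (12 * m - D : K) = u := by
      have : ((12 * m : ℕ) : K) = ((D + u : ℕ) : K) := by rw [hu]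
      push_cast at this
      rw [this]; ring
    have hv' : (12 * m - 12 * s + D : K) = v := by
      have : ((12 * m + D : ℕ) : K) = ((12 * s + v : ℕ) : K) := by rw [hv]
      push_cast at this
      linear_combination this
    rcases c3 with c3 | c3
    · rw [v1, c3, hu', hv']
      have hu1 : (u : K) ≠ 0 := by exact_mod_cast hu0.ne'
      have hv1 : (v : K) ≠ 0 := by exact_mod_cast hv0.ne'
      have e1 : -(l * ξ ^ 4 * (4 * L ^ 2 * ((u : K) * v))) + l ^ 3 * (432 * 0 * ξ ^ 4) =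
        -(l * ξ ^ 4 * (4 * L ^ 2 * ((u : K) * v))) := by ring
      rw [e1, neg_ne_zero]
      exact mul_ne_zero (mul_ne_zero hl0 (pow_ne_zero _ hξ0)) (mul_ne_zero (mul_ne_zero
        (by norm_num) (pow_ne_zero _ hL0)) (mul_ne_zero hu1 hv1))
    · obtain ⟨w, hw⟩ : ∃ w, 2 * m = s + w := ⟨2 * m - s, by omega⟩
      have hw0 : 0 < w := by omega
      have hw' : (2 * m - s : K) = w := by
        have : ((2 * m : ℕ) : K) = ((s + w : ℕ) : K) := by rw [hw]
        push_cast at this
        rw [this]; ring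
      have e1 : 2 * ξ ^ 3 * ω - 3 * ξ ^ 2 * ζ ^ 2 * l + l ^ 3 * (432 * α * ξ ^ 4) =
          -(144 * l * ξ ^ 4 * L ^ 2 * (w : K) ^ 2) := by
        rw [v1, ← hw']
        linear_combination 4 * l * ξ ^ 4 * c3
      rw [e1, neg_ne_zero]
      have hw1 : (w : K) ≠ 0 := by exact_mod_cast hw0.ne'
      exact mul_ne_zero (mul_ne_zero (mul_ne_zero (mul_ne_zero (by norm_num) hl0)
        (pow_ne_zero _ hξ0)) (pow_ne_zero _ hL0)) (pow_ne_zero _ hw1)
  have hNd := tN.natDegree_eq hNval
  have hN0 := tN.ne_zero hNval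
  have hPR0 : PR ≠ 0 := by
    intro h0
    rw [h0, mul_zero] at i6
    exact mul_ne_zero hΔ hN0 i6
  have h1 : (Dl * N).natDegree = D + (8 * m + 2 * D + e) := by
    rw [natDegree_mul hΔ hN0, hNd]
  have h2 : (2 * y ^ 3 * PR).natDegree = 9 * m + PR.natDegree := by
    rw [natDegree_mul (mul_ne_zero (by norm_num) (pow_ne_zero _ hy0)) hPR0,
      natDegree_mul (by norm_num) (pow_ne_zero _ hy0), natDegree_pow, hy]
    have : (2 : K[X]).natDegree = 0 := by simp
    omega
  rw [i6, h2] at h1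
  omega

/-- the case `δ = 0` -/
theorem case2 (A B x y : K[X]) (h m : ℕ) (hA : A.natDegree ≤ h) (hB : B.natDegree ≤ h)
    (hΔ : 4 * A ^ 3 + 27 * B ^ 2 ≠ 0) (hc : y ^ 2 = x ^ 3 + A * x + B)
    (hx : x.natDegree = 2 * m) (hy : y.natDegree = 3 * m) (hm : 6 * h < m)
    (hd : 3 * th A * B - 2 * A * th B = 0) : False := by
  set Dl : K[X] := 4 * A ^ 3 + 27 * B ^ 2 with hDl
  have hDd : th Dl = 12 * A ^ 2 * th A + 54 * B * th B := by
    rw [hDl, th_add, th_mul, th_mul, th_pow, th_pow, th_ofNat, th_ofNat]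
    push_cast
    ring
  have r1 := rel1 A B (th A) (th B) Dl (th Dl) 0 hDl hDd hd.symm
  have r2 := rel2 A B (th A) (th B) Dl (th Dl) 0 hDl hDd hd.symm
  have hcd : 2 * y * th y = (3 * x ^ 2 + A) * th x + th A * x + th B := by
    have h1 := congrArg th hc
    rw [th_add, th_add, th_pow, th_pow, th_mul] at h1
    push_cast at h1
    linear_combination h1
  have hx0 : x ≠ 0 := by
    rintro rfl
    simp at hx
    omega
  have hy0 : y ≠ 0 := by
    rintro rfl
    simp at hy
    omega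
  have hD3 : Dl.natDegree ≤ 3 * h := by
    refine (natDegree_add_le _ _).trans (max_le ?_ ?_)
    · refine natDegree_mul_le.trans ?_
      rw [natDegree_pow]
      have : (4 : K[X]).natDegree = 0 := by simp
      omega
    · refine natDegree_mul_le.trans ?_
      rw [natDegree_pow]
      have : (27 : K[X]).natDegree = 0 := by simp
      omega
  have tD0 : Top Dl Dl.natDegree Dl.leadingCoeff := Top.self Dl
  set D := Dl.natDegree with hDdef
  set L := Dl.leadingCoeff with hL
  have hL0 : L ≠ 0 := leadingCoeff_ne_zero.2 hΔ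
  have tx : Top x (2 * m) x.leadingCoeff := ⟨hx.le, by rw [leadingCoeff, hx]⟩
  set ξ := x.leadingCoeff with hξ
  have hξ0 : ξ ≠ 0 := leadingCoeff_ne_zero.2 hx0
  set x1 : K[X] := 12 * Dl * th x - 2 * th Dl * x with hx1
  set y1 : K[X] := 12 * Dl * th y - 3 * th Dl * y with hy1
  set Pa : K[X] := (6 * A * x ^ 2 - 9 * B * x + 4 * A ^ 2) * (2 * y1 - 108 * 0 * x * y) +
      (27 * B - 18 * A * x) * y * x1 with hPa
  have i1 := yy1 A B x y (th A) (th B) (th x) (th y) Dl (th Dl) 0 x1 y1 r1 r2 hc hcd hx1 hy1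
  have i2 := yPa A B x y Dl 0 x1 y1 x1 Pa hDl hc i1 (by ring) hPa
  have tx1 : Top x1 (D + 2 * m) (12 * L * ((2 * m : ℕ) * ξ) - 2 * (D * L) * ξ) :=
    ((tD0.smul 12).mul tx.th).sub ((tD0.th.smul 2).mul tx)
  have hx10 : x1 ≠ 0 := by
    apply tx1.ne_zero
    obtain ⟨u, hu⟩ : ∃ u, 12 * m = D + u := ⟨12 * m - D, by omega⟩
    have hu0 : 0 < u := by omega
    have hu' : (12 * m - D : K) = u := by
      have : ((12 * m : ℕ) : K) = ((D + u : ℕ) : K) := by rw [hu]
      push_cast at this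
      rw [this]; ring
    have e1 : 12 * L * ((2 * m : ℕ) * ξ) - 2 * (D * L) * ξ = 2 * (u : K) * L * ξ := by
      rw [← hu']; push_cast; ring
    rw [e1]
    have hu1 : (u : K) ≠ 0 := by exact_mod_cast hu0.ne'
    exact mul_ne_zero (mul_ne_zero (mul_ne_zero (by norm_num) hu1) hL0) hξ0
  have hPa0 : Pa ≠ 0 := by
    intro h0
    rw [h0, mul_zero] at i2
    exact mul_ne_zero hΔ hx10 i2.symm
  have h1 : (y * Pa).natDegree = 3 * m + Pa.natDegree := by
    rw [natDegree_mul hy0 hPa0, hy]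
  have h2 : (Dl * x1).natDegree ≤ D + (D + 2 * m) :=
    natDegree_mul_le.trans (add_le_add le_rfl tx1.1)
  rw [i2] at h1
  omega

/-- **Polynomial Hall–Lang bound**: polynomial points on Weierstrass curves over `K[t]`. -/
theorem poly_bound (A B x y : K[X]) (h : ℕ) (hA : A.natDegree ≤ h) (hB : B.natDegree ≤ h)
    (hΔ : 4 * A ^ 3 + 27 * B ^ 2 ≠ 0) (hc : y ^ 2 = x ^ 3 + A * x + B) :
    x.natDegree ≤ 22 * h := by
  by_contra hcon
  push_neg at hcon
  have h1 := deg_cubic A B x y (by omega) (by omega) hc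
  obtain ⟨m, hm⟩ : ∃ m, x.natDegree = 2 * m := ⟨x.natDegree / 2, by omega⟩
  have hy : y.natDegree = 3 * m := by omega
  by_cases hd : 3 * th A * B - 2 * A * th B = 0
  · exact case2 A B x y h m hA hB hΔ hc hm hy (by omega) hd
  · have := case1 A B x y h m hA hB hΔ hc hm hy (by omega) hd
    omega

end Pool.Agent.K1H95.HL
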