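import Mathlib
import Pool.Agent.K1H95.HL.Poly
import Pool.Agent.K1H95.HL.Norm

/-!
# From polynomials to integers: integral points all of whose data are values at a large `T`
of polynomials with small coefficients
-/

set_option autoImplicit false

open Polynomial

namespace Pool.Agent.K1H95.HL

/-- formal part: degree of the abscissa polynomial -/
theorem transfer_formal (T D : ℕ) (hD : 1 ≤ D) (U V Aq Bq : ℤ[X]) (x y A B : ℤ)
    (hU : (D : ℤ) * x = U.eval (T : ℤ)) (hV : (D : ℤ) * y = V.eval (T : ℤ))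
    (hA : (D : ℤ) * A = Aq.eval (T : ℤ))
    (hBq : Bq = C (D : ℤ) * V ^ 2 - U ^ 3 - C (D : ℤ) * Aq * U)
    (hc : y ^ 2 = x ^ 3 + A * x + B) (hΔ : 4 * A ^ 3 + 27 * B ^ 2 ≠ 0)
    (hUV : 1 ≤ U.natDegree ∨ 1 ≤ V.natDegree) :
    (D : ℤ) ^ 3 * B = Bq.eval (T : ℤ) ∧
    U.natDegree ≤ 22 * max Aq.natDegree Bq.natDegree ∧
    1 ≤ max Aq.natDegree Bq.natDegree := by
  have hB : (D : ℤ) ^ 3 * B = Bq.eval (T : ℤ) := by
    rw [hBq]
    simp only [eval_sub, eval_mul, eval_pow, eval_C]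
    rw [← hU, ← hV, ← hA]
    linear_combination (D : ℤ) ^ 3 * hc.symm
  refine ⟨hB, ?_⟩
  have hDq : (D : ℚ) ≠ 0 := by
    have : D ≠ 0 := by omega
    exact_mod_cast this
  let φ : ℤ →+* ℚ := Int.castRingHom ℚ
  have hφ : Function.Injective φ := Int.cast_injective
  have hCD : (C ((D : ℚ)⁻¹) * C (D : ℚ) : ℚ[X]) = 1 := by
    rw [← C_mul, inv_mul_cancel₀ hDq, C_1]
  have hinv : ((D : ℚ)⁻¹) ≠ 0 := inv_ne_zero hDq
  set X' : ℚ[X] := C ((D : ℚ)⁻¹) * U.map φ with hX'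
  set Y' : ℚ[X] := C ((D : ℚ)⁻¹) * V.map φ with hY'
  set A' : ℚ[X] := C ((D : ℚ)⁻¹) * Aq.map φ with hA'
  set B' : ℚ[X] := C (((D : ℚ)⁻¹) ^ 3) * Bq.map φ with hB'
  have dX : X'.natDegree = U.natDegree := by
    rw [hX', natDegree_C_mul hinv, natDegree_map_eq_of_injective hφ]
  have dY : Y'.natDegree = V.natDegree := by
    rw [hY', natDegree_C_mul hinv, natDegree_map_eq_of_injective hφ]
  have dA : A'.natDegree = Aq.natDegree := by
    rw [hA', natDegree_C_mul hinv, natDegree_map_eq_of_injective hφ]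
  have dB : B'.natDegree = Bq.natDegree := by
    rw [hB', natDegree_C_mul (pow_ne_zero _ hinv), natDegree_map_eq_of_injective hφ]
  have hcur : Y' ^ 2 = X' ^ 3 + A' * X' + B' := by
    have h1 : Bq.map φ = C (D : ℚ) * (V.map φ) ^ 2 - (U.map φ) ^ 3 -
        C (D : ℚ) * Aq.map φ * U.map φ := by
      rw [hBq]
      simp [Polynomial.map_sub, Polynomial.map_mul, Polynomial.map_pow]
    rw [hB', h1, hX', hY', hA', C_pow]
    linear_combination (-(C ((D : ℚ)⁻¹)) ^ 2 * (V.map φ) ^ 2 +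
      (C ((D : ℚ)⁻¹)) ^ 2 * Aq.map φ * U.map φ) * hCD
  have hev : ∀ (P : ℤ[X]) (c : ℚ), (C c * P.map φ).eval (T : ℚ) =
      c * ((P.eval (T : ℤ) : ℤ) : ℚ) := by
    intro P c
    rw [eval_mul, eval_C]
    congr 1
    have : (T : ℚ) = φ (T : ℤ) := by simp [φ]
    rw [this, eval_map, eval₂_at_apply]
    rfl
  have hΔ' : 4 * A' ^ 3 + 27 * B' ^ 2 ≠ 0 := by
    intro h0
    have h1 : (4 * A' ^ 3 + 27 * B' ^ 2).eval (T : ℚ) = 4 * (A : ℚ) ^ 3 + 27 * (B : ℚ) ^ 2 := by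
      have h2 : A'.eval (T : ℚ) = A := by
        rw [hA', hev, ← hA]
        push_cast
        field_simp
      have h3 : B'.eval (T : ℚ) = B := by
        rw [hB', hev, ← hB]
        push_cast
        field_simp
      have h4 : (4 : ℚ[X]).eval (T : ℚ) = 4 := by simp
      have h5 : (27 : ℚ[X]).eval (T : ℚ) = 27 := by simp
      rw [eval_add, eval_mul, eval_mul, eval_pow, eval_pow, h2, h3, h4, h5]
    rw [h0, eval_zero] at h1
    apply hΔ
    exact_mod_cast h1.symm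
  have hmain := poly_bound A' B' X' Y' (max Aq.natDegree Bq.natDegree)
    (by rw [dA]; exact le_max_left _ _) (by rw [dB]; exact le_max_right _ _) hΔ' hcur
  rw [dX] at hmain
  refine ⟨hmain, ?_⟩
  by_contra h0
  have h0' : max Aq.natDegree Bq.natDegree = 0 := by omega
  have h1 : Aq.natDegree = 0 := by have := le_max_left Aq.natDegree Bq.natDegree; omega
  have h2 : Bq.natDegree = 0 := by have := le_max_right Aq.natDegree Bq.natDegree; omega
  rw [h0'] at hmain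
  have h3 : U.natDegree = 0 := by omega
  have h4 : (X' ^ 3 + A' * X' + B').natDegree ≤ 0 := by
    refine (natDegree_add_le _ _).trans (max_le ((natDegree_add_le _ _).trans (max_le ?_ ?_)) ?_)
    · refine natDegree_pow_le.trans ?_
      rw [dX, h3]
    · refine natDegree_mul_le.trans ?_
      rw [dX, dA, h1, h3]
    · rw [dB, h2]
  rw [← hcur, natDegree_pow, dY] at h4
  omega

theorem transfer (ε : ℝ) (hε : 0 < ε) : ∃ J : ℕ, 1 ≤ J ∧
    ∀ (S : ℝ) (T D : ℕ) (U V Aq : ℤ[X]) (x y A B : ℤ), 3 ≤ S → S ^ J ≤ T → 1 ≤ D → (D : ℝ) ≤ S →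
      nrm U ≤ S → nrm V ≤ S → nrm Aq ≤ S →
      (D : ℤ) * x = U.eval (T : ℤ) → (D : ℤ) * y = V.eval (T : ℤ) →
      (D : ℤ) * A = Aq.eval (T : ℤ) →
      y ^ 2 = x ^ 3 + A * x + B → 4 * A ^ 3 + 27 * B ^ 2 ≠ 0 →
      (1 ≤ U.natDegree ∨ 1 ≤ V.natDegree) →
      |(x : ℝ)| ≤ (max |(A : ℝ)| |(B : ℝ)|) ^ (22 + ε) := by
  obtain ⟨J0, hJ0⟩ := exists_nat_ge (89 / ε)
  refine ⟨J0 + 5, by omega, ?_⟩
  intro S T D U V Aq x y A B hS hT hD1 hDS hU hV hAn hUe hVe hAe hc hΔ hUV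
  set Bq : ℤ[X] := C (D : ℤ) * V ^ 2 - U ^ 3 - C (D : ℤ) * Aq * U with hBq
  obtain ⟨hB, hdeg, hpos⟩ := transfer_formal T D hD1 U V Aq Bq x y A B hUe hVe hAe hBq hc hΔ hUV
  set h := max Aq.natDegree Bq.natDegree with hh
  have hS0 : 0 < S := by linarith
  have hS1 : 1 ≤ S := by linarith
  have hDR : (1 : ℝ) ≤ D := by exact_mod_cast hD1
  have hTS : S ^ 5 ≤ T := (pow_le_pow_right₀ hS1 (by omega)).trans hT
  have hT1R : (1 : ℝ) ≤ T := (one_le_pow₀ hS1).trans hTS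
  have hT1 : 1 ≤ T := by exact_mod_cast hT1R
  have hT0 : (0 : ℝ) < T := by linarith
  have hCD : nrm (C (D : ℤ)) ≤ S := by
    refine (nrm_C_le _).trans ?_
    push_cast
    rw [abs_of_nonneg (by positivity)]
    exact hDS
  have hBn : nrm Bq ≤ 3 * S ^ 3 := by
    have h1 : nrm (C (D : ℤ) * V ^ 2) ≤ S * S ^ 2 :=
      (nrm_mul_le _ _).trans (mul_le_mul hCD ((nrm_pow_le _ _).trans
        (pow_le_pow_left₀ (nrm_nonneg _) hV 2)) (nrm_nonneg _) hS0.le)
    have h2 : nrm (U ^ 3) ≤ S ^ 3 :=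
      (nrm_pow_le _ _).trans (pow_le_pow_left₀ (nrm_nonneg _) hU 3)
    have h3 : nrm (C (D : ℤ) * Aq * U) ≤ S * S * S :=
      (nrm_mul_le _ _).trans (mul_le_mul ((nrm_mul_le _ _).trans
        (mul_le_mul hCD hAn (nrm_nonneg _) hS0.le)) hU (nrm_nonneg _) (by positivity))
    have h4 := nrm_sub_le (C (D : ℤ) * V ^ 2 - U ^ 3) (C (D : ℤ) * Aq * U)
    have h5 := nrm_sub_le (C (D : ℤ) * V ^ 2) (U ^ 3)
    rw [hBq]
    nlinarith
  obtain ⟨g, hg⟩ : ∃ g, h = g + 1 := ⟨h - 1, by omega⟩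
  set Hm : ℝ := max |(A : ℝ)| |(B : ℝ)| with hHm
  have hTg : 0 < (T : ℝ) ^ g := by positivity
  -- lower bound for the height
  have key : (T : ℝ) ^ (g + 1) ≤ S ^ 4 * Hm := by
    have hmono : ∀ c : ℝ, 0 ≤ c → 2 * c ≤ T → (T : ℝ) ^ (g + 1) / 2 ≤
        (T : ℝ) ^ (g + 1) - c * (T : ℝ) ^ g := by
      intro c hc0 hc1
      rw [pow_succ]
      nlinarith
    have hS5 : 2 * (3 * S ^ 3) ≤ T := by
      refine le_trans ?_ hTS
      have h3 : (0 : ℝ) ≤ S ^ 3 := by positivity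
      have h9 : (9 : ℝ) ≤ S ^ 2 := by
        have := pow_le_pow_left₀ (by norm_num) hS 2
        linarith
      have e : S ^ 5 = S ^ 2 * S ^ 3 := by ring
      rw [e]
      have := mul_le_mul_of_nonneg_right h9 h3
      linarith
    have hS1' : 2 * S ≤ T := by
      refine le_trans ?_ hS5
      have h2 : (1 : ℝ) ≤ S ^ 2 := one_le_pow₀ hS1
      have e : S ^ 3 = S ^ 2 * S := by ring
      rw [e]
      have := mul_le_mul_of_nonneg_right h2 hS0.le
      linarith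
    rcases le_total Bq.natDegree Aq.natDegree with hle | hle
    · have hA1 : Aq.natDegree = g + 1 := by rw [← hg, hh, max_eq_left hle]
      have h1 := eval_lower Aq T hT1 g hA1
      have h2 : (T : ℝ) ^ (g + 1) / 2 ≤ |((Aq.eval (T : ℤ) : ℤ) : ℝ)| := by
        refine (hmono S hS0.le hS1').trans (le_trans ?_ h1)
        nlinarith
      rw [← hAe] at h2
      push_cast at h2
      rw [abs_mul, abs_of_nonneg (by positivity : (0 : ℝ) ≤ D)] at h2
      have h3 : |(A : ℝ)| ≤ Hm := le_max_left _ _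
      have h4 : (D : ℝ) * |(A : ℝ)| ≤ S * Hm :=
        mul_le_mul hDS h3 (abs_nonneg _) hS0.le
      have h5 : S * 2 ≤ S ^ 4 := by nlinarith [pow_le_pow_left₀ (by norm_num) hS 3]
      have h6 : 0 ≤ Hm := (abs_nonneg _).trans h3
      nlinarith
    · have hB1 : Bq.natDegree = g + 1 := by rw [← hg, hh, max_eq_right hle]
      have h1 := eval_lower Bq T hT1 g hB1
      have h2 : (T : ℝ) ^ (g + 1) / 2 ≤ |((Bq.eval (T : ℤ) : ℤ) : ℝ)| := by
        refine (hmono (3 * S ^ 3) (by positivity) hS5).trans (le_trans ?_ h1)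
        nlinarith
      rw [← hB] at h2
      push_cast at h2
      rw [abs_mul, abs_of_nonneg (by positivity : (0 : ℝ) ≤ (D : ℝ) ^ 3)] at h2
      have h3 : |(B : ℝ)| ≤ Hm := le_max_right _ _
      have h4 : (D : ℝ) ^ 3 * |(B : ℝ)| ≤ S ^ 3 * Hm :=
        mul_le_mul (pow_le_pow_left₀ (by positivity) hDS 3) h3 (abs_nonneg _) (by positivity)
      have h5 : S ^ 3 * 2 ≤ S ^ 4 := by nlinarith [(by positivity : (0 : ℝ) ≤ S ^ 3)]
      have h6 : 0 ≤ Hm := (abs_nonneg _).trans h3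
      nlinarith
  have hTpos : (0 : ℝ) < (T : ℝ) ^ (g + 1) := by positivity
  have hHm0 : 0 < Hm := by
    by_contra h0
    push Not at h0
    have : S ^ 4 * Hm ≤ 0 := mul_nonpos_of_nonneg_of_nonpos (by positivity) h0
    linarith
  -- the height is a large power of `S`
  have hHS : S ^ (J0 + 1) ≤ Hm := by
    have h1 : (T : ℝ) ≤ (T : ℝ) ^ (g + 1) := by
      rw [pow_succ]
      have : (1 : ℝ) ≤ (T : ℝ) ^ g := one_le_pow₀ hT1R
      nlinarith
    have h2 : S ^ 4 * S ^ (J0 + 1) ≤ S ^ 4 * Hm := by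
      refine le_trans ?_ (hT.trans (h1.trans key))
      rw [← pow_add]
      exact le_of_eq (by ring_nf)
    exact le_of_mul_le_mul_left h2 (by positivity)
  have hHε : S ^ 89 ≤ Hm ^ ε := by
    have h1 : (S ^ (J0 + 1)) ^ ε ≤ Hm ^ ε :=
      Real.rpow_le_rpow (by positivity) hHS hε.le
    refine le_trans ?_ h1
    rw [← Real.rpow_natCast S (J0 + 1), ← Real.rpow_mul hS0.le, ← Real.rpow_natCast S 89]
    apply Real.rpow_le_rpow_of_exponent_le hS1
    rw [div_le_iff₀ hε] at hJ0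
    push_cast
    rw [add_mul, one_mul]
    linarith
  -- the upper bound
  have hx1 : |(x : ℝ)| ≤ S * ((T : ℝ) ^ (g + 1)) ^ 22 := by
    have h1 := abs_eval_le U T hT1 (22 * h) hdeg
    rw [← hUe] at h1
    push_cast at h1
    rw [abs_mul, abs_of_nonneg (by positivity : (0 : ℝ) ≤ D)] at h1
    have h2 : |(x : ℝ)| ≤ D * |(x : ℝ)| := by nlinarith [abs_nonneg (x : ℝ)]
    refine h2.trans (h1.trans ?_)
    rw [hg, mul_comm 22, pow_mul]
    exact mul_le_mul_of_nonneg_right hU (by positivity)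
  calc |(x : ℝ)| ≤ S * ((T : ℝ) ^ (g + 1)) ^ 22 := hx1
    _ ≤ S * (S ^ 4 * Hm) ^ 22 :=
        mul_le_mul_of_nonneg_left (pow_le_pow_left₀ hTpos.le key 22) hS0.le
    _ = S ^ 89 * Hm ^ 22 := by ring
    _ ≤ Hm ^ ε * Hm ^ 22 := mul_le_mul_of_nonneg_right hHε (by positivity)
    _ = Hm ^ (22 + ε) := by
        rw [← Real.rpow_natCast Hm 22, ← Real.rpow_add hHm0]
        congr 1
        push_cast
        ring

end Pool.Agent.K1H95.HL
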