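import Mathlib
import Pool.Agent.K1H95.HL.Transfer
import Pool.Agent.K1H95.HL.Level2

/-!
# Integral points with two sparse coordinates
-/

set_option autoImplicit false

open Polynomial

namespace Pool.Agent.K1H95.HL

theorem nm_le (c : ℤ →₀ ℤ) (r W : ℕ) (hr : c.support.card ≤ r) (hW : ∀ n, |c n| ≤ W) :
    nm c ≤ ((r * W : ℕ) : ℝ) := by
  unfold nm
  calc ∑ n ∈ c.support, |(c n : ℝ)| ≤ ∑ _n ∈ c.support, (W : ℝ) :=
        Finset.sum_le_sum fun n _ => by exact_mod_cast hW n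
    _ = c.support.card * (W : ℝ) := by rw [Finset.sum_const, nsmul_eq_mul]
    _ ≤ (r : ℝ) * W := mul_le_mul_of_nonneg_right (by exact_mod_cast hr) (by positivity)
    _ = _ := by push_cast; rfl

theorem height_one (A B : ℤ) (h : 4 * A ^ 3 + 27 * B ^ 2 ≠ 0) :
    1 ≤ max |(A : ℝ)| |(B : ℝ)| := by
  by_cases hA : A = 0
  · have hB : B ≠ 0 := by
      rintro rfl
      apply h
      rw [hA]; norm_num
    have : 1 ≤ |B| := Int.one_le_abs hB
    exact le_max_of_le_right (by exact_mod_cast this)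
  · have : 1 ≤ |A| := Int.one_le_abs hA
    exact le_max_of_le_left (by exact_mod_cast this)

theorem card_filter_lt (c : ℤ →₀ ℤ) (p : ℤ → Prop) [DecidablePred p] (n : ℤ)
    (hn : n ∈ c.support) (hp : p n) : (c.filter fun n => ¬ p n).support.card < c.support.card := by
  rw [Finsupp.support_filter]
  apply Finset.card_lt_card
  rw [Finset.filter_ssubset]
  exact ⟨n, hn, not_not.2 hp⟩

/-- a minimal representation -/
theorem minrep (b r : ℕ) (R : ℝ) (u v : ℚ) (c0 d0 : ℤ →₀ ℤ) (hc0 : c0.support.card ≤ r)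
    (hd0 : d0.support.card ≤ r) (hcR : nm c0 ≤ R) (hdR : nm d0 ≤ R) (hu : ev b c0 = u)
    (hv : ev b d0 = v) :
    ∃ c d : ℤ →₀ ℤ, (c.support ∪ d.support).card ≤ 2 * r ∧ nm c ≤ R ∧ nm d ≤ R ∧
      ev b c = u ∧ ev b d = v ∧
      (∀ (p : ℤ → Prop) [DecidablePred p], ev b (c.filter p) = 0 → ∀ n ∈ c.support, ¬ p n) ∧
      (∀ (p : ℤ → Prop) [DecidablePred p], ev b (d.filter p) = 0 → ∀ n ∈ d.support, ¬ p n) := by
  classical
  have hex : ∃ μ : ℕ, ∃ c d : ℤ →₀ ℤ, c.support.card + d.support.card = μ ∧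
      nm c ≤ R ∧ nm d ≤ R ∧ ev b c = u ∧ ev b d = v :=
    ⟨_, c0, d0, rfl, hcR, hdR, hu, hv⟩
  obtain ⟨c, d, hμ, hcn, hdn, hx, hy⟩ := Nat.find_spec hex
  have hμle : Nat.find hex ≤ 2 * r := by
    refine (Nat.find_min' hex ⟨c0, d0, rfl, hcR, hdR, hu, hv⟩).trans ?_
    omega
  refine ⟨c, d, ?_, hcn, hdn, hx, hy, ?_, ?_⟩
  · have := Finset.card_union_le c.support d.support
    omega
  · intro p _ hp n hn hpn
    have h1 := ev_filter_add b c p
    rw [hp, zero_add] at h1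
    have h2 := card_filter_lt c p n hn hpn
    have h3 := Nat.find_min' hex ⟨c.filter fun n => ¬ p n, d, rfl,
      (nm_filter_le _ _).trans hcn, hdn, h1.trans hx, hy⟩
    omega
  · intro p _ hp n hn hpn
    have h1 := ev_filter_add b d p
    rw [hp, zero_add] at h1
    have h2 := card_filter_lt d p n hn hpn
    have h3 := Nat.find_min' hex ⟨c, d.filter fun n => ¬ p n, rfl,
      hcn, (nm_filter_le _ _).trans hdn, hx, h1.trans hy⟩
    omega

/-- large exponents -/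
theorem large (r : ℕ) (ε : ℝ) (hε : 0 < ε) : ∃ Cm : ℕ, ∀ (b N a : ℕ) (q : ℤ)
    (c d : ℤ →₀ ℤ) (x y A B : ℤ), 2 ≤ b → 1 ≤ a → Cm * a ≤ N →
    (c.support ∪ d.support).card ≤ 2 * r → (∀ n ∈ c.support ∪ d.support, |n| ≤ N) →
    (∃ n ∈ c.support ∪ d.support, |n| = N) →
    nm c ≤ (b : ℝ) ^ a → nm d ≤ (b : ℝ) ^ a → 1 ≤ q → (q : ℝ) ≤ (b : ℝ) ^ a →
    ev b c = q * x → ev b d = q * y →
    (∀ (p : ℤ → Prop) [DecidablePred p], ev b (c.filter p) = 0 → ∀ n ∈ c.support, ¬ p n) →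
    (∀ (p : ℤ → Prop) [DecidablePred p], ev b (d.filter p) = 0 → ∀ n ∈ d.support, ¬ p n) →
    y ^ 2 = x ^ 3 + A * x + B → 4 * A ^ 3 + 27 * B ^ 2 ≠ 0 →
    |(x : ℝ)| ≤ (max |(A : ℝ)| |(B : ℝ)|) ^ (22 + ε) := by
  classical
  obtain ⟨J, hJ1, hJ⟩ := transfer ε hε
  have hL := fun h : ℕ => level (2 * r) (max J 6) (h + 1) (le_max_right _ _) (by omega)
  choose h' Cf hh' hCf hlev using hL
  let hs : ℕ → ℕ := fun i => Nat.rec 0 (fun _ t => h' t - 1) i
  have hs1 : ∀ i, hs (i + 1) + 1 = h' (hs i) := fun i => by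
    have h1 : hs (i + 1) = h' (hs i) - 1 := rfl
    have := hh' (hs i)
    omega
  have hmono : Monotone hs := by
    apply monotone_nat_of_le_succ
    intro i
    have := hs1 i
    have := hh' (hs i)
    omega
  set Cm := ∑ i ∈ Finset.range (2 * r + 1), Cf (hs i) with hCm
  have hCle : ∀ i ∈ Finset.range (2 * r + 1), Cf (hs i) ≤ Cm := fun i hi =>
    Finset.single_le_sum (f := fun i => Cf (hs i)) (fun _ _ => Nat.zero_le _) hi
  refine ⟨Cm, ?_⟩
  intro b N a q c d x y A B hb ha1 hNC hcard hsupN hmaxN hcn hdn hq hqa hx hy hminc hmind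
    hcur hΔ
  set Hm : ℝ := max |(A : ℝ)| |(B : ℝ)| with hHm
  have hH1 : 1 ≤ Hm := height_one A B hΔ
  have hHm0 : 0 ≤ Hm := by linarith
  have hcardc : c.support.card ≤ 2 * r :=
    (Finset.card_le_card Finset.subset_union_left).trans hcard
  have hHpow : Hm ≤ Hm ^ (22 + ε) := by
    calc Hm = Hm ^ (1 : ℝ) := (Real.rpow_one _).symm
      _ ≤ _ := Real.rpow_le_rpow_of_exponent_le hH1 (by linarith)
  by_cases hHx : Hm ^ 2 ≤ |(x : ℝ)|
  swap
  · push Not at hHx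
    calc |(x : ℝ)| ≤ Hm ^ 2 := hHx.le
      _ = Hm ^ (2 : ℝ) := by norm_cast
      _ ≤ Hm ^ (22 + ε) := Real.rpow_le_rpow_of_exponent_le hH1 (by linarith)
  -- the pigeonhole principle
  have hwin : ∃ i ∈ Finset.range (2 * r + 1), ∀ l ∈ c.support, (∀ n ∈ c.support, n ≤ l) →
      ∀ n ∈ c.support, (l - n) * (h' (hs i) : ℤ) ≤ N ∨ (N : ℤ) < (l - n) * ((hs i + 1 : ℕ) : ℤ) := by
    by_contra hcon
    push Not at hcon
    choose! l hl hlmax n hn hn1 hn2 using hcon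
    have hmaps : ∀ i ∈ Finset.range (2 * r + 1), n i ∈ c.support := hn
    have hinj : ∀ i ∈ Finset.range (2 * r + 1), ∀ j ∈ Finset.range (2 * r + 1), i < j →
        n i ≠ n j := by
      intro i hi j hj hij heq
      have hll : l i = l j := le_antisymm (hlmax j hj _ (hl i hi)) (hlmax i hi _ (hl j hj))
      have h1 := hn1 i hi
      have h2 := hn2 j hj
      rw [hll, heq, ← hs1 i] at h1
      have h3 : ((hs (i + 1) + 1 : ℕ) : ℤ) ≤ ((hs j + 1 : ℕ) : ℤ) := by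
        have := hmono (show i + 1 ≤ j from hij)
        exact_mod_cast Nat.succ_le_succ this
      have h4 : 0 ≤ l j - n j := by
        have := hlmax j hj _ (hn j hj)
        omega
      have h5 := mul_le_mul_of_nonneg_left h3 h4
      linarith
    have hle := Finset.card_le_card_of_injOn n hmaps (by
      intro i hi j hj heq
      by_contra hne
      rcases lt_or_gt_of_ne hne with h | h
      · exact hinj i hi j hj h heq
      · exact hinj j hj i hi h heq.symm)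
    rw [Finset.card_range] at hle
    omega
  obtain ⟨i, hi, hwin⟩ := hwin
  have hNi : Cf (hs i) * a ≤ N := (Nat.mul_le_mul_right _ (hCle i hi)).trans hNC
  rcases hlev (hs i) b N a q c d x y A B hb ha1 hNi hcard hsupN hmaxN hcn hdn
    hq hqa hx hy hminc hmind hwin hcur hHx hH1 with h | h
  · exact h.trans hHpow
  · obtain ⟨S, T, D, U, V, Aq, hS3, hST, hD1, hDS, hU, hV, hAq, hUe, hVe, hAe, hUV⟩ := h
    have hSJ : S ^ J ≤ T := (pow_le_pow_right₀ (by linarith) (le_max_left _ _)).trans hST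
    exact hJ S T D U V Aq x y A B hS3 hSJ hD1 hDS hU hV hAq hUe hVe hAe hcur hΔ hUV

/-- small exponents in a large base -/
theorem small (Kd : ℕ) (ε : ℝ) (hε : 0 < ε) : ∃ Λ : ℕ, 1 ≤ Λ ∧
    ∀ (b N : ℕ) (R : ℝ) (q : ℤ) (c d : ℤ →₀ ℤ) (x y A B : ℤ), 2 ≤ b → 1 ≤ N → N ≤ Kd →
    2 ≤ R → R ^ Λ ≤ b → (∀ n ∈ c.support ∪ d.support, |n| ≤ N) →
    (∃ n ∈ c.support ∪ d.support, |n| = N) →
    nm c ≤ R → nm d ≤ R → 1 ≤ q → (q : ℝ) ≤ R →
    ev b c = q * x → ev b d = q * y →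
    (∀ (p : ℤ → Prop) [DecidablePred p], ev b (c.filter p) = 0 → ∀ n ∈ c.support, ¬ p n) →
    (∀ (p : ℤ → Prop) [DecidablePred p], ev b (d.filter p) = 0 → ∀ n ∈ d.support, ¬ p n) →
    y ^ 2 = x ^ 3 + A * x + B → 4 * A ^ 3 + 27 * B ^ 2 ≠ 0 →
    |(x : ℝ)| ≤ (max |(A : ℝ)| |(B : ℝ)|) ^ (22 + ε) := by
  classical
  obtain ⟨J, hJ1, hJ⟩ := transfer ε hε
  obtain ⟨Λ, hΛ⟩ := level_small Kd (max J 6) (le_max_right _ _)
  refine ⟨max Λ 1, le_max_right _ _, ?_⟩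
  intro b N R q c d x y A B hb hN1 hNK hR hRb hsupN hmaxN hcW hdW hq hqa hx hy hminc hmind
    hcur hΔ
  set Hm : ℝ := max |(A : ℝ)| |(B : ℝ)| with hHm
  have hH1 : 1 ≤ Hm := height_one A B hΔ
  have hHpow : Hm ≤ Hm ^ (22 + ε) := by
    calc Hm = Hm ^ (1 : ℝ) := (Real.rpow_one _).symm
      _ ≤ _ := Real.rpow_le_rpow_of_exponent_le hH1 (by linarith)
  by_cases hHx : Hm ^ 2 ≤ |(x : ℝ)|
  swap
  · push Not at hHx
    calc |(x : ℝ)| ≤ Hm ^ 2 := hHx.le
      _ = Hm ^ (2 : ℝ) := by norm_cast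
      _ ≤ Hm ^ (22 + ε) := Real.rpow_le_rpow_of_exponent_le hH1 (by linarith)
  rcases hΛ b N R q c d x y A B hb hN1 hNK hR
    ((pow_le_pow_right₀ (by linarith) (le_max_left _ _)).trans hRb) hsupN hmaxN hcW hdW hq hqa
    hx hy hminc hmind hcur hHx hH1 with h | h
  · exact h.trans hHpow
  · obtain ⟨S, T, D, U, V, Aq, hS3, hST, hD1, hDS, hU, hV, hAq, hUe, hVe, hAe, hUV⟩ := h
    have hSJ : S ^ J ≤ T := (pow_le_pow_right₀ (by linarith) (le_max_left _ _)).trans hST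
    exact hJ S T D U V Aq x y A B hS3 hSJ hD1 hDS hU hV hAq hUe hVe hAe hcur hΔ hUV

/-- **Hall–Lang with an absolute exponent for points with two sparse coordinates**, uniformly in
the base `b` -/
theorem sparse_both (r : ℕ) (ε : ℝ) (hε : 0 < ε) : ∃ C : ℕ, ∀ (b W : ℕ) (q : ℤ)
    (c d : ℤ →₀ ℤ) (x y A B : ℤ), 2 ≤ b → 1 ≤ W → 1 ≤ q → q ≤ W →
    c.support.card ≤ r → d.support.card ≤ r → (∀ n, |c n| ≤ W) → (∀ n, |d n| ≤ W) →
    ev b c = q * x → ev b d = q * y → y ^ 2 = x ^ 3 + A * x + B →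
    4 * A ^ 3 + 27 * B ^ 2 ≠ 0 →
    |(x : ℝ)| ≤ (2 * (W : ℝ)) ^ C * (max |(A : ℝ)| |(B : ℝ)|) ^ (22 + ε) := by
  classical
  obtain ⟨Cm, hlarge⟩ := large r ε hε
  obtain ⟨Λ, hΛ1, hsmall⟩ := small Cm ε hε
  refine ⟨(r + 2) * ((Λ + 1) * (Cm + 1)), ?_⟩
  intro b W q c0 d0 x y A B hb hW hq hqW hc0 hd0 hcW0 hdW0 hx0 hy0 hcur hΔ
  set Hm : ℝ := max |(A : ℝ)| |(B : ℝ)| with hHm
  have hH1 : 1 ≤ Hm := height_one A B hΔ
  have hHm0 : 0 ≤ Hm := by linarith
  have hb1 : (1 : ℝ) ≤ b := by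
    have : 1 ≤ b := by omega
    exact_mod_cast this
  have hW1 : (1 : ℝ) ≤ W := by exact_mod_cast hW
  have hHrp : (1 : ℝ) ≤ Hm ^ (22 + ε) := Real.one_le_rpow hH1 (by linarith)
  obtain ⟨R0, hR0⟩ : ∃ R0 : ℕ, R0 = (r + 1) * W + 1 := ⟨_, rfl⟩
  have hR02 : 2 ≤ R0 := by
    have : 1 * 1 ≤ (r + 1) * W := Nat.mul_le_mul (by omega) hW
    omega
  have hrW : ((r * W : ℕ) : ℝ) ≤ (R0 : ℝ) := by
    have : r * W ≤ R0 := by rw [hR0]; nlinarith
    exact_mod_cast this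
  have hR1 : (1 : ℝ) ≤ R0 := by
    have : 1 ≤ R0 := by omega
    exact_mod_cast this
  have hR2 : (2 : ℝ) ≤ R0 := by exact_mod_cast hR02
  have hRW : (R0 : ℝ) ≤ (2 * (W : ℝ)) ^ (r + 2) := by
    have h1 : R0 ≤ (r + 2) * W := by rw [hR0]; nlinarith
    have h2 : (r + 2) * W ≤ (2 * W) ^ (r + 2) := by
      calc (r + 2) * W ≤ 2 ^ (r + 2) * W ^ (r + 2) :=
            Nat.mul_le_mul (Nat.lt_two_pow_self).le (Nat.le_self_pow (by omega) W)
        _ = (2 * W) ^ (r + 2) := by rw [mul_pow]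
    exact_mod_cast h1.trans h2
  have hfac1 : (1 : ℝ) ≤ (2 * (W : ℝ)) := by linarith
  have hfac : (1 : ℝ) ≤ (2 * (W : ℝ)) ^ ((r + 2) * ((Λ + 1) * (Cm + 1))) := one_le_pow₀ hfac1
  -- it suffices to bound by a power of `R0`
  suffices hsuff : |(x : ℝ)| ≤ (R0 : ℝ) ^ ((Λ + 1) * (Cm + 1)) ∨ |(x : ℝ)| ≤ Hm ^ (22 + ε) by
    rcases hsuff with h | h
    · calc |(x : ℝ)| ≤ (R0 : ℝ) ^ ((Λ + 1) * (Cm + 1)) := h
        _ ≤ ((2 * (W : ℝ)) ^ (r + 2)) ^ ((Λ + 1) * (Cm + 1)) :=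
          pow_le_pow_left₀ (by positivity) hRW _
        _ = (2 * (W : ℝ)) ^ ((r + 2) * ((Λ + 1) * (Cm + 1))) := by rw [← pow_mul]
        _ ≤ _ := le_mul_of_one_le_right (by positivity) hHrp
    · exact h.trans (le_mul_of_one_le_left (by positivity) hfac)
  obtain ⟨c, d, hcard, hcn, hdn, hx, hy, hminc, hmind⟩ := minrep b r (R0 : ℝ) (q * x) (q * y)
    c0 d0 hc0 hd0 ((nm_le c0 r W hc0 hcW0).trans hrW) ((nm_le d0 r W hd0 hdW0).trans hrW) hx0 hy0
  have hqR : (1 : ℝ) ≤ q := by exact_mod_cast hq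
  have hqR0 : (q : ℝ) ≤ R0 := by
    have h1 : (q : ℝ) ≤ W := by exact_mod_cast hqW
    have h2 : W ≤ R0 := by rw [hR0]; nlinarith
    have h3 : (W : ℝ) ≤ R0 := by exact_mod_cast h2
    linarith
  rcases Finset.eq_empty_or_nonempty (c.support ∪ d.support) with hemp | hne
  · have hce : c.support = ∅ := by
      rw [Finset.union_eq_empty] at hemp
      exact hemp.1
    have h1 : ev b c = 0 := by unfold ev; rw [hce]; simp
    rw [h1] at hx
    have h2 : (x : ℚ) = 0 := by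
      rcases mul_eq_zero.1 hx.symm with h | h
      · exfalso
        have : q = 0 := by exact_mod_cast h
        omega
      · exact h
    have h3 : x = 0 := by exact_mod_cast h2
    right
    rw [h3]
    simp only [Int.cast_zero, abs_zero]
    positivity
  obtain ⟨n1, hn1, hn1N⟩ := Finset.exists_mem_eq_sup _ hne Int.natAbs
  obtain ⟨N, hN⟩ : ∃ N, N = (c.support ∪ d.support).sup Int.natAbs := ⟨_, rfl⟩
  rw [← hN] at hn1N
  have hsupN : ∀ n ∈ c.support ∪ d.support, |n| ≤ (N : ℤ) := by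
    intro n hn
    have : n.natAbs ≤ N := by rw [hN]; exact Finset.le_sup (f := Int.natAbs) hn
    rw [Int.abs_eq_natAbs]
    exact_mod_cast this
  have hmaxN : ∃ n ∈ c.support ∪ d.support, |n| = (N : ℤ) :=
    ⟨n1, hn1, by rw [Int.abs_eq_natAbs, hn1N]⟩
  have hxN : |(x : ℝ)| ≤ (R0 : ℝ) * (b : ℝ) ^ N := by
    have h4 := abs_ev_le b (by omega) c N (fun n hn =>
      (le_abs_self n).trans (hsupN n (Finset.mem_union_left _ hn)))
    rw [hx] at h4
    push_cast at h4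
    rw [abs_mul, abs_of_nonneg (by positivity : (0 : ℝ) ≤ (q : ℝ)), zpow_natCast] at h4
    calc |(x : ℝ)| ≤ q * |(x : ℝ)| := le_mul_of_one_le_left (abs_nonneg _) hqR
      _ ≤ nm c * (b : ℝ) ^ N := h4
      _ ≤ _ := mul_le_mul_of_nonneg_right hcn (by positivity)
  by_cases hRb : R0 ^ Λ ≤ b
  · -- large base
    have hRbR : (R0 : ℝ) ^ Λ ≤ b := by exact_mod_cast hRb
    have hR0b : (R0 : ℝ) ≤ (b : ℝ) ^ 1 := by
      rw [pow_one]
      exact (le_self_pow₀ hR1 (by omega)).trans hRbR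
    by_cases hNC : Cm * 1 ≤ N
    · right
      exact hlarge b N 1 q c d x y A B hb le_rfl hNC hcard hsupN hmaxN (hcn.trans hR0b)
        (hdn.trans hR0b) hq (hqR0.trans hR0b) hx hy hminc hmind hcur hΔ
    · rcases Nat.eq_zero_or_pos N with h0 | h0
      · left
        rw [h0, pow_zero, mul_one] at hxN
        refine hxN.trans (le_self_pow₀ hR1 ?_)
        positivity
      · right
        exact hsmall b N R0 q c d x y A B hb h0 (by omega) hR2 hRbR hsupN hmaxN hcn hdn hq hqR0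
          hx hy hminc hmind hcur hΔ
  · -- small base
    push Not at hRb
    obtain ⟨a, ha⟩ : ∃ a, a = Nat.log b R0 + 1 := ⟨_, rfl⟩
    have ha1 : 1 ≤ a := by omega
    have hab : R0 < b ^ a := by
      rw [ha]; exact Nat.lt_pow_succ_log_self (by omega) _
    have hab2 : b ^ a ≤ b * R0 := by
      rw [ha, pow_succ, mul_comm]
      exact Nat.mul_le_mul_left _ (Nat.pow_log_le_self _ (by omega))
    have habR : (R0 : ℝ) ≤ (b : ℝ) ^ a := by exact_mod_cast hab.le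
    by_cases hNC : Cm * a ≤ N
    · right
      exact hlarge b N a q c d x y A B hb ha1 hNC hcard hsupN hmaxN (hcn.trans habR)
        (hdn.trans habR) hq (hqR0.trans habR) hx hy hminc hmind hcur hΔ
    · left
      push Not at hNC
      have h6 : (b : ℝ) ^ a ≤ (R0 : ℝ) ^ (Λ + 1) := by
        have : b ^ a ≤ R0 ^ (Λ + 1) := by
          refine hab2.trans ?_
          rw [pow_succ]
          exact Nat.mul_le_mul_right _ hRb.le
        exact_mod_cast this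
      calc |(x : ℝ)| ≤ (R0 : ℝ) * (b : ℝ) ^ N := hxN
        _ ≤ (b : ℝ) ^ a * (b : ℝ) ^ (a * Cm) :=
          mul_le_mul habR (pow_le_pow_right₀ hb1 (by rw [mul_comm]; exact hNC.le))
            (by positivity) (by positivity)
        _ = ((b : ℝ) ^ a) ^ (Cm + 1) := by rw [pow_succ, ← pow_mul, mul_comm]
        _ ≤ ((R0 : ℝ) ^ (Λ + 1)) ^ (Cm + 1) := pow_le_pow_left₀ (by positivity) h6 _
        _ = _ := by rw [← pow_mul]

end Pool.Agent.K1H95.HL
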