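import Mathlib
import Pool.Agent.K1H95.HL.Sparse

/-!
# Families of powers of `b`, and the final comparison
-/

set_option autoImplicit false

open Finset Filter Topology

namespace Pool.Agent.K1H95.HL

theorem ev_add (b : ℕ) (c d : ℤ →₀ ℤ) : ev b (c + d) = ev b c + ev b d := by
  have h : ∀ f : ℤ →₀ ℤ, ev b f = f.sum fun n a => (a : ℚ) * (b : ℚ) ^ n := fun f => rfl
  rw [h, h, h, Finsupp.sum_add_index']
  · intro n; simp
  · intro n x y; push_cast; ring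

theorem ev_single (b : ℕ) (n a : ℤ) : ev b (Finsupp.single n a) = (a : ℚ) * (b : ℚ) ^ n := by
  have h : ∀ f : ℤ →₀ ℤ, ev b f = f.sum fun n a => (a : ℚ) * (b : ℚ) ^ n := fun f => rfl
  rw [h, Finsupp.sum_single_index]
  simp

/-- a family of powers as a finitely supported function -/
theorem family (b R W : ℕ) (c : Fin R → ℤ) (k : Fin R → ℤ) (hc : ∀ i, |c i| ≤ W) :
    ∃ f : ℤ →₀ ℤ, ev b f = ∑ i, (c i : ℚ) * (b : ℚ) ^ k i ∧ f.support.card ≤ R ∧
      ∀ n, |f n| ≤ ((R * W : ℕ) : ℤ) := by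
  classical
  induction R with
  | zero =>
    refine ⟨0, by simp [ev], by simp, fun n => by simp⟩
  | succ R ih =>
    obtain ⟨f, h1, h2, h3⟩ := ih (fun i => c i.succ) (fun i => k i.succ) (fun i => hc i.succ)
    refine ⟨Finsupp.single (k 0) (c 0) + f, ?_, ?_, ?_⟩
    · rw [ev_add, ev_single, h1, Fin.sum_univ_succ]
    · refine (Finset.card_le_card Finsupp.support_add).trans
        ((Finset.card_union_le _ _).trans ?_)
      have : (Finsupp.single (k 0) (c 0)).support.card ≤ 1 := by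
        refine (Finset.card_le_card Finsupp.support_single_subset).trans ?_
        simp
      omega
    · intro n
      rw [Finsupp.add_apply]
      refine (abs_add_le _ _).trans ?_
      have h4 : |(Finsupp.single (k 0) (c 0)) n| ≤ (W : ℤ) := by
        rw [Finsupp.single_apply]
        split_ifs
        · exact hc 0
        · simp
      have h5 := h3 n
      push_cast at h5 ⊢
      linarith

/-- the final comparison -/
theorem finish (b R1 R2 : ℕ) (hb : 2 ≤ b) (K0 ε : ℝ) (hK0 : 1 ≤ K0) (hε : 0 < ε) :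
    ∃ ε' : ℝ, 0 < ε' ∧ ∃ K : ℝ, ∀ (A B x y : ℤ) (E : ℤ) (c1 k1 : Fin R1 → ℤ)
      (c2 k2 : Fin R2 → ℤ), 4 * A ^ 3 + 27 * B ^ 2 ≠ 0 → y ^ 2 = x ^ 3 + A * x + B →
      1 ≤ |(x : ℝ)| → E ≠ 0 → |(E : ℝ)| ≤ K0 * |(x : ℝ)| ^ ε' →
      (∀ i, |(c1 i : ℝ)| ≤ K0 * |(x : ℝ)| ^ ε') → (∀ i, |(c2 i : ℝ)| ≤ K0 * |(x : ℝ)| ^ ε') →
      (E : ℚ) * x = ∑ i, (c1 i : ℚ) * (b : ℚ) ^ k1 i →
      (E : ℚ) * y = ∑ i, (c2 i : ℚ) * (b : ℚ) ^ k2 i →
      |(x : ℝ)| ≤ K * (max |(A : ℝ)| |(B : ℝ)|) ^ (22 + ε) := by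
  classical
  obtain ⟨C, hC⟩ := sparse_both (max R1 R2) (ε / 2) (by positivity)
  set δ : ℝ := ε / (2 * (22 + ε)) with hδ
  have hδ0 : 0 < δ := by positivity
  have hδ1 : δ < 1 := by
    rw [hδ, div_lt_one (by positivity)]
    linarith
  have hδε : (22 + ε / 2) = (22 + ε) * (1 - δ) := by
    rw [hδ]; field_simp; ring
  set R := R1 + R2 + 1 with hR
  set K1 : ℝ := 2 * R * K0 with hK1
  have hK1pos : 0 < K1 := by positivity
  refine ⟨δ / (C + 1), by positivity, ((2 * K1) ^ C) ^ (1 / (1 - δ)), ?_⟩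
  intro A B x y E c1 k1 c2 k2 hΔ hcur hx1 hE hEb hc1 hc2 hxe hye
  set ε' : ℝ := δ / (C + 1) with hε'
  have hε'0 : 0 < ε' := by positivity
  set X : ℝ := |(x : ℝ)| with hX
  set Hm : ℝ := max |(A : ℝ)| |(B : ℝ)| with hHm
  have hH1 : 1 ≤ Hm := height_one A B hΔ
  have hX0 : 0 < X := by linarith
  have hXε : 1 ≤ X ^ ε' := Real.one_le_rpow hx1 hε'0.le
  set W0 := ⌈K0 * X ^ ε'⌉₊ with hW0
  have hW0le : ∀ z : ℤ, |(z : ℝ)| ≤ K0 * X ^ ε' → |z| ≤ (W0 : ℤ) := by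
    intro z hz
    have h1 : |(z : ℝ)| ≤ (W0 : ℝ) := hz.trans (Nat.le_ceil _)
    exact_mod_cast h1
  have hKX : 1 ≤ K0 * X ^ ε' := one_le_mul_of_one_le_of_one_le hK0 hXε
  have hW01 : (W0 : ℝ) ≤ 2 * (K0 * X ^ ε') := by
    have := (Nat.ceil_lt_add_one (by linarith : 0 ≤ K0 * X ^ ε')).le
    linarith
  have hW0pos : 1 ≤ W0 := by
    rw [hW0, Nat.one_le_ceil_iff]; linarith
  -- signs
  have hs : (E.sign : ℤ) * E = |E| := Int.sign_mul_self_eq_abs E
  have hsabs : ∀ z : ℤ, |E.sign * z| = |z| := by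
    intro z
    rw [abs_mul, Int.abs_sign_of_ne_zero hE, one_mul]
  obtain ⟨f1, hf1, hf1c, hf1W⟩ := family b R1 W0 (fun i => E.sign * c1 i) k1
    (fun i => by rw [hsabs]; exact hW0le _ (hc1 i))
  obtain ⟨f2, hf2, hf2c, hf2W⟩ := family b R2 W0 (fun i => E.sign * c2 i) k2
    (fun i => by rw [hsabs]; exact hW0le _ (hc2 i))
  set W := R * W0 with hW
  have hW1 : 1 ≤ W := by rw [hW]; exact Nat.mul_pos (by omega) hW0pos
  have hqW : |E| ≤ (W : ℤ) := by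
    refine (hW0le E hEb).trans ?_
    rw [hW]
    have : W0 ≤ R * W0 := Nat.le_mul_of_pos_left _ (by omega)
    exact_mod_cast this
  have hmain := hC b W |E| f1 f2 x y A B hb hW1 (Int.one_le_abs hE) hqW
    (hf1c.trans (le_max_left _ _)) (hf2c.trans (le_max_right _ _))
    (fun n => (hf1W n).trans (by
      rw [hW]
      have : R1 * W0 ≤ R * W0 := Nat.mul_le_mul_right _ (by omega)
      exact_mod_cast this))
    (fun n => (hf2W n).trans (by
      rw [hW]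
      have : R2 * W0 ≤ R * W0 := Nat.mul_le_mul_right _ (by omega)
      exact_mod_cast this))
    (by
      rw [hf1, ← hs]
      push_cast
      rw [mul_assoc, hxe, Finset.mul_sum]
      exact Finset.sum_congr rfl fun i _ => by ring)
    (by
      rw [hf2, ← hs]
      push_cast
      rw [mul_assoc, hye, Finset.mul_sum]
      exact Finset.sum_congr rfl fun i _ => by ring)
    hcur hΔ
  rw [← hX, ← hHm] at hmain
  have hWle : (W : ℝ) ≤ K1 * X ^ ε' := by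
    rw [hW, hK1]
    push_cast
    have h1 : (0 : ℝ) ≤ (R : ℝ) := by positivity
    calc (R : ℝ) * W0 ≤ R * (2 * (K0 * X ^ ε')) := mul_le_mul_of_nonneg_left hW01 h1
      _ = _ := by ring
  have h1 : X ≤ (2 * K1) ^ C * X ^ δ * Hm ^ (22 + ε / 2) := by
    refine hmain.trans (mul_le_mul_of_nonneg_right ?_ (by positivity))
    calc (2 * (W : ℝ)) ^ C ≤ (2 * (K1 * X ^ ε')) ^ C :=
          pow_le_pow_left₀ (by positivity) (mul_le_mul_of_nonneg_left hWle (by positivity)) C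
      _ = (2 * K1) ^ C * (X ^ ε') ^ C := by rw [← mul_assoc, mul_pow]
      _ ≤ (2 * K1) ^ C * X ^ δ := by
          refine mul_le_mul_of_nonneg_left ?_ (by positivity)
          rw [← Real.rpow_natCast (X ^ ε') C, ← Real.rpow_mul hX0.le]
          apply Real.rpow_le_rpow_of_exponent_le hx1
          rw [hε', div_mul_eq_mul_div, div_le_iff₀ (by positivity)]
          nlinarith
  have h2 : X ^ (1 - δ) ≤ (2 * K1) ^ C * (Hm ^ (22 + ε)) ^ (1 - δ) := by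
    have h3 : X ^ (1 - δ) * X ^ δ = X := by
      rw [← Real.rpow_add hX0]; norm_num
    have h4 : (Hm ^ (22 + ε)) ^ (1 - δ) = Hm ^ (22 + ε / 2) := by
      rw [← Real.rpow_mul (by linarith), ← hδε]
    rw [h4]
    have h5 : 0 < X ^ δ := by positivity
    apply le_of_mul_le_mul_right _ h5
    rw [h3]
    calc X ≤ (2 * K1) ^ C * X ^ δ * Hm ^ (22 + ε / 2) := h1
      _ = _ := by ring
  have h6 : X = (X ^ (1 - δ)) ^ (1 / (1 - δ)) := by
    rw [← Real.rpow_mul hX0.le, mul_one_div_cancel (by linarith), Real.rpow_one]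
  rw [h6]
  have h7 : (Hm ^ (22 + ε)) = ((Hm ^ (22 + ε)) ^ (1 - δ)) ^ (1 / (1 - δ)) := by
    rw [← Real.rpow_mul (by positivity), mul_one_div_cancel (by linarith), Real.rpow_one]
  rw [h7, ← Real.mul_rpow (by positivity) (by positivity)]
  apply Real.rpow_le_rpow (by positivity) h2
  have : 0 < 1 - δ := by linarith
  positivity

/-- the ordinate from the abscissa -/
theorem ordinate (A B x y : ℤ) (ε K : ℝ) (hε : 0 < ε) (hK : 1 ≤ K)
    (hΔ : 4 * A ^ 3 + 27 * B ^ 2 ≠ 0) (hcur : y ^ 2 = x ^ 3 + A * x + B)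
    (hx : |(x : ℝ)| ≤ K * (max |(A : ℝ)| |(B : ℝ)|) ^ (22 + ε / 2)) :
    |(y : ℝ)| ≤ 2 * K ^ 2 * (max |(A : ℝ)| |(B : ℝ)|) ^ (33 + ε) := by
  set Hm : ℝ := max |(A : ℝ)| |(B : ℝ)| with hHm
  have hH1 : 1 ≤ Hm := height_one A B hΔ
  have hH0 : 0 < Hm := by linarith
  set Z : ℝ := K * Hm ^ (22 + ε / 2) with hZ
  have hHZ : Hm ≤ Z := by
    calc Hm = 1 * Hm ^ (1 : ℝ) := by rw [Real.rpow_one, one_mul]
      _ ≤ K * Hm ^ (22 + ε / 2) := mul_le_mul hK
          (Real.rpow_le_rpow_of_exponent_le hH1 (by linarith)) (by positivity) (by linarith)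
  have hZ1 : 1 ≤ Z := hH1.trans hHZ
  have hcurR : (y : ℝ) ^ 2 = (x : ℝ) ^ 3 + A * x + B := by exact_mod_cast hcur
  have h1 : |(y : ℝ)| ^ 2 ≤ 3 * Z ^ 3 := by
    rw [sq_abs, hcurR]
    have e1 : (x : ℝ) ^ 3 ≤ Z ^ 3 := by
      calc (x : ℝ) ^ 3 ≤ |(x : ℝ)| ^ 3 := by rw [← abs_pow]; exact le_abs_self _
        _ ≤ Z ^ 3 := pow_le_pow_left₀ (abs_nonneg _) hx 3
    have e2 : (A : ℝ) * x ≤ Z * Z := by
      calc (A : ℝ) * x ≤ |(A : ℝ) * x| := le_abs_self _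
        _ = |(A : ℝ)| * |(x : ℝ)| := abs_mul _ _
        _ ≤ Z * Z := mul_le_mul ((le_max_left _ _).trans hHZ) hx (abs_nonneg _) (by linarith)
    have e3 : (B : ℝ) ≤ Z := (le_abs_self _).trans ((le_max_right _ _).trans hHZ)
    have e4 : Z ≤ Z ^ 3 := le_self_pow₀ hZ1 (by norm_num)
    have e5 : Z * Z ≤ Z ^ 3 := by
      have : Z ^ 3 = Z * Z * Z := by ring
      rw [this]
      exact le_mul_of_one_le_right (by positivity) hZ1
    linarith
  refine (pow_le_pow_iff_left₀ (abs_nonneg _) (by positivity) two_ne_zero).1 (h1.trans ?_)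
  have h2 : Z ^ 3 = K ^ 3 * (Hm ^ (66 + ε * (3 / 2))) := by
    rw [hZ, mul_pow, ← Real.rpow_natCast (Hm ^ (22 + ε / 2)) 3, ← Real.rpow_mul hH0.le]
    congr 2
    push_cast
    ring
  have h3 : (2 * K ^ 2 * Hm ^ (33 + ε)) ^ 2 = 4 * K ^ 4 * Hm ^ (66 + ε * 2) := by
    rw [mul_pow, mul_pow, ← Real.rpow_natCast (Hm ^ (33 + ε)) 2, ← Real.rpow_mul hH0.le]
    have : (33 + ε) * ((2 : ℕ) : ℝ) = 66 + ε * 2 := by push_cast; ring
    rw [this]
    ring
  rw [h2, h3]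
  have h4 : Hm ^ (66 + ε * (3 / 2)) ≤ Hm ^ (66 + ε * 2) :=
    Real.rpow_le_rpow_of_exponent_le hH1 (by linarith)
  have h5 : 3 * K ^ 3 ≤ 4 * K ^ 4 := by
    have : K ^ 3 ≤ K ^ 4 := pow_le_pow_right₀ hK (by norm_num)
    have h0 : 0 ≤ K ^ 3 := by positivity
    linarith
  calc 3 * (K ^ 3 * Hm ^ (66 + ε * (3 / 2))) = (3 * K ^ 3) * Hm ^ (66 + ε * (3 / 2)) := by ring
    _ ≤ (4 * K ^ 4) * Hm ^ (66 + ε * 2) := mul_le_mul h5 h4 (by positivity) (by positivity)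

end Pool.Agent.K1H95.HL
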