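import Mathlib
import Pool.Agent.K1H95.HL.Core
import Pool.Agent.K1H95.HL.Finish

/-!
# Integral points with a sparse abscissa or a sparse ordinate
-/

set_option autoImplicit false

open Finset Filter Topology

namespace Pool.Agent.K1H95.HL

open Pool.Agent.TH419.WI Pool.Agent.TH419.HX

/-- elementary consequences of the equation for a point far away -/
theorem far (A B x y : ℤ) (Hm : ℝ) (hA : |(A : ℝ)| ≤ Hm) (hB : |(B : ℝ)| ≤ Hm)
    (hcur : y ^ 2 = x ^ 3 + A * x + B) (hH1 : 1 ≤ Hm) (h16 : 16 * Hm ^ 4 ≤ |(x : ℝ)|) :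
    0 < x ∧ |(y : ℝ) ^ 2 - (x : ℝ) ^ 3| ≤ 2 * Hm * (x : ℝ) ∧ 2 * Hm ≤ (x : ℝ) ^ (1 / 4 : ℝ) ∧
      16 ≤ (x : ℝ) := by
  have hcurR : (y : ℝ) ^ 2 = (x : ℝ) ^ 3 + A * x + B := by exact_mod_cast hcur
  have hH4 : 1 ≤ Hm ^ 4 := one_le_pow₀ hH1
  have hHle : Hm ≤ Hm ^ 4 := le_self_pow₀ hH1 (by norm_num)
  set X : ℝ := |(x : ℝ)| with hX
  have hX16 : 16 ≤ X := by linarith
  have hAx : |(A : ℝ) * x + B| ≤ 2 * Hm * X := by
    refine (abs_add_le _ _).trans ?_
    rw [abs_mul]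
    have h1 : |(A : ℝ)| * |(x : ℝ)| ≤ Hm * X := mul_le_mul_of_nonneg_right hA (abs_nonneg _)
    have h2 : |(B : ℝ)| ≤ Hm * X := hB.trans (le_mul_of_one_le_right (by linarith) (by linarith))
    linarith
  have hxpos : 0 < (x : ℝ) := by
    by_contra hneg
    push Not at hneg
    have h1 : (x : ℝ) = -X := by rw [hX, abs_of_nonpos hneg]; ring
    have h2 : (y : ℝ) ^ 2 ≤ -X ^ 3 + 2 * Hm * X := by
      have h3 := (abs_le.1 hAx).2
      have h4 : (x : ℝ) ^ 3 = -X ^ 3 := by rw [h1]; ring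
      linarith
    have h3 : 2 * Hm * X < X ^ 3 := by
      have h4 : 2 * Hm < X := by linarith
      have h5 : X ^ 3 = X * X * X := by ring
      rw [h5]
      have h6 : 2 * Hm * X < X * X := mul_lt_mul_of_pos_right h4 (by linarith)
      have h7 : X * X ≤ X * X * X := le_mul_of_one_le_right (by positivity) (by linarith)
      linarith
    have := sq_nonneg (y : ℝ)
    linarith
  have hXx : X = x := abs_of_pos hxpos
  rw [hXx] at hAx h16 hX16
  refine ⟨by exact_mod_cast hxpos, ?_, ?_, hX16⟩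
  · have : (y : ℝ) ^ 2 - (x : ℝ) ^ 3 = A * x + B := by rw [hcurR]; ring
    rw [this]
    exact hAx
  · have h1 : (2 * Hm) ^ 4 ≤ (x : ℝ) := by
      have : (2 * Hm) ^ 4 = 16 * Hm ^ 4 := by ring
      rw [this]; exact h16
    calc 2 * Hm = ((2 * Hm) ^ 4) ^ (1 / 4 : ℝ) := by
          rw [← Real.rpow_natCast (2 * Hm) 4, ← Real.rpow_mul (by positivity)]
          norm_num
      _ ≤ (x : ℝ) ^ (1 / 4 : ℝ) := Real.rpow_le_rpow (by positivity) h1 (by norm_num)

/-- the leading coefficient has the sign of the sum -/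
theorem lead_pos (b : ℕ) (hb : 2 ≤ b) (k H0 : ℕ) (η : ℝ) (hη : 0 < η) :
    ∃ N0 : ℕ, ∀ (a : Fin (k + 1) → ℤ) (n : Fin (k + 1) → ℕ), (∀ i, |a i| ≤ H0) → a 0 ≠ 0 →
      (∀ i, i ≠ 0 → (n i : ℝ) ≤ (1 - η) * n 0) → N0 ≤ n 0 →
      0 < ∑ i, (a i : ℝ) * (b : ℝ) ^ n i → 0 < a 0 := by
  have hb1 : (1 : ℝ) < b := by
    have : 1 < b := by omega
    exact_mod_cast this
  have hlb : 0 < Real.log b := Real.log_pos hb1
  have ht : Tendsto (fun m : ℕ => Real.exp (η * Real.log b * m)) atTop atTop :=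
    Real.tendsto_exp_atTop.comp
      (tendsto_natCast_atTop_atTop.const_mul_atTop (by positivity))
  obtain ⟨N0, hN0⟩ := (ht.eventually_gt_atTop ((k : ℝ) * H0)).exists_forall_of_atTop
  refine ⟨N0, ?_⟩
  intro a n ha ha0 hgap hn hpos
  by_contra hneg
  push Not at hneg
  have h1 : a 0 ≤ -1 := by omega
  have hN := hN0 (n 0) hn
  have hbpow : ∀ m : ℕ, (b : ℝ) ^ m = Real.exp (m * Real.log b) := by
    intro m
    rw [← Real.rpow_natCast, Real.rpow_def_of_pos (by linarith)]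
    congr 1
    ring
  rw [Fin.sum_univ_succ] at hpos
  have h2 : ∑ i : Fin k, (a i.succ : ℝ) * (b : ℝ) ^ n i.succ ≤
      k * (H0 * Real.exp ((1 - η) * n 0 * Real.log b)) := by
    calc ∑ i : Fin k, (a i.succ : ℝ) * (b : ℝ) ^ n i.succ
        ≤ ∑ _i : Fin k, (H0 : ℝ) * Real.exp ((1 - η) * n 0 * Real.log b) := by
          apply Finset.sum_le_sum
          intro i _
          have h3 : (a i.succ : ℝ) ≤ H0 := by
            have := (le_abs_self _).trans (ha i.succ)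
            exact_mod_cast this
          have h4 : (b : ℝ) ^ n i.succ ≤ Real.exp ((1 - η) * n 0 * Real.log b) := by
            rw [hbpow]
            apply Real.exp_le_exp.2
            exact mul_le_mul_of_nonneg_right (hgap _ (Fin.succ_ne_zero i)) hlb.le
          calc (a i.succ : ℝ) * (b : ℝ) ^ n i.succ ≤ H0 * (b : ℝ) ^ n i.succ :=
                mul_le_mul_of_nonneg_right h3 (by positivity)
            _ ≤ _ := mul_le_mul_of_nonneg_left h4 (by positivity)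
      _ = _ := by rw [Finset.sum_const, Finset.card_univ, Fintype.card_fin, nsmul_eq_mul]
  have h5 : (a 0 : ℝ) * (b : ℝ) ^ n 0 ≤ -Real.exp (n 0 * Real.log b) := by
    rw [hbpow]
    have h6 : (a 0 : ℝ) ≤ -1 := by exact_mod_cast h1
    have := Real.exp_pos (n 0 * Real.log b)
    nlinarith
  have h6 : k * (H0 * Real.exp ((1 - η) * n 0 * Real.log b)) < Real.exp (n 0 * Real.log b) := by
    have h7 : Real.exp (n 0 * Real.log b) = Real.exp (η * Real.log b * n 0) *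
        Real.exp ((1 - η) * n 0 * Real.log b) := by
      rw [← Real.exp_add]; congr 1; ring
    rw [h7, ← mul_assoc]
    exact mul_lt_mul_of_pos_right hN (Real.exp_pos _)
  linarith

/-- sizes of a sparse integer tending to infinity -/
theorem sizesB (b : ℕ) (hb : 2 ≤ b) (k H0 : ℕ) (η : ℝ) (hη : 0 < η)
    (a : ℕ → Fin (k + 1) → ℤ) (n : ℕ → Fin (k + 1) → ℕ) (ha : ∀ t i, |a t i| ≤ H0)
    (ha0 : ∀ t, a t 0 ≠ 0) (hgap : ∀ t i, i ≠ 0 → (n t i : ℝ) ≤ (1 - η) * n t 0)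
    (hZ : Tendsto (fun t => |∑ i, (a t i : ℝ) * (b : ℝ) ^ n t i|) atTop atTop) :
    Tendsto (fun t => (n t 0 : ℝ)) atTop atTop ∧
    (∀ᶠ t in atTop, Real.log |∑ i, (a t i : ℝ) * (b : ℝ) ^ n t i| ≤
      2 * (n t 0 * Real.log b)) ∧
    (∀ᶠ t in atTop, n t 0 * Real.log b ≤
      2 * Real.log |∑ i, (a t i : ℝ) * (b : ℝ) ^ n t i|) := by
  have hb1 : (1 : ℝ) < b := by
    have : 1 < b := by omega
    exact_mod_cast this
  have hlb : 0 < Real.log b := Real.log_pos hb1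
  have hlog : ∀ m : ℕ, Real.log ((b ^ m : ℕ) : ℝ) = m * Real.log b := fun m => by
    push_cast; rw [Real.log_pow]
  obtain ⟨h1, _, h3, h4, _⟩ := sizes hη (fun t i => b ^ n t i) a (fun _ => (H0 : ℝ) + 1)
    (fun t => |∑ i, (a t i : ℝ) * (b : ℝ) ^ n t i|)
    (fun _ => by have : (0 : ℝ) ≤ H0 := by positivity
                 linarith)
    (fun t i => Nat.one_le_pow _ _ (by omega))
    (by
      intro t i hi
      push_cast
      rw [← Real.rpow_natCast, ← Real.rpow_natCast, ← Real.rpow_mul (by positivity)]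
      apply Real.rpow_le_rpow_of_exponent_le hb1.le
      have := hgap t i hi
      linarith)
    (fun t i => by
      have : |(a t i : ℝ)| ≤ H0 := by exact_mod_cast ha t i
      linarith)
    ha0 (fun t => by push_cast; rfl) hZ
    (fun ε hε => ((tendsto_rpow_atTop hε).comp hZ).eventually_ge_atTop _)
  simp only [hlog] at h1 h3 h4
  refine ⟨?_, ?_, ?_⟩
  · have := h1.atTop_mul_const (inv_pos.2 hlb)
    refine this.congr fun t => ?_
    field_simp
  · filter_upwards [h3, hZ.eventually_gt_atTop 0] with t h5 h6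
    have := Real.log_le_log h6 h5
    rwa [Real.log_exp] at this
  · filter_upwards [h4, hZ.eventually_gt_atTop 0] with t h5 h6
    have := Real.log_le_log (Real.exp_pos _) h5
    rw [Real.log_exp] at this
    linarith

/-- the far point, with a bounded multiplier -/
theorem small_q (Q0 : ℕ) : ∃ X0 : ℝ, ∀ x : ℝ, X0 ≤ x → (Q0 : ℝ) ^ 2 ≤ x ^ (1 / 8 : ℝ) := by
  have ht : Tendsto (fun x : ℝ => x ^ (1 / 8 : ℝ)) atTop atTop :=
    tendsto_rpow_atTop (by norm_num)
  exact (ht.eventually_ge_atTop ((Q0 : ℝ) ^ 2)).exists_forall_of_atTop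

/-- **sparse abscissa** -/
theorem hall_x (b : ℕ) (hb : 2 ≤ b) (k H0 Q0 : ℕ) (η ε : ℝ) (hη : 0 < η) (hη1 : η ≤ 1)
    (hε : 0 < ε) :
    ∃ K : ℝ, ∀ (A B x y : ℤ) (q : ℕ) (a : Fin (k + 1) → ℤ) (n : Fin (k + 1) → ℕ),
      4 * A ^ 3 + 27 * B ^ 2 ≠ 0 → y ^ 2 = x ^ 3 + A * x + B → 1 ≤ q → q ≤ Q0 →
      (∀ i, |a i| ≤ H0) → a 0 ≠ 0 →
      (∀ i, i ≠ 0 → (n i : ℝ) ≤ (1 - η) * n 0) → (q : ℤ) * x = ∑ i, a i * (b : ℤ) ^ n i →
      |(x : ℝ)| ≤ K * (max |(A : ℝ)| |(B : ℝ)|) ^ (22 + ε) := by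
  classical
  by_contra hcon
  push Not at hcon
  choose A B x y q a n hΔ hcur hq1 hqQ ha ha0 hgap hx hbig using fun t : ℕ => hcon t
  obtain ⟨N, hcore⟩ := core b hb k H0 Q0 3 2 (by norm_num) (by norm_num) η (1 / 8) 4 hη hη1
    (by norm_num) (by norm_num)
  obtain ⟨ε', hε', K, hfin⟩ := finish b (k + 1) N hb (((Q0 : ℝ) ^ 2 + 1) * ((H0 : ℝ) + 1)) ε
    (by have h1 : (0 : ℝ) ≤ H0 := by positivity
        have h2 : (0 : ℝ) ≤ (Q0 : ℝ) ^ 2 := by positivity
        nlinarith) hε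
  set Hm : ℕ → ℝ := fun t => max |(A t : ℝ)| |(B t : ℝ)| with hHm
  have hH1 : ∀ t, 1 ≤ Hm t := fun t => height_one _ _ (hΔ t)
  have hHp : ∀ t, 1 ≤ Hm t ^ (22 + ε) := fun t => Real.one_le_rpow (hH1 t) (by linarith)
  have hXt : ∀ t : ℕ, (t : ℝ) ≤ |(x t : ℝ)| := fun t => by
    have h1 : (t : ℝ) * 1 ≤ t * Hm t ^ (22 + ε) :=
      mul_le_mul_of_nonneg_left (hHp t) (by positivity)
    have := (hbig t).le
    simp only [hHm] at h1
    linarith
  have hX : Tendsto (fun t => |(x t : ℝ)|) atTop atTop :=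
    tendsto_atTop_mono hXt tendsto_natCast_atTop_atTop
  have hq1R : ∀ t, (1 : ℝ) ≤ q t := fun t => by exact_mod_cast hq1 t
  have hqQR : ∀ t, (q t : ℝ) ≤ Q0 := fun t => by exact_mod_cast hqQ t
  have hxR : ∀ t, (q t : ℝ) * (x t : ℝ) = ∑ i, (a t i : ℝ) * (b : ℝ) ^ n t i := fun t => by
    have := congrArg (fun z : ℤ => (z : ℝ)) (hx t)
    push_cast at this
    exact this
  have hZX : ∀ t, |(x t : ℝ)| ≤ |(q t : ℝ) * (x t : ℝ)| := fun t => by
    rw [abs_mul, abs_of_nonneg (by positivity : (0 : ℝ) ≤ (q t : ℝ))]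
    exact le_mul_of_one_le_left (abs_nonneg _) (hq1R t)
  obtain ⟨s1, s2, s3⟩ := sizesB b hb k H0 η hη a n ha ha0 hgap (by
    simp only [← hxR]
    exact tendsto_atTop_mono hZX hX)
  simp only [← hxR] at s2 s3
  obtain ⟨N0, hN0⟩ := lead_pos b hb k H0 η hη
  obtain ⟨X0, hX0⟩ := small_q Q0
  have hL : Tendsto (fun t => Real.log |(x t : ℝ)|) atTop atTop := Real.tendsto_log_atTop.comp hX
  have hfar : ∀ᶠ t in atTop, 0 < x t ∧ |(y t : ℝ) ^ 2 - (x t : ℝ) ^ 3| ≤ 2 * Hm t * (x t : ℝ) ∧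
      2 * Hm t ≤ (x t : ℝ) ^ (1 / 4 : ℝ) ∧ 16 ≤ (x t : ℝ) := by
    filter_upwards [eventually_ge_atTop 16] with t ht
    apply far (A t) (B t) (x t) (y t) (Hm t) (le_max_left _ _) (le_max_right _ _) (hcur t) (hH1 t)
    have h1 : (16 : ℝ) ≤ t := by exact_mod_cast ht
    have h2 : Hm t ^ 4 ≤ Hm t ^ (22 + ε) := by
      rw [← Real.rpow_natCast]
      apply Real.rpow_le_rpow_of_exponent_le (hH1 t)
      push_cast; linarith
    have h3 : 0 ≤ Hm t ^ 4 := by have := hH1 t; positivity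
    calc 16 * Hm t ^ 4 ≤ t * Hm t ^ (22 + ε) := mul_le_mul h1 h2 h3 (by positivity)
      _ ≤ |(x t : ℝ)| := (hbig t).le
  have hQx : ∀ᶠ t in atTop, (Q0 : ℝ) ^ 2 ≤ |(x t : ℝ)| ^ (1 / 8 : ℝ) := by
    filter_upwards [hX.eventually_ge_atTop X0] with t ht
    exact hX0 _ ht
  have hlogq : ∀ᶠ t in atTop, Real.log |(q t : ℝ) * (x t : ℝ)| ≤ 2 * Real.log |(x t : ℝ)| ∧
      Real.log |(x t : ℝ)| ≤ Real.log |(q t : ℝ) * (x t : ℝ)| := by
    filter_upwards [hX.eventually_ge_atTop (Q0 : ℝ), hX.eventually_ge_atTop 1] with t h1 h2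
    have h3 : 0 < |(x t : ℝ)| := by linarith
    constructor
    · have e1 : |(q t : ℝ) * (x t : ℝ)| ≤ |(x t : ℝ)| ^ 2 := by
        rw [abs_mul, abs_of_nonneg (by positivity : (0 : ℝ) ≤ (q t : ℝ)), sq]
        exact mul_le_mul_of_nonneg_right ((hqQR t).trans h1) (abs_nonneg _)
      have e2 := Real.log_le_log (lt_of_lt_of_le h3 (hZX t)) e1
      rw [Real.log_pow] at e2
      exact_mod_cast e2
    · exact Real.log_le_log h3 (hZX t)
  have hfreq := hcore (fun t => Real.log |(x t : ℝ)|) hL a n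
    (fun t => (q t) ^ 2 * (y t).natAbs) q (fun t => ⟨hq1 t, hqQ t⟩) ha
    (by
      filter_upwards [hfar, s1.eventually_ge_atTop (N0 : ℝ)] with t h1 h2
      have h3 : 0 < a t 0 := hN0 (a t) (n t) (ha t) (ha0 t) (hgap t) (by exact_mod_cast h2) (by
        rw [← hxR]
        have h4 : (0 : ℝ) < x t := by exact_mod_cast h1.1
        have h5 := hq1R t
        positivity)
      positivity)
    hgap
    (by
      filter_upwards [s3, hlogq] with t h1 h2
      linarith [h2.1])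
    (by
      filter_upwards [s2, hlogq, s1.eventually_ge_atTop 0] with t h1 h2 h3
      have hb1 : (1 : ℝ) < b := by
        have : 1 < b := by omega
        exact_mod_cast this
      have hlb : 0 < Real.log b := Real.log_pos hb1
      have : 0 ≤ n t 0 * Real.log b := by positivity
      linarith [h2.2])
    (by
      filter_upwards [hfar, hQx] with t h1 hQx
      obtain ⟨h1, h2, h3, h4⟩ := h1
      have hx0 : (0 : ℝ) < x t := by exact_mod_cast h1
      have hq0 := hq1R t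
      rw [abs_of_pos hx0] at hQx
      have hG1 : 1 ≤ (x t : ℝ) ^ (3 / 2 : ℝ) := Real.one_le_rpow (by linarith) (by norm_num)
      have e1 : ((x t : ℝ) ^ (3 / 2 : ℝ)) ^ 2 = (x t : ℝ) ^ 3 := by
        rw [← Real.rpow_natCast ((x t : ℝ) ^ (3 / 2 : ℝ)) 2, ← Real.rpow_mul hx0.le]
        have : (3 / 2 : ℝ) * ((2 : ℕ) : ℝ) = ((3 : ℕ) : ℝ) := by norm_num
        rw [this, Real.rpow_natCast]
      refine ⟨(q t : ℝ) ^ 2 * (x t : ℝ) ^ (3 / 2 : ℝ),
        one_le_mul_of_one_le_of_one_le (one_le_pow₀ hq0) hG1, ?_, ?_⟩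
      · rw [← hxR, mul_pow, e1]
        ring
      · have e2 : (((q t) ^ 2 * (y t).natAbs : ℕ) : ℝ) ^ 2 = (q t : ℝ) ^ 4 * (y t : ℝ) ^ 2 := by
          push_cast
          rw [Nat.cast_natAbs]
          push_cast
          rw [mul_pow, sq_abs]
          ring
        have e0 : ((q t : ℝ) ^ 2 * (x t : ℝ) ^ (3 / 2 : ℝ)) ^ 2 = (q t : ℝ) ^ 4 * (x t : ℝ) ^ 3 := by
          rw [mul_pow, e1]; ring
        rw [e0, e2, ← mul_sub, abs_mul, abs_of_nonneg (by positivity : (0 : ℝ) ≤ (q t : ℝ) ^ 4)]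
        have e3 : Real.exp (-(1 / 8 * Real.log |(x t : ℝ)|)) = (x t : ℝ) ^ (-(1 / 8) : ℝ) := by
          rw [abs_of_pos hx0, Real.rpow_def_of_pos hx0]
          congr 1; ring
        rw [e3, show (2 - 1 : ℕ) = 1 from rfl, pow_one]
        have e4 : (q t : ℝ) ^ 2 * (x t : ℝ) ^ (3 / 2 : ℝ) * (x t : ℝ) ^ (-(1 / 8) : ℝ) =
            (q t : ℝ) ^ 2 * ((x t : ℝ) ^ (1 / 8 : ℝ) * ((x t : ℝ) ^ (1 / 4 : ℝ) * x t)) := by
          have e5 : (x t : ℝ) ^ (3 / 2 : ℝ) * (x t : ℝ) ^ (-(1 / 8) : ℝ) =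
              (x t : ℝ) ^ (1 / 8 : ℝ) * ((x t : ℝ) ^ (1 / 4 : ℝ) * x t) := by
            rw [← Real.rpow_add hx0]
            conv_rhs => rw [show ((x t : ℝ) ^ (1 / 4 : ℝ) * x t) =
              (x t : ℝ) ^ (1 / 4 : ℝ) * (x t : ℝ) ^ (1 : ℝ) by rw [Real.rpow_one]]
            rw [← Real.rpow_add hx0, ← Real.rpow_add hx0]
            norm_num
          rw [mul_assoc, e5]
        rw [e4]
        have e6 : (q t : ℝ) ^ 4 = (q t : ℝ) ^ 2 * (q t : ℝ) ^ 2 := by ring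
        rw [e6, mul_assoc]
        refine mul_le_mul_of_nonneg_left ?_ (by positivity)
        refine mul_le_mul ?_ (h2.trans (mul_le_mul_of_nonneg_right h3 hx0.le)) (abs_nonneg _)
          (by positivity)
        exact (pow_le_pow_left₀ (by positivity) (hqQR t) 2).trans hQx)
    ε' hε'
  have hlarge : ∀ᶠ t : ℕ in atTop, K < t := tendsto_natCast_atTop_atTop.eventually_gt_atTop K
  obtain ⟨t, ⟨E, kk, c, hE, hEb, hcb, hEq⟩, h1, hKt⟩ := (hfreq.and_eventually
    (hfar.and hlarge)).exists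
  obtain ⟨hxpos, _, _, hx16⟩ := h1
  have hx0 : (0 : ℝ) < x t := by exact_mod_cast hxpos
  have hexp : Real.exp (ε' * Real.log |(x t : ℝ)|) = |(x t : ℝ)| ^ ε' := by
    rw [Real.rpow_def_of_pos (by rw [abs_of_pos hx0]; exact hx0)]
    congr 1; ring
  rw [hexp] at hEb hcb
  set Xε : ℝ := |(x t : ℝ)| ^ ε' with hXεdef
  have hXε : 0 ≤ Xε := by positivity
  have hH0 : (0 : ℝ) ≤ H0 := by positivity
  have hq0 := hq1R t
  have hq2 : (q t : ℝ) ^ 2 ≤ (Q0 : ℝ) ^ 2 := pow_le_pow_left₀ (by positivity) (hqQR t) 2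
  have hq12 : (q t : ℝ) ≤ (q t : ℝ) ^ 2 := le_self_pow₀ hq0 (by norm_num)
  have hfac : ∀ z w : ℝ, 0 ≤ z → 0 ≤ w → z ≤ (Q0 : ℝ) ^ 2 + 1 → w ≤ (H0 : ℝ) + 1 →
      z * w * Xε ≤ ((Q0 : ℝ) ^ 2 + 1) * ((H0 : ℝ) + 1) * Xε := fun z w hz hw h1 h2 =>
    mul_le_mul_of_nonneg_right (mul_le_mul h1 h2 hw (by positivity)) hXε
  have hres := hfin (A t) (B t) (x t) (y t) (E * (q t : ℤ) ^ 2)
    (fun i => (E * q t) * a t i) (fun i => (n t i : ℤ))
    (fun j => (y t).sign * c j) kk (hΔ t) (hcur t) (by rw [abs_of_pos hx0]; linarith)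
    (mul_ne_zero hE (pow_ne_zero _ (by have := hq1 t; positivity)))
    (by
      push_cast
      rw [abs_mul, abs_of_nonneg (by positivity : (0 : ℝ) ≤ (q t : ℝ) ^ 2), mul_comm]
      calc (q t : ℝ) ^ 2 * |(E : ℝ)| ≤ (q t : ℝ) ^ 2 * Xε :=
            mul_le_mul_of_nonneg_left hEb (by positivity)
        _ = (q t : ℝ) ^ 2 * 1 * Xε := by ring
        _ ≤ _ := hfac _ _ (by positivity) zero_le_one (by linarith) (by linarith))
    (fun i => by
      push_cast
      rw [abs_mul, abs_mul, abs_of_nonneg (by positivity : (0 : ℝ) ≤ (q t : ℝ))]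
      have h2 : |(a t i : ℝ)| ≤ H0 := by exact_mod_cast ha t i
      calc |(E : ℝ)| * (q t : ℝ) * |(a t i : ℝ)| ≤ Xε * (q t : ℝ) * H0 :=
            mul_le_mul (mul_le_mul_of_nonneg_right hEb (by positivity)) h2 (abs_nonneg _)
              (by positivity)
        _ = (q t : ℝ) * H0 * Xε := by ring
        _ ≤ _ := hfac _ _ (by positivity) hH0 (by linarith) (by linarith))
    (fun j => by
      push_cast
      rw [abs_mul]
      have h2 : |((y t).sign : ℝ)| ≤ 1 := by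
        rcases lt_trichotomy (y t) 0 with h | h | h
        · rw [Int.sign_eq_neg_one_of_neg h]; simp
        · rw [h]; simp
        · rw [Int.sign_eq_one_of_pos h]; simp
      calc |((y t).sign : ℝ)| * |(c j : ℝ)| ≤ 1 * Xε :=
            mul_le_mul h2 (hcb j) (abs_nonneg _) zero_le_one
        _ = 1 * 1 * Xε := by ring
        _ ≤ _ := hfac _ _ zero_le_one zero_le_one
            (by have : (0 : ℝ) ≤ (Q0 : ℝ) ^ 2 := by positivity
                linarith) (by linarith))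
    (by
      have h2 : ((q t : ℕ) : ℚ) * ((x t : ℤ) : ℚ) = ∑ i, (a t i : ℚ) * (b : ℚ) ^ n t i := by
        have := congrArg (fun z : ℤ => (z : ℚ)) (hx t)
        push_cast at this
        exact this
      calc ((E * (q t : ℤ) ^ 2 : ℤ) : ℚ) * (x t : ℚ) =
            ((E : ℚ) * q t) * (((q t : ℕ) : ℚ) * ((x t : ℤ) : ℚ)) := by push_cast; ring
        _ = _ := by
            rw [h2, Finset.mul_sum]
            refine Finset.sum_congr rfl fun i _ => ?_
            push_cast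
            rw [zpow_natCast]
            ring)
    (by
      have h2 : ((y t : ℤ) : ℚ) = (y t).sign * ((y t).natAbs : ℚ) := by
        have := congrArg (fun z : ℤ => (z : ℚ)) (Int.sign_mul_natAbs (y t))
        beta_reduce at this
        rw [Int.cast_mul, Int.cast_natCast] at this
        exact this.symm
      rw [h2]
      rw [Nat.cast_mul] at hEq
      calc ((E * (q t : ℤ) ^ 2 : ℤ) : ℚ) * ((y t).sign * ((y t).natAbs : ℚ)) =
            (y t).sign * (E * ((((q t) ^ 2 : ℕ) : ℚ) * ((y t).natAbs : ℚ))) := by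
            rw [Int.cast_mul, Int.cast_pow, Int.cast_natCast, Nat.cast_pow]
            ring
        _ = (y t).sign * ∑ j, (c j : ℚ) * (b : ℚ) ^ kk j := by rw [hEq]
        _ = _ := by
            rw [Finset.mul_sum]
            refine Finset.sum_congr rfl fun j _ => ?_
            push_cast
            ring)
  have h5 := hbig t
  have h6 : K * Hm t ^ (22 + ε) ≤ t * Hm t ^ (22 + ε) :=
    mul_le_mul_of_nonneg_right hKt.le (by have := hHp t; linarith)
  simp only [hHm] at h6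
  linarith

end Pool.Agent.K1H95.HL
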