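import Mathlib
import Pool.Agent.K1H95.HL.HallX

/-!
# Integral points with a sparse ordinate
-/

set_option autoImplicit false

open Finset Filter Topology

namespace Pool.Agent.K1H95.HL

open Pool.Agent.TH419.WI Pool.Agent.TH419.HX

/-- comparison of the two coordinates -/
theorem far2 (x y Hm : ℝ) (hx16 : 16 ≤ x) (hH : 2 * Hm ≤ x ^ (1 / 4 : ℝ))
    (h : |y ^ 2 - x ^ 3| ≤ 2 * Hm * x) :
    x ^ 3 / 2 ≤ y ^ 2 ∧ y ^ 2 ≤ 2 * x ^ 3 := by
  have hx0 : 0 < x := by linarith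
  have h1 : x ^ (1 / 4 : ℝ) ≤ x := by
    calc x ^ (1 / 4 : ℝ) ≤ x ^ (1 : ℝ) := Real.rpow_le_rpow_of_exponent_le (by linarith) (by norm_num)
      _ = x := Real.rpow_one x
  have h2 : 2 * Hm * x ≤ x ^ 3 / 2 := by
    have e1 : 2 * Hm * x ≤ x * x := mul_le_mul_of_nonneg_right (hH.trans h1) hx0.le
    have e2 : x ^ 3 = x * (x * x) := by ring
    have e3 : 16 * (x * x) ≤ x * (x * x) := mul_le_mul_of_nonneg_right hx16 (by positivity)
    have e4 : 0 ≤ x * x := by positivity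
    rw [e2]
    linarith
  have h3 := abs_le.1 h
  have : 0 ≤ x ^ 3 := by positivity
  exact ⟨by linarith [h3.1], by linarith [h3.2]⟩

theorem far3 (x Hm Q : ℝ) (hx16 : 16 ≤ x) (hH0 : 0 ≤ Hm) (hH : 2 * Hm ≤ x ^ (1 / 4 : ℝ))
    (hQ0 : 0 ≤ Q) (hQ : Q ≤ x ^ (1 / 8 : ℝ)) :
    Q * (2 * Hm * x) ≤ (x / 2) ^ 2 * x ^ (-(1 / 8) : ℝ) := by
  have hx0 : 0 < x := by linarith
  have e1 : Q * (2 * Hm * x) ≤ x ^ (1 / 8 : ℝ) * (x ^ (1 / 4 : ℝ) * x) :=
    mul_le_mul hQ (mul_le_mul_of_nonneg_right hH hx0.le) (by positivity) (by positivity)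
  refine e1.trans ?_
  have e2 : (4 : ℝ) ≤ x ^ (1 / 2 : ℝ) := by
    calc (4 : ℝ) = (16 : ℝ) ^ (1 / 2 : ℝ) := by
          rw [show (16 : ℝ) = 4 ^ (2 : ℝ) by norm_num, ← Real.rpow_mul (by norm_num)]
          norm_num
      _ ≤ x ^ (1 / 2 : ℝ) := Real.rpow_le_rpow (by norm_num) hx16 (by norm_num)
  have e3 : x ^ (1 / 8 : ℝ) * x ^ (1 / 4 : ℝ) = x ^ (1 / 2 : ℝ) * x ^ (-(1 / 8) : ℝ) := by
    rw [← Real.rpow_add hx0, ← Real.rpow_add hx0]; norm_num
  have e4 : x ^ (1 / 2 : ℝ) * 4 ≤ x := by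
    calc x ^ (1 / 2 : ℝ) * 4 ≤ x ^ (1 / 2 : ℝ) * x ^ (1 / 2 : ℝ) :=
          mul_le_mul_of_nonneg_left e2 (by positivity)
      _ = x := by rw [← Real.rpow_add hx0]; norm_num
  have e5 : x ^ (1 / 2 : ℝ) * x ≤ (x / 2) ^ 2 := by
    have : (x / 2) ^ 2 = (x / 4) * x := by ring
    rw [this]
    exact mul_le_mul_of_nonneg_right (by linarith) hx0.le
  calc x ^ (1 / 8 : ℝ) * (x ^ (1 / 4 : ℝ) * x) = (x ^ (1 / 8 : ℝ) * x ^ (1 / 4 : ℝ)) * x := by ring
    _ = (x ^ (1 / 2 : ℝ) * x) * x ^ (-(1 / 8) : ℝ) := by rw [e3]; ring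
    _ ≤ _ := mul_le_mul_of_nonneg_right e5 (by positivity)

/-- **sparse ordinate** -/
theorem hall_y (b : ℕ) (hb : 2 ≤ b) (k H0 Q0 : ℕ) (η ε : ℝ) (hη : 0 < η) (hη1 : η ≤ 1)
    (hε : 0 < ε) :
    ∃ K : ℝ, ∀ (A B x y : ℤ) (q : ℕ) (a : Fin (k + 1) → ℤ) (n : Fin (k + 1) → ℕ),
      4 * A ^ 3 + 27 * B ^ 2 ≠ 0 → y ^ 2 = x ^ 3 + A * x + B → 1 ≤ q → q ≤ Q0 →
      (∀ i, |a i| ≤ H0) → a 0 ≠ 0 →
      (∀ i, i ≠ 0 → (n i : ℝ) ≤ (1 - η) * n 0) → (q : ℤ) * y = ∑ i, a i * (b : ℤ) ^ n i →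
      |(x : ℝ)| ≤ K * (max |(A : ℝ)| |(B : ℝ)|) ^ (22 + ε) := by
  classical
  by_contra hcon
  push Not at hcon
  choose A B x y q a n hΔ hcur hq1 hqQ ha ha0 hgap hy hbig using fun t : ℕ => hcon t
  obtain ⟨N, hcore⟩ := core b hb k H0 Q0 2 3 (by norm_num) (by norm_num) η (1 / 8) 8 hη hη1
    (by norm_num) (by norm_num)
  obtain ⟨ε', hε', K, hfin⟩ := finish b N (k + 1) hb (((Q0 : ℝ) ^ 2 + 1) * ((H0 : ℝ) + 1)) ε
    (by have h1 : (0 : ℝ) ≤ H0 := by positivity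
        have h2 : (0 : ℝ) ≤ (Q0 : ℝ) ^ 2 := by positivity
        nlinarith) hε
  set Hm : ℕ → ℝ := fun t => max |(A t : ℝ)| |(B t : ℝ)| with hHm
  have hH1 : ∀ t, 1 ≤ Hm t := fun t => height_one _ _ (hΔ t)
  have hHp : ∀ t, 1 ≤ Hm t ^ (22 + ε) := fun t => Real.one_le_rpow (hH1 t) (by linarith)
  have hXt : ∀ t : ℕ, (t : ℝ) ≤ |(x t : ℝ)| := fun t => by
    have h1 : (t : ℝ) * 1 ≤ t * Hm t ^ (22 + ε) :=
      mul_le_mul_of_nonneg_left (hHp t) (by positivity)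
    have := (hbig t).le
    simp only [hHm] at h1
    linarith
  have hX : Tendsto (fun t => |(x t : ℝ)|) atTop atTop :=
    tendsto_atTop_mono hXt tendsto_natCast_atTop_atTop
  have hq1R : ∀ t, (1 : ℝ) ≤ q t := fun t => by exact_mod_cast hq1 t
  have hqQR : ∀ t, (q t : ℝ) ≤ Q0 := fun t => by exact_mod_cast hqQ t
  have hyR : ∀ t, (q t : ℝ) * (y t : ℝ) = ∑ i, (a t i : ℝ) * (b : ℝ) ^ n t i := fun t => by
    have := congrArg (fun z : ℤ => (z : ℝ)) (hy t)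
    push_cast at this
    exact this
  obtain ⟨X0, hX0⟩ := small_q Q0
  have hL : Tendsto (fun t => Real.log |(x t : ℝ)|) atTop atTop := Real.tendsto_log_atTop.comp hX
  have hfar : ∀ᶠ t in atTop, 0 < x t ∧ |(y t : ℝ) ^ 2 - (x t : ℝ) ^ 3| ≤ 2 * Hm t * (x t : ℝ) ∧
      2 * Hm t ≤ (x t : ℝ) ^ (1 / 4 : ℝ) ∧ 16 ≤ (x t : ℝ) := by
    filter_upwards [eventually_ge_atTop 16] with t ht
    apply far (A t) (B t) (x t) (y t) (Hm t) (le_max_left _ _) (le_max_right _ _) (hcur t) (hH1 t)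
    have h1 : (16 : ℝ) ≤ t := by exact_mod_cast ht
    have h2 : Hm t ^ 4 ≤ Hm t ^ (22 + ε) := by
      rw [← Real.rpow_natCast]
      apply Real.rpow_le_rpow_of_exponent_le (hH1 t)
      push_cast; linarith
    have h3 : 0 ≤ Hm t ^ 4 := by have := hH1 t; positivity
    calc 16 * Hm t ^ 4 ≤ t * Hm t ^ (22 + ε) := mul_le_mul h1 h2 h3 (by positivity)
      _ ≤ |(x t : ℝ)| := (hbig t).le
  have hQx : ∀ᶠ t in atTop, (Q0 : ℝ) ≤ |(x t : ℝ)| ^ (1 / 8 : ℝ) := by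
    filter_upwards [hX.eventually_ge_atTop X0] with t ht
    have h1 := hX0 _ ht
    have h2 : (Q0 : ℝ) ≤ (Q0 : ℝ) ^ 2 := by
      have := (hq1R t).trans (hqQR t)
      exact le_self_pow₀ this (by norm_num)
    linarith
  -- the ordinate is large
  have hYx : ∀ᶠ t in atTop, |(x t : ℝ)| ≤ |(q t : ℝ) * (y t : ℝ)| := by
    filter_upwards [hfar] with t h1
    obtain ⟨h1, h2, h3, h4⟩ := h1
    have hx0 : (0 : ℝ) < x t := by exact_mod_cast h1
    obtain ⟨g1, _⟩ := far2 (x t) (y t) (Hm t) h4 h3 h2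
    have g2 : |(x t : ℝ)| ≤ |(y t : ℝ)| := by
      refine (pow_le_pow_iff_left₀ (abs_nonneg _) (abs_nonneg _) two_ne_zero).1 ?_
      rw [sq_abs, sq_abs]
      refine le_trans ?_ g1
      have e1 : (x t : ℝ) ^ 3 = x t * x t ^ 2 := by ring
      rw [e1]
      have e2 : 16 * (x t : ℝ) ^ 2 ≤ x t * x t ^ 2 := mul_le_mul_of_nonneg_right h4 (by positivity)
      have e3 : 0 ≤ (x t : ℝ) ^ 2 := by positivity
      linarith
    rw [abs_mul, abs_of_nonneg (by positivity : (0 : ℝ) ≤ (q t : ℝ))]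
    exact g2.trans (le_mul_of_one_le_left (abs_nonneg _) (hq1R t))
  have hY : Tendsto (fun t => |(q t : ℝ) * (y t : ℝ)|) atTop atTop := tendsto_atTop_mono' _ hYx hX
  obtain ⟨s1, s2, s3⟩ := sizesB b hb k H0 η hη a n ha ha0 hgap (by simpa only [← hyR] using hY)
  simp only [← hyR] at s2 s3
  have hlogs : ∀ᶠ t in atTop, 2 * Real.log |(q t : ℝ) * (y t : ℝ)| ≤
      6 * Real.log |(x t : ℝ)| ∧
      Real.log |(x t : ℝ)| ≤ Real.log |(q t : ℝ) * (y t : ℝ)| := by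
    filter_upwards [hfar, hYx, hX.eventually_ge_atTop (Q0 : ℝ)] with t h1 h5 h6
    obtain ⟨h1, h2, h3, h4⟩ := h1
    have hx0 : (0 : ℝ) < x t := by exact_mod_cast h1
    have hxa : |(x t : ℝ)| = x t := abs_of_pos hx0
    rw [hxa] at h6
    obtain ⟨_, g2⟩ := far2 (x t) (y t) (Hm t) h4 h3 h2
    have hy0 : 0 < |(q t : ℝ) * (y t : ℝ)| := by
      refine lt_of_lt_of_le ?_ h5
      rw [hxa]; exact hx0
    constructor
    · have e1 : |(q t : ℝ) * (y t : ℝ)| ^ 2 ≤ (x t : ℝ) ^ 6 := by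
        rw [sq_abs, mul_pow]
        have e2 : (q t : ℝ) ^ 2 ≤ (x t : ℝ) ^ 2 :=
          pow_le_pow_left₀ (by positivity) ((hqQR t).trans h6) 2
        have e3 : (y t : ℝ) ^ 2 ≤ (x t : ℝ) ^ 4 := by
          refine g2.trans ?_
          have : (x t : ℝ) ^ 4 = x t * x t ^ 3 := by ring
          rw [this]
          exact mul_le_mul_of_nonneg_right (by linarith) (by positivity)
        calc (q t : ℝ) ^ 2 * (y t : ℝ) ^ 2 ≤ (x t : ℝ) ^ 2 * (x t : ℝ) ^ 4 :=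
              mul_le_mul e2 e3 (by positivity) (by positivity)
          _ = _ := by ring
      have e2 := Real.log_le_log (by positivity) e1
      rw [Real.log_pow, Real.log_pow] at e2
      rw [hxa]
      exact_mod_cast e2
    · exact Real.log_le_log (by rw [hxa]; exact hx0) h5
  have hfreq := hcore (fun t => Real.log |(x t : ℝ)|) hL a n (fun t => q t * (x t).natAbs) q
    (fun t => ⟨hq1 t, hqQ t⟩) ha
    (Eventually.of_forall fun t => by
      have := ha0 t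
      positivity)
    hgap
    (by
      filter_upwards [s3, hlogs, hL.eventually_ge_atTop 0] with t h1 h2 h3
      linarith [h2.1])
    (by
      filter_upwards [s2, hlogs, s1.eventually_ge_atTop 0] with t h1 h2 h3
      have hb1 : (1 : ℝ) < b := by
        have : 1 < b := by omega
        exact_mod_cast this
      have hlb : 0 < Real.log b := Real.log_pos hb1
      have : 0 ≤ n t 0 * Real.log b := by positivity
      linarith [h2.2])
    (by
      filter_upwards [hfar, hQx] with t h1 hQx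
      obtain ⟨h1, h2, h3, h4⟩ := h1
      have hx0 : (0 : ℝ) < x t := by exact_mod_cast h1
      rw [abs_of_pos hx0] at hQx
      have hq0 := hq1R t
      obtain ⟨g1, _⟩ := far2 (x t) (y t) (Hm t) h4 h3 h2
      have hy2 : 0 ≤ (y t : ℝ) ^ 2 := by positivity
      have hG3 : (((y t : ℝ) ^ 2) ^ (1 / 3 : ℝ)) ^ 3 = (y t : ℝ) ^ 2 := by
        rw [← Real.rpow_natCast (((y t : ℝ) ^ 2) ^ (1 / 3 : ℝ)) 3, ← Real.rpow_mul hy2]
        norm_num
      have hGx : (x t : ℝ) / 2 ≤ ((y t : ℝ) ^ 2) ^ (1 / 3 : ℝ) := by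
        refine (pow_le_pow_iff_left₀ (by positivity) (by positivity) three_ne_zero).1 ?_
        rw [hG3]
        refine le_trans ?_ g1
        have : ((x t : ℝ) / 2) ^ 3 = x t ^ 3 / 8 := by ring
        rw [this]
        have : 0 ≤ (x t : ℝ) ^ 3 := by positivity
        linarith
      set G0 : ℝ := ((y t : ℝ) ^ 2) ^ (1 / 3 : ℝ) with hG0
      have e0 : ((q t : ℝ) * G0) ^ 3 = (q t : ℝ) ^ 3 * (y t : ℝ) ^ 2 := by
        rw [mul_pow, hG3]
      refine ⟨q t * G0, one_le_mul_of_one_le_of_one_le hq0 (by linarith), ?_, ?_⟩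
      · rw [e0, ← hyR]; ring
      · rw [e0]
        have e2 : ((q t * (x t).natAbs : ℕ) : ℝ) = (q t : ℝ) * (x t : ℝ) := by
          push_cast
          rw [Nat.cast_natAbs]; push_cast; rw [abs_of_pos hx0]
        rw [e2, mul_pow, ← mul_sub, abs_mul, abs_of_nonneg (by positivity : (0 : ℝ) ≤ (q t : ℝ) ^ 3),
          abs_sub_comm]
        have e3 : Real.exp (-(1 / 8 * Real.log |(x t : ℝ)|)) = (x t : ℝ) ^ (-(1 / 8) : ℝ) := by
          rw [abs_of_pos hx0, Real.rpow_def_of_pos hx0]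
          congr 1; ring
        rw [e3, show (3 - 1 : ℕ) = 2 from rfl]
        have hH0 : 0 ≤ Hm t := by have := hH1 t; linarith
        have e4 := far3 (x t) (Hm t) (q t) h4 hH0 h3 (by positivity) ((hqQR t).trans hQx)
        calc (q t : ℝ) ^ 3 * |(y t : ℝ) ^ 2 - (x t : ℝ) ^ 3|
            ≤ (q t : ℝ) ^ 3 * (2 * Hm t * x t) := mul_le_mul_of_nonneg_left h2 (by positivity)
          _ = (q t : ℝ) ^ 2 * (q t * (2 * Hm t * x t)) := by ring
          _ ≤ (q t : ℝ) ^ 2 * (((x t : ℝ) / 2) ^ 2 * (x t : ℝ) ^ (-(1 / 8) : ℝ)) :=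
              mul_le_mul_of_nonneg_left e4 (by positivity)
          _ ≤ (q t : ℝ) ^ 2 * (G0 ^ 2 * (x t : ℝ) ^ (-(1 / 8) : ℝ)) := by
              refine mul_le_mul_of_nonneg_left ?_ (by positivity)
              exact mul_le_mul_of_nonneg_right (pow_le_pow_left₀ (by positivity) hGx 2)
                (by positivity)
          _ = _ := by ring)
    ε' hε'
  have hlarge : ∀ᶠ t : ℕ in atTop, K < t := tendsto_natCast_atTop_atTop.eventually_gt_atTop K
  obtain ⟨t, ⟨E, kk, c, hE, hEb, hcb, hEq⟩, h1, hKt⟩ := (hfreq.and_eventually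
    (hfar.and hlarge)).exists
  obtain ⟨hxpos, _, _, hx16⟩ := h1
  have hx0 : (0 : ℝ) < x t := by exact_mod_cast hxpos
  have hexp : Real.exp (ε' * Real.log |(x t : ℝ)|) = |(x t : ℝ)| ^ ε' := by
    rw [Real.rpow_def_of_pos (by rw [abs_of_pos hx0]; exact hx0)]
    congr 1; ring
  rw [hexp] at hEb hcb
  set Xε : ℝ := |(x t : ℝ)| ^ ε' with hXεdef
  have hXε : 0 ≤ Xε := by positivity
  have hH0 : (0 : ℝ) ≤ H0 := by positivity
  have hq0 := hq1R t
  have hQ2 : (Q0 : ℝ) ≤ (Q0 : ℝ) ^ 2 := le_self_pow₀ (hq0.trans (hqQR t)) (by norm_num)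
  have hqQ2 : (q t : ℝ) ≤ (Q0 : ℝ) ^ 2 + 1 := by have := hqQR t; linarith
  have hfac : ∀ z w : ℝ, 0 ≤ z → 0 ≤ w → z ≤ (Q0 : ℝ) ^ 2 + 1 → w ≤ (H0 : ℝ) + 1 →
      z * w * Xε ≤ ((Q0 : ℝ) ^ 2 + 1) * ((H0 : ℝ) + 1) * Xε := fun z w hz hw h1 h2 =>
    mul_le_mul_of_nonneg_right (mul_le_mul h1 h2 hw (by positivity)) hXε
  have hres := hfin (A t) (B t) (x t) (y t) (E * q t) c kk (fun i => E * a t i)
    (fun i => (n t i : ℤ))
    (hΔ t) (hcur t) (by rw [abs_of_pos hx0]; linarith)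
    (mul_ne_zero hE (by have := hq1 t; positivity))
    (by
      push_cast
      rw [abs_mul, abs_of_nonneg (by positivity : (0 : ℝ) ≤ (q t : ℝ)), mul_comm]
      calc (q t : ℝ) * |(E : ℝ)| ≤ (q t : ℝ) * Xε :=
            mul_le_mul_of_nonneg_left hEb (by positivity)
        _ = (q t : ℝ) * 1 * Xε := by ring
        _ ≤ _ := hfac _ _ (by positivity) zero_le_one hqQ2 (by linarith))
    (fun j => by
      calc |(c j : ℝ)| ≤ Xε := hcb j
        _ = 1 * 1 * Xε := by ring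
        _ ≤ _ := hfac _ _ zero_le_one zero_le_one
            (by have : (0 : ℝ) ≤ (Q0 : ℝ) ^ 2 := by positivity
                linarith) (by linarith))
    (fun i => by
      push_cast
      rw [abs_mul]
      have h2 : |(a t i : ℝ)| ≤ H0 := by exact_mod_cast ha t i
      calc |(E : ℝ)| * |(a t i : ℝ)| ≤ Xε * H0 :=
            mul_le_mul hEb h2 (abs_nonneg _) hXε
        _ = 1 * H0 * Xε := by ring
        _ ≤ _ := hfac _ _ zero_le_one hH0
            (by have : (0 : ℝ) ≤ (Q0 : ℝ) ^ 2 := by positivity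
                linarith) (by linarith))
    (by
      have h2 : ((x t : ℤ) : ℚ) = (((x t).natAbs : ℕ) : ℚ) := by
        have := congrArg (fun z : ℤ => (z : ℚ)) (Int.natAbs_of_nonneg hxpos.le)
        beta_reduce at this
        rw [Int.cast_natCast] at this
        exact this.symm
      rw [Nat.cast_mul] at hEq
      rw [h2, Int.cast_mul, Int.cast_natCast, mul_assoc]
      exact hEq)
    (by
      have h2 : ((q t : ℕ) : ℚ) * ((y t : ℤ) : ℚ) = ∑ i, (a t i : ℚ) * (b : ℚ) ^ n t i := by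
        have := congrArg (fun z : ℤ => (z : ℚ)) (hy t)
        push_cast at this
        exact this
      rw [Int.cast_mul, Int.cast_natCast, mul_assoc, h2, Finset.mul_sum]
      refine Finset.sum_congr rfl fun i _ => ?_
      push_cast
      rw [zpow_natCast]
      ring)
  have h5 := hbig t
  have h6 : K * Hm t ^ (22 + ε) ≤ t * Hm t ^ (22 + ε) :=
    mul_le_mul_of_nonneg_right hKt.le (by have := hHp t; linarith)
  simp only [hHm] at h6
  linarith

end Pool.Agent.K1H95.HL
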